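import Pool.Agent.TH553.ST.Pair2

set_option autoImplicit false
set_option linter.unusedSectionVars false

/-!
# Joint equidistribution
-/

namespace Pool.Agent.TH553.ST

open Complex Filter Topology ComplexConjugate NumberField IsDedekindDomain MeasureTheory
  Pool.Agent.W540.BE Pool.Agent.TH553.RS Pool.Agent.H341R2

section

variable {K : Type} [Field K] [NumberField K]

theorem mn_sum {ι : Type*} (s : Finset ι) (F : ι → HeightOneSpectrum (𝓞 K) → ℂ) (N : ℕ) :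
    mn (fun v => ∑ i ∈ s, F i v) N = ∑ i ∈ s, mn (F i) N := by
  unfold mn
  rw [Finset.sum_comm, Finset.smul_sum]

theorem mn_mul (a : ℂ) (F : HeightOneSpectrum (𝓞 K) → ℂ) (N : ℕ) :
    mn (fun v => a * F v) N = a * mn F N := by
  unfold mn
  rw [← Finset.mul_sum, mul_smul_comm]

theorem mn_sub_le {F F' : HeightOneSpectrum (𝓞 K) → ℂ} {ε : ℝ} (h : ∀ v, ‖F v - F' v‖ ≤ ε)
    (hε : 0 ≤ ε) (N : ℕ) : ‖mn F N - mn F' N‖ ≤ ε := by
  unfold mn
  rw [← smul_sub, ← Finset.sum_sub_distrib, norm_smul, norm_inv, Real.norm_natCast]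
  have h1 : ‖∑ v ∈ upto K N, (F v - F' v)‖ ≤ (upto K N).card * ε := by
    refine (norm_sum_le _ _).trans ?_
    refine (Finset.sum_le_sum fun v _ => h v).trans ?_
    rw [Finset.sum_const, nsmul_eq_mul]
  by_cases h0 : ((upto K N).card : ℝ) = 0
  · rw [h0, inv_zero, zero_mul]
    exact hε
  · rw [inv_mul_le_iff₀ (by positivity)]
    exact h1

/-- uniform limits -/
theorem mn_unif {F : HeightOneSpectrum (𝓞 K) → ℂ} {c : ℂ}
    (h : ∀ ε : ℝ, 0 < ε → ∃ (F' : HeightOneSpectrum (𝓞 K) → ℂ) (c' : ℂ),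
      (∀ v, ‖F v - F' v‖ ≤ ε) ∧ ‖c' - c‖ ≤ ε ∧ Tendsto (mn F') atTop (𝓝 c')) :
    Tendsto (mn F) atTop (𝓝 c) := by
  rw [Metric.tendsto_nhds]
  intro ε hε
  obtain ⟨F', c', h1, h2, h3⟩ := h (ε / 4) (by positivity)
  rw [Metric.tendsto_nhds] at h3
  filter_upwards [h3 (ε / 4) (by positivity)] with N hN
  rw [dist_eq_norm] at hN ⊢
  have h4 := mn_sub_le h1 (by positivity) N
  have h5 : mn F N - c = (mn F N - mn F' N) + (mn F' N - c') + (c' - c) := by ring
  rw [h5]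
  have h6 := norm_add_le ((mn F N - mn F' N) + (mn F' N - c')) (c' - c)
  have h7 := norm_add_le (mn F N - mn F' N) (mn F' N - c')
  linarith

variable {G : Type} [Group G] [TopologicalSpace G] [IsTopologicalGroup G] [CompactSpace G]
  [MeasurableSpace G] [BorelSpace G] {μ : Measure G} [IsProbabilityMeasure μ] [μ.IsHaarMeasure]
  {n : ℕ} {π : G →* Matrix.unitaryGroup (Fin n) ℂ}

/-- complex class functions -/
theorem law_c {x : HeightOneSpectrum (𝓞 K) → G} (hx : Law x μ) {f : G → ℂ} (hf : Continuous f)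
    (hcl : ∀ g h, f (h * g * h⁻¹) = f g) :
    Tendsto (mn fun v => f (x v)) atTop (𝓝 (∫ g, f g ∂μ)) := by
  have h1 := hx (fun g => (f g).re) (Complex.continuous_re.comp hf) fun g h => by rw [hcl]
  have h2 := hx (fun g => (f g).im) (Complex.continuous_im.comp hf) fun g h => by rw [hcl]
  have h3 := ((Complex.continuous_ofReal.tendsto _).comp h1).add
    (((Complex.continuous_ofReal.tendsto _).comp h2).mul_const I)
  have h4 : ((∫ g, (f g).re ∂μ : ℝ) : ℂ) + ((∫ g, (f g).im ∂μ : ℝ) : ℂ) * I = ∫ g, f g ∂μ := by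
    have h5 := integral_re_add_im (𝕜 := ℂ) (intg (μ := μ) hf)
    simpa using h5
  rw [h4] at h3
  refine h3.congr fun N => ?_
  simp only [Function.comp]
  rw [← re_mn, ← im_mn]
  exact Complex.re_add_im _

/-- a trivial representation -/
theorem chi_triv (h : ∀ g, π g = 1) (g : G) : chi π g = n := by
  unfold chi
  rw [h]
  simp

variable {G' : Type} [Group G'] [TopologicalSpace G'] [IsTopologicalGroup G'] [CompactSpace G']
  [MeasurableSpace G'] [BorelSpace G'] {μ' : Measure G'} [IsProbabilityMeasure μ']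
  [μ'.IsHaarMeasure] {n' : ℕ} {π' : G' →* Matrix.unitaryGroup (Fin n') ℂ}
  {x : HeightOneSpectrum (𝓞 K) → G} {x' : HeightOneSpectrum (𝓞 K) → G'}

/-- products of characters -/
theorem joint_chi (hx : Law x μ) (hx' : Law x' μ') (hc : Continuous π) (hs : Schur π)
    (hc' : Continuous π') (hs' : Schur π')
    (hd : (∃ g, π g ≠ 1) → (∃ g, π' g ≠ 1) → ¬ Same π μ π' μ' ∧
      ∀ τ : ℝ, ∃ Λ : ℂ → ℂ, MeromorphicAt Λ (1 + τ * I) ∧
      ∀ᶠ s in 𝓝 ((1 : ℂ) + τ * I), (1 : ℝ) < s.re → Λ s = LP π x π' x' s) :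
    Tendsto (mn fun v => chi π (x v) * chi π' (x' v)) atTop
      (𝓝 ((∫ g, chi π g ∂μ) * ∫ g, chi π' g ∂μ')) := by
  by_cases h1 : ∃ g, π g ≠ 1
  · by_cases h2 : ∃ g, π' g ≠ 1
    · rw [int_chi hc hs h1, zero_mul]
      exact pair_avg hx hx' hc hs hc' hs' (hd h1 h2).1 (hd h1 h2).2
    · push Not at h2
      have h3 := (law_c hx (cont_chi hc) (fun g h => chi_cls π g h)).const_mul (n' : ℂ)
      have h4 : ∫ g, chi π' g ∂μ' = n' := by
        simp only [chi_triv h2]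
        simp
      rw [h4, mul_comm]
      refine h3.congr fun N => ?_
      rw [← mn_mul]
      congr 1
      funext v
      rw [chi_triv h2, mul_comm]
  · push Not at h1
    have h3 := (law_c hx' (cont_chi hc') (fun g h => chi_cls π' g h)).const_mul (n : ℂ)
    have h4 : ∫ g, chi π g ∂μ = n := by
      simp only [chi_triv h1]
      simp
    rw [h4]
    refine h3.congr fun N => ?_
    rw [← mn_mul]
    congr 1
    funext v
    rw [chi_triv h1]

/-- **Joint equidistribution.** -/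
theorem joint [SecondCountableTopology G] [SecondCountableTopology G']
    (hx : Law x μ) (hx' : Law x' μ') {f : G × G' → ℂ} (hf : Continuous f)
    (hap : ∀ ε : ℝ, 0 < ε → ∃ (k : ℕ) (m m' : Fin k → ℕ)
      (ρ : ∀ i, G →* Matrix.unitaryGroup (Fin (m i)) ℂ)
      (ρ' : ∀ i, G' →* Matrix.unitaryGroup (Fin (m' i)) ℂ) (a : Fin k → ℂ),
      (∀ i, Continuous (ρ i) ∧ Schur (ρ i)) ∧ (∀ i, Continuous (ρ' i) ∧ Schur (ρ' i)) ∧
      (∀ i, (∃ g, ρ i g ≠ 1) → (∃ g, ρ' i g ≠ 1) → ¬ Same (ρ i) μ (ρ' i) μ' ∧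
      ∀ τ : ℝ, ∃ Λ : ℂ → ℂ, MeromorphicAt Λ (1 + τ * I) ∧
      ∀ᶠ s in 𝓝 ((1 : ℂ) + τ * I), (1 : ℝ) < s.re → Λ s = LP (ρ i) x (ρ' i) x' s) ∧
      ∀ g g', ‖f (g, g') - ∑ i, a i * (chi (ρ i) g * chi (ρ' i) g')‖ ≤ ε) :
    Tendsto (mn fun v => f (x v, x' v)) atTop (𝓝 (∫ p, f p ∂(μ.prod μ'))) := by
  refine mn_unif fun ε hε => ?_
  obtain ⟨k, m, m', ρ, ρ', a, h1, h2, h3, h4⟩ := hap ε hε
  refine ⟨fun v => ∑ i, a i * (chi (ρ i) (x v) * chi (ρ' i) (x' v)),
    ∑ i, a i * ((∫ g, chi (ρ i) g ∂μ) * ∫ g, chi (ρ' i) g ∂μ'), fun v => h4 _ _, ?_, ?_⟩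
  · have hci : ∀ i, Continuous fun p : G × G' => a i * (chi (ρ i) p.1 * chi (ρ' i) p.2) :=
      fun i => continuous_const.mul (((cont_chi (h1 i).1).comp continuous_fst).mul
        ((cont_chi (h2 i).1).comp continuous_snd))
    have hFc : Continuous fun p : G × G' => ∑ i, a i * (chi (ρ i) p.1 * chi (ρ' i) p.2) :=
      continuous_finsetSum _ fun i _ => hci i
    have hI : ∀ F : G × G' → ℂ, Continuous F → Integrable F (μ.prod μ') := fun F hF =>
      hF.integrable_of_hasCompactSupport (HasCompactSupport.of_compactSpace F)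
    have h5 : ∫ p, (∑ i, a i * (chi (ρ i) p.1 * chi (ρ' i) p.2)) ∂(μ.prod μ') =
        ∑ i, a i * ((∫ g, chi (ρ i) g ∂μ) * ∫ g, chi (ρ' i) g ∂μ') := by
      rw [integral_finsetSum _ fun i _ => hI _ (hci i)]
      refine Finset.sum_congr rfl fun i _ => ?_
      rw [integral_const_mul, integral_prod_mul]
    rw [← h5, ← integral_sub (hI _ hFc) (hI _ hf)]
    refine (norm_integral_le_integral_norm _).trans ?_
    have h6 : ∫ p, ‖(∑ i, a i * (chi (ρ i) p.1 * chi (ρ' i) p.2)) - f p‖ ∂(μ.prod μ') ≤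
        ∫ _, ε ∂(μ.prod μ') := by
      refine integral_mono (hI _ hFc |>.sub (hI _ hf)).norm (integrable_const _) fun p => ?_
      simp only
      rw [norm_sub_rev]
      exact h4 p.1 p.2
    simpa using h6
  · have h5 : Tendsto (fun N => ∑ i, a i * mn (fun v => chi (ρ i) (x v) * chi (ρ' i) (x' v)) N)
        atTop (𝓝 (∑ i, a i * ((∫ g, chi (ρ i) g ∂μ) * ∫ g, chi (ρ' i) g ∂μ'))) :=
      tendsto_finsetSum _ fun i _ => (joint_chi hx hx' (h1 i).1 (h1 i).2 (h2 i).1 (h2 i).2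
        (h3 i)).const_mul _
    refine h5.congr fun N => ?_
    rw [mn_sum]
    exact Finset.sum_congr rfl fun i _ => (mn_mul _ _ _).symm

end

end Pool.Agent.TH553.ST
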