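import Pool.Agent.TH553.ST.PW
import Pool.Agent.TH553.ST.Joint

set_option autoImplicit false
set_option linter.unusedSectionVars false

/-!
# The theorem of Peter and Weyl for class functions on a product, and equidistribution
-/

namespace Pool.Agent.TH553.ST

open Complex Filter Topology ComplexConjugate MeasureTheory NumberField IsDedekindDomain
  Pool.Agent.W540.BE
open scoped Matrix ComplexOrder Kronecker

section

variable {G : Type} [Group G] [TopologicalSpace G]
  {G' : Type} [Group G'] [TopologicalSpace G']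

/-- sums of products of matrix coefficients -/
def Coef2 (f : G × G' → ℂ) : Prop := ∃ (J : Type) (_ : Fintype J) (φ : J → G → ℂ)
  (ψ : J → G' → ℂ), (∀ j, Coef (φ j)) ∧ (∀ j, Coef (ψ j)) ∧ ∀ p, f p = ∑ j, φ j p.1 * ψ j p.2

theorem Coef2.add {f f' : G × G' → ℂ} (h : Coef2 f) (h' : Coef2 f') :
    Coef2 fun p => f p + f' p := by
  obtain ⟨J, _, φ, ψ, h1, h2, h3⟩ := h
  obtain ⟨J', _, φ', ψ', h1', h2', h3'⟩ := h'
  refine ⟨J ⊕ J', inferInstance, Sum.elim φ φ', Sum.elim ψ ψ', ?_, ?_, fun p => ?_⟩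
  · rintro (j | j)
    · exact h1 j
    · exact h1' j
  · rintro (j | j)
    · exact h2 j
    · exact h2' j
  · rw [Fintype.sum_sum_type]
    exact congrArg₂ (· + ·) (h3 p) (h3' p)

theorem Coef2.mul {f f' : G × G' → ℂ} (h : Coef2 f) (h' : Coef2 f') :
    Coef2 fun p => f p * f' p := by
  obtain ⟨J, _, φ, ψ, h1, h2, h3⟩ := h
  obtain ⟨J', _, φ', ψ', h1', h2', h3'⟩ := h'
  refine ⟨J × J', inferInstance, fun j g => φ j.1 g * φ' j.2 g, fun j g => ψ j.1 g * ψ' j.2 g,
    fun j => (h1 j.1).mul (h1' j.2), fun j => (h2 j.1).mul (h2' j.2), fun p => ?_⟩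
  rw [Fintype.sum_prod_type]
  refine (congrArg₂ (· * ·) (h3 p) (h3' p)).trans ?_
  simp only
  rw [Finset.sum_mul_sum]
  exact Finset.sum_congr rfl fun i _ => Finset.sum_congr rfl fun j _ => by ring

theorem Coef2.const (c : ℂ) : Coef2 fun _ : G × G' => c :=
  ⟨Unit, inferInstance, fun _ _ => c, fun _ _ => 1, fun _ => Coef.const c, fun _ => Coef.const 1,
    fun p => by simp⟩

theorem Coef2.conj {f : G × G' → ℂ} (h : Coef2 f) : Coef2 fun p => conj (f p) := by
  obtain ⟨J, _, φ, ψ, h1, h2, h3⟩ := h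
  refine ⟨J, inferInstance, fun j g => conj (φ j g), fun j g => conj (ψ j g),
    fun j => (h1 j).conj, fun j => (h2 j).conj, fun p => ?_⟩
  simp only
  rw [h3, map_sum]
  exact Finset.sum_congr rfl fun j _ => map_mul _ _ _

/-- the algebra -/
noncomputable def coefAlg2 (G G' : Type) [Group G] [TopologicalSpace G] [Group G']
    [TopologicalSpace G'] : StarSubalgebra ℂ C(G × G', ℂ) where
  carrier := {f | Coef2 f}
  mul_mem' := fun {f f'} (h : Coef2 f) (h' : Coef2 f') => show Coef2 _ from h.mul h'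
  one_mem' := show Coef2 _ from Coef2.const 1
  add_mem' := fun {f f'} (h : Coef2 f) (h' : Coef2 f') => show Coef2 _ from h.add h'
  zero_mem' := show Coef2 _ from Coef2.const 0
  algebraMap_mem' := fun c => show Coef2 _ from Coef2.const c
  star_mem' := fun {f} (h : Coef2 f) => show Coef2 _ from h.conj

theorem coef2_cont {f : G × G' → ℂ} (h : Coef2 f) : Continuous f := by
  obtain ⟨J, _, φ, ψ, h1, h2, h3⟩ := h
  have : f = fun p => ∑ j, φ j p.1 * ψ j p.2 := funext h3
  rw [this]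
  exact continuous_finsetSum _ fun j _ => ((coef_cont (h1 j)).comp continuous_fst).mul
    ((coef_cont (h2 j)).comp continuous_snd)

end

section

variable {G : Type} [Group G] [TopologicalSpace G] [IsTopologicalGroup G] [CompactSpace G]
  [T2Space G] {G' : Type} [Group G'] [TopologicalSpace G'] [IsTopologicalGroup G']
  [CompactSpace G'] [T2Space G']

theorem coef2_dense {f : G × G' → ℂ} (hf : Continuous f) {ε : ℝ} (hε : 0 < ε) :
    ∃ φ : G × G' → ℂ, Coef2 φ ∧ ∀ p, ‖f p - φ p‖ ≤ ε := by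
  have h1 : (coefAlg2 G G').topologicalClosure = ⊤ := by
    refine ContinuousMap.starSubalgebra_topologicalClosure_eq_top_of_separatesPoints _ ?_
    rintro ⟨g, g'⟩ ⟨h, h'⟩ hne
    by_cases hgh : g = h
    · have hgh' : g' ≠ h' := fun h2 => hne (by rw [hgh, h2])
      obtain ⟨φ, h2, h3⟩ := coef_sep hgh'
      have h4 : Coef2 fun p : G × G' => φ p.2 := ⟨Unit, inferInstance, fun _ _ => 1, fun _ => φ,
        fun _ => Coef.const 1, fun _ => h2, fun p => by simp⟩
      exact ⟨_, ⟨⟨_, coef2_cont h4⟩, h4, rfl⟩, h3⟩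
    · obtain ⟨φ, h2, h3⟩ := coef_sep hgh
      have h4 : Coef2 fun p : G × G' => φ p.1 := ⟨Unit, inferInstance, fun _ => φ, fun _ _ => 1,
        fun _ => h2, fun _ => Coef.const 1, fun p => by simp⟩
      exact ⟨_, ⟨⟨_, coef2_cont h4⟩, h4, rfl⟩, h3⟩
  have h2 : (⟨f, hf⟩ : C(G × G', ℂ)) ∈ (coefAlg2 G G').topologicalClosure := by
    rw [h1]
    exact StarSubalgebra.mem_top
  have h3 : (⟨f, hf⟩ : C(G × G', ℂ)) ∈ closure ((coefAlg2 G G' :
      StarSubalgebra ℂ C(G × G', ℂ)) : Set C(G × G', ℂ)) := h2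
  obtain ⟨φ, h4, h5⟩ := Metric.mem_closure_iff.1 h3 ε hε
  refine ⟨φ, h4, fun g => ?_⟩
  rw [dist_eq_norm] at h5
  exact (ContinuousMap.norm_coe_le_norm ((⟨f, hf⟩ : C(G × G', ℂ)) - φ) g).trans h5.le

variable [MeasurableSpace G] [BorelSpace G] {μ : Measure G} [IsProbabilityMeasure μ]
  [μ.IsHaarMeasure] [MeasurableSpace G'] [BorelSpace G'] {μ' : Measure G'}
  [IsProbabilityMeasure μ'] [μ'.IsHaarMeasure]

/-- the average over the conjugates -/
noncomputable def cav2 (μ : Measure G) (μ' : Measure G') (f : G × G' → ℂ) (p : G × G') : ℂ :=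
  ∫ h, ∫ h', f (h⁻¹ * p.1 * h, h'⁻¹ * p.2 * h') ∂μ' ∂μ

theorem cav2_coef {f : G × G' → ℂ} {J : Type} [Fintype J] {φ : J → G → ℂ} {ψ : J → G' → ℂ}
    (h1 : ∀ j, Coef (φ j)) (h2 : ∀ j, Coef (ψ j)) (h3 : ∀ p, f p = ∑ j, φ j p.1 * ψ j p.2)
    (p : G × G') : cav2 μ μ' f p = ∑ j, cav μ (φ j) p.1 * cav μ' (ψ j) p.2 := by
  have hc1 : ∀ j, Continuous fun k => φ j (k⁻¹ * p.1 * k) := fun j =>
    (coef_cont (h1 j)).comp ((continuous_inv.mul continuous_const).mul continuous_id)
  have hc2 : ∀ j, Continuous fun k => ψ j (k⁻¹ * p.2 * k) := fun j =>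
    (coef_cont (h2 j)).comp ((continuous_inv.mul continuous_const).mul continuous_id)
  unfold cav2
  have e1 : ∀ h, ∫ h', f (h⁻¹ * p.1 * h, h'⁻¹ * p.2 * h') ∂μ' =
      ∑ j, φ j (h⁻¹ * p.1 * h) * cav μ' (ψ j) p.2 := by
    intro h
    simp only [h3]
    rw [integral_finsetSum _ fun j _ => (intg (hc2 j)).const_mul _]
    exact Finset.sum_congr rfl fun j _ => integral_const_mul _ _
  simp only [e1]
  rw [integral_finsetSum _ fun j _ => (intg (hc1 j)).mul_const _]
  exact Finset.sum_congr rfl fun j _ => integral_mul_const _ _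

/-- **Products of irreducible characters span a dense space of class functions.** -/
theorem class_dense2 {f : G × G' → ℂ} (hf : Continuous f)
    (hcl : ∀ g g' k k', f (k * g * k⁻¹, k' * g' * k'⁻¹) = f (g, g')) {ε : ℝ} (hε : 0 < ε) :
    ∃ (k : ℕ) (m m' : Fin k → ℕ)
      (ρ : ∀ i, G →* Matrix.unitaryGroup (Fin (m i)) ℂ)
      (ρ' : ∀ i, G' →* Matrix.unitaryGroup (Fin (m' i)) ℂ) (a : Fin k → ℂ),
      (∀ i, Continuous (ρ i) ∧ Schur (ρ i)) ∧ (∀ i, Continuous (ρ' i) ∧ Schur (ρ' i)) ∧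
      ∀ g g', ‖f (g, g') - ∑ i, a i * (chi (ρ i) g * chi (ρ' i) g')‖ ≤ ε := by
  obtain ⟨φ₀, h1, h2⟩ := coef2_dense hf hε
  let _ : MeasurableSpace G := borel G
  have _ : BorelSpace G := ⟨rfl⟩
  let _ : MeasurableSpace G' := borel G'
  have _ : BorelSpace G' := ⟨rfl⟩
  set ν : Measure G := Measure.haarMeasure ⊤ with hν
  have hν1 : IsProbabilityMeasure ν := ⟨by
    rw [hν]
    exact Measure.haarMeasure_self⟩
  set ν' : Measure G' := Measure.haarMeasure ⊤ with hν'
  have hν1' : IsProbabilityMeasure ν' := ⟨by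
    rw [hν']
    exact Measure.haarMeasure_self⟩
  have hc0 := coef2_cont h1
  obtain ⟨J, _, φ, ψ, h3, h4, h5⟩ := h1
  have h6 := fun p => cav2_coef (μ := ν) (μ' := ν') h3 h4 h5 p
  choose J1 i1 m1 ρ1 a1 p1 q1 using fun j => dec_cav (μ := ν) (h3 j)
  choose J2 i2 m2 ρ2 a2 p2 q2 using fun j => dec_cav (μ := ν') (h4 j)
  have key : ∀ g g', ‖f (g, g') - ∑ i : (Σ j, J1 j × J2 j),
      (a1 i.1 i.2.1 * a2 i.1 i.2.2) * (chi (ρ1 i.1 i.2.1) g * chi (ρ2 i.1 i.2.2) g')‖ ≤ ε := by
    intro g g'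
    have e1 : ∑ i : (Σ j, J1 j × J2 j),
        (a1 i.1 i.2.1 * a2 i.1 i.2.2) * (chi (ρ1 i.1 i.2.1) g * chi (ρ2 i.1 i.2.2) g') =
        cav2 ν ν' φ₀ (g, g') := by
      rw [h6, Fintype.sum_sigma]
      refine Finset.sum_congr rfl fun j _ => ?_
      simp only
      rw [q1, q2, Fintype.sum_prod_type, Finset.sum_mul_sum]
      exact Finset.sum_congr rfl fun i _ => Finset.sum_congr rfl fun l _ => by ring
    rw [e1]
    have hin : ∀ F : G × G' → ℂ, Continuous F → Continuous fun q : G × G' =>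
        F (q.1⁻¹ * g * q.1, q.2⁻¹ * g' * q.2) := fun F hF =>
      hF.comp ((((continuous_inv.mul continuous_const).mul continuous_id).comp
        continuous_fst).prodMk (((continuous_inv.mul continuous_const).mul continuous_id).comp
        continuous_snd))
    have hi1 : ∀ F : G × G' → ℂ, Continuous F → ∀ h, Continuous fun h' : G' =>
        F (h⁻¹ * g * h, h'⁻¹ * g' * h') := fun F hF h =>
      (hin F hF).comp (continuous_const.prodMk continuous_id)
    have h7 : ∀ h h', f (h⁻¹ * g * h, h'⁻¹ * g' * h') = f (g, g') := by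
      intro h h'
      have := hcl g g' h⁻¹ h'⁻¹
      rwa [inv_inv, inv_inv] at this
    have hi2 : Continuous fun h => ∫ h', f (h⁻¹ * g * h, h'⁻¹ * g' * h') ∂ν' := by
      simp only [h7]
      exact continuous_const
    have hc1 : ∀ j, Continuous fun k => φ j (k⁻¹ * g * k) := fun j =>
      (coef_cont (h3 j)).comp ((continuous_inv.mul continuous_const).mul continuous_id)
    have hc2 : ∀ j, Continuous fun k => ψ j (k⁻¹ * g' * k) := fun j =>
      (coef_cont (h4 j)).comp ((continuous_inv.mul continuous_const).mul continuous_id)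
    have hi3 : Continuous fun h => ∫ h', φ₀ (h⁻¹ * g * h, h'⁻¹ * g' * h') ∂ν' := by
      have e3 : ∀ h, ∫ h', φ₀ (h⁻¹ * g * h, h'⁻¹ * g' * h') ∂ν' =
          ∑ j, φ j (h⁻¹ * g * h) * cav ν' (ψ j) g' := by
        intro h
        simp only [h5]
        rw [integral_finsetSum _ fun j _ => (intg (hc2 j)).const_mul _]
        exact Finset.sum_congr rfl fun j _ => integral_const_mul _ _
      simp only [e3]
      exact continuous_finsetSum _ fun j _ => (hc1 j).mul continuous_const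
    have e2 : f (g, g') = cav2 ν ν' f (g, g') := by
      unfold cav2
      simp only [h7]
      simp
    rw [e2]
    unfold cav2
    rw [← integral_sub (intg hi2) (intg hi3)]
    refine (norm_integral_le_integral_norm _).trans ?_
    have h8 : ∀ h, ‖(∫ h', f (h⁻¹ * g * h, h'⁻¹ * g' * h') ∂ν') -
        ∫ h', φ₀ (h⁻¹ * g * h, h'⁻¹ * g' * h') ∂ν'‖ ≤ ε := by
      intro h
      rw [← integral_sub (intg (hi1 f hf h)) (intg (hi1 φ₀ hc0 h))]
      refine (norm_integral_le_integral_norm _).trans ?_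
      have h9 : ∫ h', ‖f (h⁻¹ * g * h, h'⁻¹ * g' * h') -
          φ₀ (h⁻¹ * g * h, h'⁻¹ * g' * h')‖ ∂ν' ≤ ∫ _, ε ∂ν' := by
        refine integral_mono ((intg (hi1 f hf h)).sub (intg (hi1 φ₀ hc0 h))).norm
          (integrable_const _) fun k => h2 _
      simpa using h9
    have h9 : ∫ h, ‖(∫ h', f (h⁻¹ * g * h, h'⁻¹ * g' * h') ∂ν') -
        ∫ h', φ₀ (h⁻¹ * g * h, h'⁻¹ * g' * h') ∂ν'‖ ∂ν ≤ ∫ _, ε ∂ν := by
      refine integral_mono ((intg hi2).sub (intg hi3)).norm
        (integrable_const _) fun k => h8 k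
    simpa using h9
  set e := (Fintype.equivFin (Σ j, J1 j × J2 j)).symm with he
  refine ⟨Fintype.card (Σ j, J1 j × J2 j), fun i => m1 (e i).1 (e i).2.1,
    fun i => m2 (e i).1 (e i).2.2, fun i => ρ1 (e i).1 (e i).2.1, fun i => ρ2 (e i).1 (e i).2.2,
    fun i => a1 (e i).1 (e i).2.1 * a2 (e i).1 (e i).2.2, fun i => p1 _ _, fun i => p2 _ _,
    fun g g' => ?_⟩
  rw [Fintype.sum_equiv e (fun i => (a1 (e i).1 (e i).2.1 * a2 (e i).1 (e i).2.2) *
    (chi (ρ1 (e i).1 (e i).2.1) g * chi (ρ2 (e i).1 (e i).2.2) g'))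
    (fun i => (a1 i.1 i.2.1 * a2 i.1 i.2.2) * (chi (ρ1 i.1 i.2.1) g * chi (ρ2 i.1 i.2.2) g'))
    fun i => rfl]
  exact key g g'

end

section

variable {F : Type} [Field F] [NumberField F] {G : Type} [Group G] [TopologicalSpace G]
  [IsTopologicalGroup G] [CompactSpace G]
  [T2Space G] [MeasurableSpace G] [BorelSpace G] {μ : Measure G} [IsProbabilityMeasure μ]
  [μ.IsHaarMeasure] {y : HeightOneSpectrum (𝓞 F) → G}

/-- **Weyl's criterion.** -/
theorem weyl (h : ∀ (n : ℕ) (π : G →* Matrix.unitaryGroup (Fin n) ℂ), Continuous π → Schur π →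
    (∃ g, π g ≠ 1) → Tendsto (mn fun v => chi π (y v)) atTop (𝓝 0)) {f : G → ℂ}
    (hf : Continuous f) (hcl : ∀ g k, f (k * g * k⁻¹) = f g) :
    Tendsto (mn fun v => f (y v)) atTop (𝓝 (∫ g, f g ∂μ)) := by
  refine mn_unif fun ε hε => ?_
  obtain ⟨Fn, h1, h2⟩ := class_dense hf hcl hε
  obtain ⟨J, _, m, ρ, a, h3, h4⟩ := h1
  have hFc : Continuous Fn := by
    have : Fn = fun g => ∑ j, a j * chi (ρ j) g := funext h4
    rw [this]
    exact continuous_finsetSum _ fun j _ => continuous_const.mul (cont_chi (h3 j).1)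
  refine ⟨fun v => Fn (y v), ∫ g, Fn g ∂μ, fun v => h2 _, ?_, ?_⟩
  · rw [← integral_sub (intg hFc) (intg hf)]
    refine (norm_integral_le_integral_norm _).trans ?_
    have h5 : ∫ g, ‖Fn g - f g‖ ∂μ ≤ ∫ _, ε ∂μ := by
      refine integral_mono ((intg hFc).sub (intg hf)).norm (integrable_const _) fun g => ?_
      simp only
      rw [norm_sub_rev]
      exact h2 g
    simpa using h5
  · have h5 : ∫ g, Fn g ∂μ = ∑ j, a j * ∫ g, chi (ρ j) g ∂μ := by
      simp only [h4]
      rw [integral_finsetSum _ fun j _ => (intg (cont_chi (h3 j).1)).const_mul _]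
      exact Finset.sum_congr rfl fun j _ => integral_const_mul _ _
    have h6 : ∀ j, Tendsto (mn fun v => chi (ρ j) (y v)) atTop (𝓝 (∫ g, chi (ρ j) g ∂μ)) := by
      intro j
      by_cases hn : ∃ g, ρ j g ≠ 1
      · rw [int_chi (h3 j).1 (h3 j).2 hn]
        exact h _ (ρ j) (h3 j).1 (h3 j).2 hn
      · push Not at hn
        simp only [chi_triv hn]
        have h7 : ∫ _ : G, (m j : ℂ) ∂μ = m j := by simp
        rw [h7]
        have h8 : Tendsto (fun N : ℕ => ((m j : ℂ))) atTop (𝓝 (m j : ℂ)) := tendsto_const_nhds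
        refine h8.congr' ?_
        filter_upwards [card_ev (K := F)] with N hN
        unfold mn
        rw [Finset.sum_const, Complex.real_smul, nsmul_eq_mul]
        push_cast
        have hN' : ((upto F N).card : ℂ) ≠ 0 := by exact_mod_cast hN
        field_simp
    rw [h5]
    have h7 : Tendsto (fun N => ∑ j, a j * mn (fun v => chi (ρ j) (y v)) N) atTop
        (𝓝 (∑ j, a j * ∫ g, chi (ρ j) g ∂μ)) :=
      tendsto_finsetSum _ fun j _ => (h6 j).const_mul _
    refine h7.congr fun N => ?_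
    have e : (fun v => Fn (y v)) = fun v => ∑ j, a j * chi (ρ j) (y v) := funext fun v => h4 _
    rw [e, mn_sum]
    exact Finset.sum_congr rfl fun j _ => (mn_mul _ _ _).symm

end

end Pool.Agent.TH553.ST
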