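import Pool.Agent.TH553.ST.Dec2
import Pool.Agent.Helper472.Lat_PW

set_option autoImplicit false
set_option linter.unusedSectionVars false

/-!
# The theorem of Peter and Weyl for class functions
-/

namespace Pool.Agent.TH553.ST

open Complex Filter Topology ComplexConjugate MeasureTheory
open scoped Matrix ComplexOrder Kronecker

section

variable {G : Type} [Group G] [TopologicalSpace G]

/-- matrix coefficients -/
def Coef (f : G → ℂ) : Prop := ∃ (ι : Type) (_ : Fintype ι) (_ : DecidableEq ι)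
  (π : G →* Matrix.unitaryGroup ι ℂ) (A : Matrix ι ι ℂ), Continuous π ∧
    ∀ g, f g = (A * (π g : Matrix ι ι ℂ)).trace

/-- the direct sum -/
noncomputable def ds {ι ι' : Type} [Fintype ι] [DecidableEq ι] [Fintype ι'] [DecidableEq ι']
    (π : G →* Matrix.unitaryGroup ι ℂ) (π' : G →* Matrix.unitaryGroup ι' ℂ) :
    G →* Matrix.unitaryGroup (ι ⊕ ι') ℂ where
  toFun g := ⟨Matrix.fromBlocks (π g : Matrix ι ι ℂ) 0 0 (π' g : Matrix ι' ι' ℂ), by
    rw [Matrix.mem_unitaryGroup_iff, Matrix.star_eq_conjTranspose, Matrix.fromBlocks_conjTranspose,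
      Matrix.fromBlocks_multiply]
    simp only [Matrix.conjTranspose_zero, Matrix.mul_zero, Matrix.zero_mul, add_zero, zero_add]
    rw [pi_starG', pi_starG', Matrix.fromBlocks_one]⟩
  map_one' := by
    apply Subtype.ext
    change Matrix.fromBlocks ((π 1 : Matrix.unitaryGroup ι ℂ) : Matrix ι ι ℂ) 0 0
      ((π' 1 : Matrix.unitaryGroup ι' ℂ) : Matrix ι' ι' ℂ) = 1
    rw [map_one, map_one]
    exact Matrix.fromBlocks_one
  map_mul' g h := by
    apply Subtype.ext
    change Matrix.fromBlocks ((π (g * h) : Matrix.unitaryGroup ι ℂ) : Matrix ι ι ℂ) 0 0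
      ((π' (g * h) : Matrix.unitaryGroup ι' ℂ) : Matrix ι' ι' ℂ) =
      Matrix.fromBlocks (π g : Matrix ι ι ℂ) 0 0 (π' g : Matrix ι' ι' ℂ) *
      Matrix.fromBlocks (π h : Matrix ι ι ℂ) 0 0 (π' h : Matrix ι' ι' ℂ)
    rw [Matrix.fromBlocks_multiply, pi_mulG, pi_mulG]
    simp

theorem Coef.add {f f' : G → ℂ} (h : Coef f) (h' : Coef f') : Coef fun g => f g + f' g := by
  obtain ⟨ι, _, _, π, A, hc, h1⟩ := h
  obtain ⟨ι', _, _, π', A', hc', h1'⟩ := h'
  refine ⟨ι ⊕ ι', inferInstance, inferInstance, ds π π', Matrix.fromBlocks A 0 0 A', ?_,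
    fun g => ?_⟩
  · refine Continuous.subtype_mk ?_ _
    exact (continuous_subtype_val.comp hc).matrix_fromBlocks continuous_const continuous_const
      (continuous_subtype_val.comp hc')
  · change _ = (Matrix.fromBlocks A 0 0 A' *
      Matrix.fromBlocks (π g : Matrix ι ι ℂ) 0 0 (π' g : Matrix ι' ι' ℂ)).trace
    rw [Matrix.fromBlocks_multiply]
    simp only [Matrix.mul_zero, Matrix.zero_mul, add_zero, zero_add]
    unfold Matrix.trace
    rw [Fintype.sum_sum_type]
    exact congrArg₂ (· + ·) (h1 g) (h1' g)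

/-- the tensor product -/
noncomputable def tp {ι ι' : Type} [Fintype ι] [DecidableEq ι] [Fintype ι'] [DecidableEq ι']
    (π : G →* Matrix.unitaryGroup ι ℂ) (π' : G →* Matrix.unitaryGroup ι' ℂ) :
    G →* Matrix.unitaryGroup (ι × ι') ℂ where
  toFun g := ⟨(π g : Matrix ι ι ℂ) ⊗ₖ (π' g : Matrix ι' ι' ℂ),
    Matrix.kronecker_mem_unitary (π g).2 (π' g).2⟩
  map_one' := by
    apply Subtype.ext
    change ((π 1 : Matrix.unitaryGroup ι ℂ) : Matrix ι ι ℂ) ⊗ₖ
      ((π' 1 : Matrix.unitaryGroup ι' ℂ) : Matrix ι' ι' ℂ) = 1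
    rw [map_one, map_one]
    exact Matrix.one_kronecker_one
  map_mul' g h := by
    apply Subtype.ext
    change ((π (g * h) : Matrix.unitaryGroup ι ℂ) : Matrix ι ι ℂ) ⊗ₖ
      ((π' (g * h) : Matrix.unitaryGroup ι' ℂ) : Matrix ι' ι' ℂ) =
      ((π g : Matrix ι ι ℂ) ⊗ₖ (π' g : Matrix ι' ι' ℂ)) *
      ((π h : Matrix ι ι ℂ) ⊗ₖ (π' h : Matrix ι' ι' ℂ))
    rw [pi_mulG, pi_mulG, Matrix.mul_kronecker_mul]

theorem Coef.mul {f f' : G → ℂ} (h : Coef f) (h' : Coef f') : Coef fun g => f g * f' g := by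
  obtain ⟨ι, _, _, π, A, hc, h1⟩ := h
  obtain ⟨ι', _, _, π', A', hc', h1'⟩ := h'
  refine ⟨ι × ι', inferInstance, inferInstance, tp π π', A ⊗ₖ A', ?_, fun g => ?_⟩
  · refine Continuous.subtype_mk ?_ _
    refine continuous_matrix fun i j => ?_
    exact ((continuous_subtype_val.comp hc).matrix_elem i.1 j.1).mul
      ((continuous_subtype_val.comp hc').matrix_elem i.2 j.2)
  · change _ = ((A ⊗ₖ A') * ((π g : Matrix ι ι ℂ) ⊗ₖ (π' g : Matrix ι' ι' ℂ))).trace
    rw [← Matrix.mul_kronecker_mul, Matrix.trace_kronecker]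
    exact congrArg₂ (· * ·) (h1 g) (h1' g)

theorem Coef.const (c : ℂ) : Coef fun _ : G => c := by
  refine ⟨Unit, inferInstance, inferInstance, 1, c • 1, continuous_const, fun g => ?_⟩
  rw [Matrix.smul_mul, Matrix.one_mul, Matrix.trace_smul]
  change c = c • (1 : Matrix Unit Unit ℂ).trace
  simp

theorem Coef.conj {f : G → ℂ} (h : Coef f) : Coef fun g => conj (f g) := by
  obtain ⟨ι, _, _, π, A, hc, h1⟩ := h
  set n := Fintype.card ι with hn
  set e := Fintype.equivFin ι with he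
  refine ⟨Fin n, inferInstance, inferInstance, cj (ri e π), (A.submatrix e.symm e.symm).map conj,
    ?_, fun g => ?_⟩
  · refine Continuous.subtype_mk ?_ _
    exact (continuous_subtype_val.comp (cont_ri e hc)).matrix_map Complex.continuous_conj
  · rw [cj_val, ri_val, ← Matrix.map_mul, Matrix.submatrix_mul_equiv]
    have h2 : f g = ((A * (π g : Matrix ι ι ℂ)).submatrix e.symm e.symm).trace := by
      rw [h1]
      exact (Fintype.sum_equiv e.symm _ _ fun _ => rfl).symm
    change conj (f g) = _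
    rw [h2]
    unfold Matrix.trace
    rw [map_sum]
    rfl

/-- the algebra of the matrix coefficients -/
noncomputable def coefAlg (G : Type) [Group G] [TopologicalSpace G] :
    StarSubalgebra ℂ C(G, ℂ) where
  carrier := {f | Coef f}
  mul_mem' := fun {f f'} (h : Coef f) (h' : Coef f') => show Coef _ from h.mul h'
  one_mem' := show Coef _ from Coef.const 1
  add_mem' := fun {f f'} (h : Coef f) (h' : Coef f') => show Coef _ from h.add h'
  zero_mem' := show Coef _ from Coef.const 0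
  algebraMap_mem' := fun c => show Coef _ from Coef.const c
  star_mem' := fun {f} (h : Coef f) => show Coef _ from h.conj

theorem coef_cont {f : G → ℂ} (h : Coef f) : Continuous f := by
  obtain ⟨ι, _, _, π, A, hc, h1⟩ := h
  have : f = fun g => (A * (π g : Matrix ι ι ℂ)).trace := funext h1
  rw [this]
  exact (continuous_const.matrix_mul (continuous_subtype_val.comp hc)).matrix_trace

end

section

variable {G : Type} [Group G] [TopologicalSpace G] [IsTopologicalGroup G] [CompactSpace G]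

theorem coef_sep [T2Space G] {g h : G} (hgh : g ≠ h) : ∃ f : G → ℂ, Coef f ∧ f g ≠ f h := by
  have hk : g⁻¹ * h ≠ 1 := by
    intro h1
    exact hgh (inv_mul_eq_one.1 h1)
  obtain ⟨ι, _, _, ρ, hc, hρ⟩ := Pool.LatH472.PW G (g⁻¹ * h) hk
  have h1 : ρ g ≠ ρ h := by
    intro h2
    apply hρ
    rw [map_mul, map_inv, h2, inv_mul_cancel]
  have h2 : ∃ i j, (ρ g : Matrix ι ι ℂ) i j ≠ (ρ h : Matrix ι ι ℂ) i j := by
    by_contra hcon
    push Not at hcon
    exact h1 (Subtype.ext (by ext i j; exact hcon i j))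
  obtain ⟨i, j, hij⟩ := h2
  have h3 : ∀ M : Matrix ι ι ℂ, (Matrix.single j i 1 * M).trace = M i j := by
    intro M
    rw [Matrix.trace_mul_comm, Matrix.trace_mul_single]
    simp
  refine ⟨fun g => (Matrix.single j i 1 * (ρ g : Matrix ι ι ℂ)).trace,
    ⟨ι, inferInstance, inferInstance, ρ, _, hc, fun g => rfl⟩, ?_⟩
  simp only [h3]
  exact hij

theorem coef_dense [T2Space G] {f : G → ℂ} (hf : Continuous f) {ε : ℝ} (hε : 0 < ε) :
    ∃ φ : G → ℂ, Coef φ ∧ ∀ g, ‖f g - φ g‖ ≤ ε := by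
  have h1 : (coefAlg G).topologicalClosure = ⊤ := by
    refine ContinuousMap.starSubalgebra_topologicalClosure_eq_top_of_separatesPoints _ ?_
    intro g h hgh
    obtain ⟨φ, h2, h3⟩ := coef_sep hgh
    exact ⟨φ, ⟨⟨φ, coef_cont h2⟩, h2, rfl⟩, h3⟩
  have h2 : (⟨f, hf⟩ : C(G, ℂ)) ∈ (coefAlg G).topologicalClosure := by
    rw [h1]
    exact StarSubalgebra.mem_top
  have h3 : (⟨f, hf⟩ : C(G, ℂ)) ∈ closure ((coefAlg G : StarSubalgebra ℂ C(G, ℂ)) :
      Set C(G, ℂ)) := h2
  obtain ⟨φ, h4, h5⟩ := Metric.mem_closure_iff.1 h3 ε hε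
  refine ⟨φ, h4, fun g => ?_⟩
  rw [dist_eq_norm] at h5
  exact (ContinuousMap.norm_coe_le_norm ((⟨f, hf⟩ : C(G, ℂ)) - φ) g).trans h5.le

variable [MeasurableSpace G] [BorelSpace G] {μ : Measure G} [IsProbabilityMeasure μ]
  [μ.IsHaarMeasure]

/-- the average over the conjugates -/
noncomputable def cav (μ : Measure G) (f : G → ℂ) (g : G) : ℂ := ∫ h, f (h⁻¹ * g * h) ∂μ

/-- the averages of matrix coefficients are combinations of characters -/
theorem dec_cav {φ : G → ℂ} (h : Coef φ) : Dec (cav μ φ) := by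
  obtain ⟨ι, _, _, π₀, A₀, hc₀, h1⟩ := h
  set n := Fintype.card ι with hn
  set e := Fintype.equivFin ι with he
  set π := ri e π₀ with hπ
  set A := A₀.submatrix e.symm e.symm with hA
  have hc : Continuous π := cont_ri e hc₀
  have h2 : ∀ g, φ g = (A * (π g : Matrix (Fin n) (Fin n) ℂ)).trace := by
    intro g
    rw [h1, hA, hπ, ri_val, Matrix.submatrix_mul_equiv]
    exact (Fintype.sum_equiv e.symm _ _ fun _ => rfl).symm
  have h3 := dec_of_comm (Fintype.card (Fin n) + 1) (Fin n) (Nat.lt_succ_self _) π hc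
    (mi μ (av π A)) fun g => comm_av hc A g
  have e1 : (fun g => (mi μ (av π A) * (π g : Matrix (Fin n) (Fin n) ℂ)).trace) = cav μ φ := by
    funext g
    rw [← mi_mul' (cont_av hc A), mi_trace ((cont_av hc A).matrix_mul continuous_const)]
    unfold cav
    congr 1
    funext h
    rw [h2]
    unfold av
    rw [Matrix.mul_assoc, Matrix.mul_assoc, Matrix.trace_mul_comm, Matrix.mul_assoc, pi_mul,
      pi_mul, pi_invG, Matrix.mul_assoc]
  rw [e1] at h3
  exact h3

theorem cav_class {f : G → ℂ} (h : ∀ g k, f (k * g * k⁻¹) = f g) (g : G) : cav μ f g = f g := by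
  unfold cav
  have h1 : ∀ k, f (k⁻¹ * g * k) = f g := by
    intro k
    have := h g k⁻¹
    rwa [inv_inv] at this
  simp only [h1]
  simp

/-- **The irreducible characters span a dense space of class functions.** -/
theorem class_dense [T2Space G] {f : G → ℂ} (hf : Continuous f)
    (hcl : ∀ g k, f (k * g * k⁻¹) = f g) {ε : ℝ} (hε : 0 < ε) :
    ∃ F : G → ℂ, Dec F ∧ ∀ g, ‖f g - F g‖ ≤ ε := by
  obtain ⟨φ, h1, h2⟩ := coef_dense hf hε
  let _ : MeasurableSpace G := borel G
  have _ : BorelSpace G := ⟨rfl⟩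
  set ν : Measure G := Measure.haarMeasure ⊤ with hν
  have hν1 : IsProbabilityMeasure ν := ⟨by
    rw [hν]
    exact Measure.haarMeasure_self⟩
  refine ⟨cav ν φ, dec_cav h1, fun g => ?_⟩
  rw [← cav_class (μ := ν) hcl g]
  unfold cav
  have hcc : ∀ ψ : G → ℂ, Continuous ψ → Continuous fun k => ψ (k⁻¹ * g * k) := fun ψ hψ =>
    hψ.comp ((continuous_inv.mul continuous_const).mul continuous_id)
  rw [← integral_sub (intg (hcc f hf)) (intg (hcc φ (coef_cont h1)))]
  refine (norm_integral_le_integral_norm _).trans ?_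
  have h3 : ∫ k, ‖f (k⁻¹ * g * k) - φ (k⁻¹ * g * k)‖ ∂ν ≤ ∫ _, ε ∂ν := by
    refine integral_mono ((intg (hcc f hf)).sub (intg (hcc φ (coef_cont h1)))).norm
      (integrable_const _) fun k => h2 _
  simpa using h3

end

end Pool.Agent.TH553.ST
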