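import Pool.Agent.TH553.ST.Edge
import Pool.Agent.TH553.RS.Artin

set_option autoImplicit false

/-!
# From natural density to the means
-/

namespace Pool.Agent.TH553.ST

open Complex Filter Topology ComplexConjugate Pool.Agent.H341R2 NumberField IsDedekindDomain
  Pool.Agent.W401.Cheb Pool.Agent.W540.BE Pool.Agent.TH553.RS

section

variable {K : Type} [Field K] [NumberField K]

/-- the average over the primes of norm at most `N` -/
noncomputable def mn {E : Type*} [AddCommGroup E] [Module ℝ E]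
    (g : HeightOneSpectrum (𝓞 K) → E) (N : ℕ) : E :=
  ((upto K N).card : ℝ)⁻¹ • ∑ v ∈ upto K N, g v

theorem card_ratio : Tendsto (fun n : ℕ => ((upto K n).card : ℝ) / (Nat.primeCounting n : ℝ)) atTop
    (𝓝 1) := by
  have hU : IsOpen ((⊤ : Subgroup (GK K)) : Set (GK K)) := isOpen_univ
  haveI : Finite (GK K ⧸ (⊤ : Subgroup (GK K))) := by
    haveI : Subsingleton (GK K ⧸ (⊤ : Subgroup (GK K))) := QuotientGroup.subsingleton_quotient_top
    infer_instance
  choose σ hσ using exists_isFrob (F := K)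
  have h1 := cheb_mean (F := K) ⊤ hU (fun _ => 1) (fun _ _ => rfl) σ hσ
  have h2 : (Nat.card (GK K ⧸ (⊤ : Subgroup (GK K))) : ℂ)⁻¹ *
      ∑ᶠ _ : GK K ⧸ (⊤ : Subgroup (GK K)), (1 : ℂ) = ((1 : ℝ) : ℂ) := by
    classical
    letI : Fintype (GK K ⧸ (⊤ : Subgroup (GK K))) := Fintype.ofFinite _
    have hne : (Nat.card (GK K ⧸ (⊤ : Subgroup (GK K))) : ℂ) ≠ 0 := by
      have : Nat.card (GK K ⧸ (⊤ : Subgroup (GK K))) ≠ 0 := Nat.card_pos.ne'
      exact_mod_cast this
    rw [finsum_eq_sum_of_fintype, Finset.sum_const, Finset.card_univ, nsmul_eq_mul, mul_one,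
      ← Nat.card_eq_fintype_card, inv_mul_cancel₀ hne]
    simp
  rw [h2] at h1
  have h3 : Tendsto (fun n : ℕ => (((((upto K n).card : ℝ) / (Nat.primeCounting n : ℝ)) : ℝ) : ℂ))
      atTop (𝓝 ((1 : ℝ) : ℂ)) := by
    refine h1.congr fun n => ?_
    push_cast
    simp
  exact_mod_cast (Complex.continuous_re.tendsto _).comp h3

theorem card_ev : ∀ᶠ n : ℕ in atTop, ((upto K n).card : ℝ) ≠ 0 := by
  filter_upwards [(card_ratio (K := K)).eventually_ne one_ne_zero] with n hn h
  rw [h, zero_div] at hn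
  exact hn rfl

/-- the average with the other normalisation -/
theorem mn_tendsto {g : HeightOneSpectrum (𝓞 K) → ℂ} {c : ℂ} (h : Tendsto (mn g) atTop (𝓝 c)) :
    Tendsto (fun n : ℕ => (∑ v ∈ upto K n, g v) / (Nat.primeCounting n : ℂ)) atTop (𝓝 c) := by
  have h1 : Tendsto (fun n : ℕ => (((((upto K n).card : ℝ) / (Nat.primeCounting n : ℝ)) : ℝ) : ℂ))
      atTop (𝓝 ((1 : ℝ) : ℂ)) := (Complex.continuous_ofReal.tendsto _).comp card_ratio
  have h2 := h1.mul h
  rw [Complex.ofReal_one, one_mul] at h2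
  refine h2.congr' ?_
  filter_upwards [card_ev (K := K)] with n hn
  unfold mn
  rw [Complex.real_smul]
  push_cast
  have hn' : ((upto K n).card : ℂ) ≠ 0 := by exact_mod_cast hn
  field_simp

/-- the averages of bounded functions, the other direction -/
theorem mn_of_pi {g : HeightOneSpectrum (𝓞 K) → ℂ} {c : ℂ}
    (h : Tendsto (fun n : ℕ => (∑ v ∈ upto K n, g v) / (Nat.primeCounting n : ℂ)) atTop (𝓝 c)) :
    Tendsto (mn g) atTop (𝓝 c) := by
  have h1 : Tendsto (fun n : ℕ => (((((upto K n).card : ℝ) / (Nat.primeCounting n : ℝ)) : ℝ) : ℂ))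
      atTop (𝓝 ((1 : ℝ) : ℂ)) := (Complex.continuous_ofReal.tendsto _).comp card_ratio
  have h2 := h.div h1 (by simp)
  rw [Complex.ofReal_one, div_one] at h2
  refine h2.congr' ?_
  filter_upwards [card_ev (K := K), eventually_ge_atTop 2] with n hn h2
  unfold mn
  simp only [Pi.div_apply]
  rw [Complex.real_smul]
  push_cast
  have hn' : ((upto K n).card : ℂ) ≠ 0 := by exact_mod_cast hn
  have hp : (Nat.primeCounting n : ℂ) ≠ 0 := by
    have : Nat.primeCounting n ≠ 0 := by
      rw [Ne, Nat.primeCounting_eq_zero_iff]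
      omega
    exact_mod_cast this
  field_simp

theorem re_mn (g : HeightOneSpectrum (𝓞 K) → ℂ) (n : ℕ) :
    (mn g n).re = mn (fun v => (g v).re) n := by
  unfold mn
  rw [Complex.real_smul, Complex.re_ofReal_mul, Complex.re_sum, smul_eq_mul]

theorem im_mn (g : HeightOneSpectrum (𝓞 K) → ℂ) (n : ℕ) :
    (mn g n).im = mn (fun v => (g v).im) n := by
  unfold mn
  rw [Complex.real_smul, Complex.im_ofReal_mul, Complex.im_sum, smul_eq_mul]

theorem ofReal_mn (g : HeightOneSpectrum (𝓞 K) → ℝ) (n : ℕ) :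
    ((mn g n : ℝ) : ℂ) = mn (fun v => (g v : ℂ)) n := by
  unfold mn
  rw [Complex.real_smul, smul_eq_mul]
  push_cast
  rfl

variable {U : Ultrafilter ℝ} (hU : (U : Filter ℝ) ≤ 𝓝[>] 0)

include hU

/-- the mean value of a function with an average -/
theorem M_of_mn {g : HeightOneSpectrum (𝓞 K) → ℝ} (hg : Bd g) {c : ℝ}
    (h : Tendsto (mn g) atTop (𝓝 c)) : M (nm K) U g = c := by
  obtain ⟨B, hB⟩ := hg
  have h1 : Tendsto (mn fun v => (g v : ℂ)) atTop (𝓝 (c : ℂ)) := by
    have h2 := (Complex.continuous_ofReal.tendsto c).comp h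
    exact h2.congr fun n => ofReal_mn g n
  have h3 := mean_edge (g := fun v => (g v : ℂ)) (B := B)
    (fun v => by rw [Complex.norm_real]; exact hB v) c (mn_tendsto h1) 0
  rw [if_pos rfl] at h3
  refine M_of_tendsto hU (h3.congr fun ε => ?_)
  unfold qt
  congr 2
  funext v
  simp

/-- the mean value of a function with average zero, with a height -/
theorem M_height {g : HeightOneSpectrum (𝓞 K) → ℂ} (hg : Bc g)
    (h : Tendsto (mn g) atTop (𝓝 0)) (τ : ℝ) :
    (M (nm K) U fun v => (g v * ((nm K v : ℕ) : ℂ) ^ (-(τ * I))).re) = 0 := by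
  obtain ⟨B, hB⟩ := hg
  have h3 := mean_edge (g := g) (B := B) hB 0 (by
    have := mn_tendsto h
    simpa using this) τ
  refine M_of_tendsto hU ?_
  have h4 : (if τ = 0 then (0 : ℝ) else 0) = 0 := by split_ifs <;> rfl
  rw [h4] at h3
  exact h3

end

end Pool.Agent.TH553.ST
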