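import Pool.Agent.TH553.RS.Bessel

set_option autoImplicit false

/-!
# The equality case for complex functions
-/

namespace Pool.Agent.TH553.ST

open Complex Filter Topology ComplexConjugate Pool.Agent.H341R2 Pool.Agent.W540.BE
  Pool.Agent.TH553.RS

variable {P : Type*} {N : P → ℕ}

/-- bounded complex functions -/
def Bc (t : P → ℂ) : Prop := ∃ C : ℝ, ∀ p, ‖t p‖ ≤ C

theorem Bc.re {t : P → ℂ} (h : Bc t) : Bd fun p => (t p).re := by
  obtain ⟨C, hC⟩ := h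
  exact ⟨C, fun p => (Complex.abs_re_le_norm _).trans (hC p)⟩

theorem Bc.norm {t : P → ℂ} (h : Bc t) : Bd fun p => ‖t p‖ := by
  obtain ⟨C, hC⟩ := h
  exact ⟨C, fun p => by rw [abs_norm]; exact hC p⟩

theorem Bc.mul {t c : P → ℂ} (h : Bc t) (h' : Bc c) : Bc fun p => t p * c p := by
  obtain ⟨C, hC⟩ := h
  obtain ⟨C', hC'⟩ := h'
  refine ⟨C * C', fun p => ?_⟩
  rw [norm_mul]
  exact mul_le_mul (hC p) (hC' p) (norm_nonneg _) ((norm_nonneg _).trans (hC p))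

theorem Bc.add {t c : P → ℂ} (h : Bc t) (h' : Bc c) : Bc fun p => t p + c p := by
  obtain ⟨C, hC⟩ := h
  obtain ⟨C', hC'⟩ := h'
  exact ⟨C + C', fun p => (norm_add_le _ _).trans (add_le_add (hC p) (hC' p))⟩

theorem Bc.conj {t : P → ℂ} (h : Bc t) : Bc fun p => conj (t p) := by
  obtain ⟨C, hC⟩ := h
  exact ⟨C, fun p => by rw [Complex.norm_conj]; exact hC p⟩

theorem Bc.const (a : ℂ) : Bc fun _ : P => a := ⟨‖a‖, fun _ => le_rfl⟩

/-- the difference -/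
noncomputable def df (r : ℝ) (t c : P → ℂ) (p : P) : ℂ := t p - (r : ℂ) * conj (c p)

theorem Bc.df {t c : P → ℂ} (h : Bc t) (h' : Bc c) (r : ℝ) : Bc (df r t c) := by
  have h1 := h.add ((Bc.const (P := P) (-(r : ℂ))).mul h'.conj)
  obtain ⟨C, hC⟩ := h1
  refine ⟨C, fun p => ?_⟩
  have h2 := hC p
  unfold ST.df
  simp only [neg_mul, ← sub_eq_add_neg] at h2
  exact h2

theorem norm_df_sq (r : ℝ) (t c : P → ℂ) (p : P) :
    ‖df r t c p‖ ^ 2 = ‖t p‖ ^ 2 + (-2 * r) * (t p * c p).re + r ^ 2 * ‖c p‖ ^ 2 := by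
  unfold df
  rw [Complex.sq_norm, Complex.sq_norm, Complex.sq_norm, Complex.normSq_apply,
    Complex.normSq_apply, Complex.normSq_apply]
  simp only [Complex.sub_re, Complex.sub_im, Complex.mul_re, Complex.mul_im, Complex.ofReal_re,
    Complex.ofReal_im, Complex.conj_re, Complex.conj_im]
  ring

section

variable (hN : Sys N) {U : Ultrafilter ℝ} (hU : (U : Filter ℝ) ≤ 𝓝[>] 0) {t c : P → ℂ}
  (ht : Bc t) (hc : Bc c)

include hN hU ht hc

theorem M_df (r : ℝ) : (M N U fun p => ‖df r t c p‖ ^ 2) =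
    (M N U fun p => ‖t p‖ ^ 2) - 2 * r * (M N U fun p => (t p * c p).re) +
      r ^ 2 * M N U fun p => ‖c p‖ ^ 2 := by
  have e : (fun p => ‖df r t c p‖ ^ 2) = fun p =>
      (‖t p‖ ^ 2 + (-2 * r) * (t p * c p).re) + r ^ 2 * ‖c p‖ ^ 2 :=
    funext fun p => norm_df_sq r t c p
  rw [e, M_add hN hU (ht.norm.sq.add ((ht.mul hc).re.const_mul _)) (hc.norm.sq.const_mul _),
    M_add hN hU ht.norm.sq ((ht.mul hc).re.const_mul _), M_const_mul hN hU (ht.mul hc).re,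
    M_const_mul hN hU hc.norm.sq]
  ring

theorem M_df_nonneg (r : ℝ) : 0 ≤ M N U fun p => ‖df r t c p‖ ^ 2 :=
  M_nonneg hN hU (Bc.df ht hc r).norm.sq fun _ => sq_nonneg _

/-- **The inequality.** -/
theorem edge_le (ht2 : (M N U fun p => ‖t p‖ ^ 2) ≤ 1) (hc2 : (M N U fun p => ‖c p‖ ^ 2) ≤ 1) :
    (M N U fun p => (t p * c p).re) ^ 2 ≤ 1 := by
  set r := M N U fun p => (t p * c p).re with hr
  have h1 := M_df_nonneg hN hU ht hc r
  rw [M_df hN hU ht hc r, ← hr] at h1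
  have h2 : r ^ 2 * (M N U fun p => ‖c p‖ ^ 2) ≤ r ^ 2 * 1 :=
    mul_le_mul_of_nonneg_left hc2 (sq_nonneg r)
  nlinarith

/-- **The case of equality.** -/
theorem edge_eq (ht2 : (M N U fun p => ‖t p‖ ^ 2) ≤ 1) (hc2 : (M N U fun p => ‖c p‖ ^ 2) ≤ 1)
    {r : ℝ} (hr : (M N U fun p => (t p * c p).re) = r) (h1 : 1 ≤ r ^ 2) :
    (M N U fun p => ‖df r t c p‖ ^ 2) = 0 := by
  have h2 := M_df_nonneg hN hU ht hc r
  refine le_antisymm ?_ h2
  rw [M_df hN hU ht hc r, hr]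
  have h3 : r ^ 2 * (M N U fun p => ‖c p‖ ^ 2) ≤ r ^ 2 * 1 :=
    mul_le_mul_of_nonneg_left hc2 (sq_nonneg r)
  nlinarith

omit ht hc in
/-- the mean of a function whose square has mean zero -/
theorem M_zero_of_sq {φ : P → ℝ} (hφ : Bd φ) (h : (M N U fun p => φ p ^ 2) = 0) :
    M N U φ = 0 := by
  have h1 := M_cs hN hU hφ (Bd.const (P := P) 1)
  rw [h, zero_mul] at h1
  have h2 : (M N U fun p => φ p * 1) = M N U φ := by
    congr 1
    funext p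
    rw [mul_one]
  rw [h2] at h1
  exact pow_eq_zero_iff (two_ne_zero) |>.1 (le_antisymm h1 (sq_nonneg _))

omit ht hc in
theorem M_zero_of_le {φ ψ : P → ℝ} (hφ : Bd φ) (hψ : Bd ψ) (h0 : ∀ p, 0 ≤ φ p)
    (h : ∀ p, φ p ≤ ψ p) (h1 : M N U ψ = 0) : M N U φ = 0 :=
  le_antisymm (h1 ▸ M_mono hN hU hφ hψ h) (M_nonneg hN hU hφ h0)

/-- the absolute values agree in the mean -/
theorem edge_norm {r : ℝ} (hr : |r| = 1) (h0 : (M N U fun p => ‖df r t c p‖ ^ 2) = 0) :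
    (M N U fun p => |‖t p‖ ^ 2 - ‖c p‖ ^ 2|) = 0 := by
  obtain ⟨C1, hC1⟩ := ht
  obtain ⟨C2, hC2⟩ := hc
  have ht : Bc t := ⟨C1, hC1⟩
  have hc : Bc c := ⟨C2, hC2⟩
  have h1 := M_zero_of_sq hN hU (Bc.df ht hc r).norm h0
  have h2 : (M N U fun p => (|C1| + |C2|) * ‖df r t c p‖) = 0 := by
    rw [M_const_mul hN hU (Bc.df ht hc r).norm, h1, mul_zero]
  refine M_zero_of_le hN hU (ht.norm.sq.sub hc.norm.sq).abs ((Bc.df ht hc r).norm.const_mul _)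
    (fun p => abs_nonneg _) (fun p => ?_) h2
  have h3 : ‖t p‖ ^ 2 - ‖c p‖ ^ 2 = (‖t p‖ + ‖c p‖) * (‖t p‖ - ‖c p‖) := by ring
  rw [h3, abs_mul]
  have h4 : |‖t p‖ + ‖c p‖| ≤ |C1| + |C2| := by
    rw [abs_of_nonneg (by positivity)]
    exact add_le_add ((hC1 p).trans (le_abs_self _)) ((hC2 p).trans (le_abs_self _))
  have h5 : |‖t p‖ - ‖c p‖| ≤ ‖df r t c p‖ := by
    have h6 : ‖(r : ℂ) * conj (c p)‖ = ‖c p‖ := by
      rw [norm_mul, Complex.norm_real, Real.norm_eq_abs, hr, one_mul, Complex.norm_conj]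
    have h7 := abs_norm_sub_norm_le (t p) ((r : ℂ) * conj (c p))
    rw [h6] at h7
    exact h7
  exact mul_le_mul h4 h5 (abs_nonneg _) (by positivity)

/-- the moments agree -/
theorem edge_mom {r : ℝ} (hr : |r| = 1) (h0 : (M N U fun p => ‖df r t c p‖ ^ 2) = 0) (k : ℕ) :
    (M N U fun p => (‖t p‖ ^ 2) ^ k) = M N U fun p => (‖c p‖ ^ 2) ^ k := by
  have h1 := edge_norm hN hU ht hc hr h0
  obtain ⟨C1, hC1⟩ := ht
  obtain ⟨C2, hC2⟩ := hc
  have ht : Bc t := ⟨C1, hC1⟩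
  have hc : Bc c := ⟨C2, hC2⟩
  have hb : ∀ {s : P → ℂ}, Bc s → Bd fun p => (‖s p‖ ^ 2) ^ k := by
    rintro s ⟨C, hC⟩
    refine ⟨(C ^ 2) ^ k, fun p => ?_⟩
    rw [abs_of_nonneg (by positivity)]
    exact pow_le_pow_left₀ (by positivity) (pow_le_pow_left₀ (norm_nonneg _) (hC p) 2) k
  set D : ℝ := max (|C1| ^ 2) (|C2| ^ 2) with hD
  have h2 : (M N U fun p => (k * D ^ (k - 1)) * |‖t p‖ ^ 2 - ‖c p‖ ^ 2|) = 0 := by
    rw [M_const_mul hN hU (ht.norm.sq.sub hc.norm.sq).abs, h1, mul_zero]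
  have h3 : (M N U fun p => |(‖t p‖ ^ 2) ^ k - (‖c p‖ ^ 2) ^ k|) = 0 := by
    refine M_zero_of_le hN hU ((hb ht).sub (hb hc)).abs
      ((ht.norm.sq.sub hc.norm.sq).abs.const_mul _) (fun p => abs_nonneg _) (fun p => ?_) h2
    refine (abs_pow_sub_pow_le _ _ _).trans ?_
    have h4 : max |‖t p‖ ^ 2| |‖c p‖ ^ 2| ≤ D := by
      rw [abs_of_nonneg (by positivity), abs_of_nonneg (by positivity)]
      exact max_le_max (pow_le_pow_left₀ (norm_nonneg _) ((hC1 p).trans (le_abs_self _)) 2)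
        (pow_le_pow_left₀ (norm_nonneg _) ((hC2 p).trans (le_abs_self _)) 2)
    have h5 : (max |‖t p‖ ^ 2| |‖c p‖ ^ 2|) ^ (k - 1) ≤ D ^ (k - 1) :=
      pow_le_pow_left₀ (by positivity) h4 _
    calc |‖t p‖ ^ 2 - ‖c p‖ ^ 2| * k * max |‖t p‖ ^ 2| |‖c p‖ ^ 2| ^ (k - 1)
        ≤ |‖t p‖ ^ 2 - ‖c p‖ ^ 2| * k * D ^ (k - 1) :=
          mul_le_mul_of_nonneg_left h5 (by positivity)
      _ = _ := by ring
  have h4 : M N U (fun p => (‖t p‖ ^ 2) ^ k - (‖c p‖ ^ 2) ^ k) ≤ 0 := by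
    rw [← h3]
    exact M_mono hN hU ((hb ht).sub (hb hc)) ((hb ht).sub (hb hc)).abs fun p => le_abs_self _
  have h5 : 0 ≤ M N U (fun p => (‖t p‖ ^ 2) ^ k - (‖c p‖ ^ 2) ^ k) := by
    have h6 := M_mono hN hU ((hb ht).sub (hb hc)).neg ((hb ht).sub (hb hc)).abs
      fun p => neg_le_abs _
    rw [h3, M_neg hN hU ((hb ht).sub (hb hc))] at h6
    linarith
  rw [M_sub hN hU (hb ht) (hb hc)] at h4 h5
  linarith

end

/-- the mean value of a polynomial of a function -/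
theorem M_poly (hN : Sys N) {U : Ultrafilter ℝ} (hU : (U : Filter ℝ) ≤ 𝓝[>] 0) {f : P → ℝ}
    (hf : Bd f) (Q : Polynomial ℝ) : (M N U fun p => Q.eval (f p)) =
      ∑ k ∈ Finset.range (Q.natDegree + 1), Q.coeff k * M N U fun p => f p ^ k := by
  have hb : ∀ k : ℕ, Bd fun p => f p ^ k := by
    intro k
    obtain ⟨C, hC⟩ := hf
    refine ⟨C ^ k, fun p => ?_⟩
    rw [abs_pow]
    exact pow_le_pow_left₀ (abs_nonneg _) (hC p) k
  have e : (fun p => Q.eval (f p)) =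
      fun p => ∑ k ∈ Finset.range (Q.natDegree + 1), Q.coeff k * f p ^ k :=
    funext fun p => Polynomial.eval_eq_sum_range _
  rw [e, M_sum hN hU _ fun k _ => (hb k).const_mul _]
  exact Finset.sum_congr rfl fun k _ => M_const_mul hN hU (hb k) _

end Pool.Agent.TH553.ST
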