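import Pool.Agent.TH553.ST.Orth
import Pool.Agent.TH553.ST.Edge

set_option autoImplicit false
set_option linter.unusedSectionVars false

/-!
# Trigonometric polynomials with class functions as coefficients
-/

namespace Pool.Agent.TH553.ST

open Complex Filter Topology ComplexConjugate MeasureTheory Pool.Agent.W540.BE
  Pool.Agent.TH553.RS Pool.Agent.H341R2

section

variable {G : Type} [Group G] [TopologicalSpace G]

/-- continuous hermitian class functions -/
structure Her (f : G → ℂ) : Prop where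
  cont : Continuous f
  cls : ∀ g h, f (h * g * h⁻¹) = f g
  inv : ∀ g, f g⁻¹ = conj (f g)

theorem Her.add {f f' : G → ℂ} (h : Her f) (h' : Her f') : Her fun g => f g + f' g :=
  ⟨h.cont.add h'.cont, fun g k => by rw [h.cls, h'.cls], fun g => by rw [h.inv, h'.inv, map_add]⟩

theorem Her.mul {f f' : G → ℂ} (h : Her f) (h' : Her f') : Her fun g => f g * f' g :=
  ⟨h.cont.mul h'.cont, fun g k => by rw [h.cls, h'.cls], fun g => by rw [h.inv, h'.inv, map_mul]⟩

theorem Her.const (c : ℝ) : Her fun _ : G => (c : ℂ) :=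
  ⟨continuous_const, fun _ _ => rfl, fun _ => (Complex.conj_ofReal c).symm⟩

theorem Her.conj {f : G → ℂ} (h : Her f) : Her fun g => conj (f g) :=
  ⟨Complex.continuous_conj.comp h.cont, fun g k => by rw [h.cls], fun g => by rw [h.inv]⟩

theorem Her.sum {J : Type*} (s : Finset J) {f : J → G → ℂ} (h : ∀ j ∈ s, Her (f j)) :
    Her fun g => ∑ j ∈ s, f j g := by
  classical
  induction s using Finset.induction_on with
  | empty => simpa using Her.const (G := G) 0
  | insert a s ha ih =>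
    simp only [Finset.sum_insert ha]
    exact (h a (Finset.mem_insert_self _ _)).add (ih fun j hj => h j (Finset.mem_insert_of_mem hj))

/-- real trigonometric polynomials -/
def Alg (R : G → ℝ → ℝ) : Prop := ∃ (J : Type) (_ : Fintype J) (f : J → G → ℂ) (σ : J → ℝ),
  (∀ j, Her (f j)) ∧ ∀ g θ, (R g θ : ℂ) = ∑ j, f j g * Complex.exp (-(σ j * θ * I))

theorem Alg.const (c : ℝ) : Alg fun (_ : G) (_ : ℝ) => c :=
  ⟨Unit, inferInstance, fun _ _ => c, fun _ => 0, fun _ => Her.const c, fun g θ => by simp⟩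

theorem Alg.add {R R' : G → ℝ → ℝ} (h : Alg R) (h' : Alg R') : Alg fun g θ => R g θ + R' g θ := by
  obtain ⟨J, _, f, σ, h1, h2⟩ := h
  obtain ⟨J', _, f', σ', h1', h2'⟩ := h'
  refine ⟨J ⊕ J', inferInstance, Sum.elim f f', Sum.elim σ σ', ?_, fun g θ => ?_⟩
  · rintro (j | j)
    · exact h1 j
    · exact h1' j
  · rw [Fintype.sum_sum_type]
    push_cast
    rw [h2, h2']
    rfl

theorem Alg.mul {R R' : G → ℝ → ℝ} (h : Alg R) (h' : Alg R') : Alg fun g θ => R g θ * R' g θ := by
  obtain ⟨J, _, f, σ, h1, h2⟩ := h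
  obtain ⟨J', _, f', σ', h1', h2'⟩ := h'
  refine ⟨J × J', inferInstance, fun j g => f j.1 g * f' j.2 g, fun j => σ j.1 + σ' j.2,
    fun j => (h1 j.1).mul (h1' j.2), fun g θ => ?_⟩
  rw [Fintype.sum_prod_type]
  push_cast
  rw [h2, h2', Finset.sum_mul_sum]
  refine Finset.sum_congr rfl fun i _ => Finset.sum_congr rfl fun j _ => ?_
  have e : -(((σ i : ℂ) + (σ' j : ℂ)) * θ * I) = -(σ i * θ * I) + -(σ' j * θ * I) := by ring
  rw [e, Complex.exp_add]
  ring

theorem Alg.re {f : G → ℂ} (h : Her f) (σ : ℝ) :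
    Alg fun g θ => (f g * Complex.exp (-(σ * θ * I))).re := by
  refine ⟨Bool, inferInstance, fun b g => if b then ((1 / 2 : ℝ) : ℂ) * f g else
    ((1 / 2 : ℝ) : ℂ) * conj (f g), fun b => if b then σ else -σ, ?_, fun g θ => ?_⟩
  · rintro (_ | _)
    · exact (Her.const (1 / 2)).mul h.conj
    · exact (Her.const (1 / 2)).mul h
  · rw [Fintype.sum_bool]
    simp only [if_true, Bool.false_eq_true, if_false]
    rw [Complex.re_eq_add_conj, map_mul, ← Complex.exp_conj]
    simp only [map_neg, map_mul, Complex.conj_ofReal, Complex.conj_I]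
    push_cast
    have e : -(-(σ : ℂ) * θ * I) = -(σ * θ * -I) := by ring
    rw [e]
    ring

theorem Alg.sum {κ : Type*} (s : Finset κ) {R : κ → G → ℝ → ℝ} (h : ∀ k ∈ s, Alg (R k)) :
    Alg fun g θ => ∑ k ∈ s, R k g θ := by
  classical
  induction s using Finset.induction_on with
  | empty => simpa using Alg.const (G := G) 0
  | insert a s ha ih =>
    simp only [Finset.sum_insert ha]
    exact (h a (Finset.mem_insert_self _ _)).add (ih fun j hj => h j (Finset.mem_insert_of_mem hj))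

theorem Alg.prod {κ : Type*} (s : Finset κ) {R : κ → G → ℝ → ℝ} (h : ∀ k ∈ s, Alg (R k)) :
    Alg fun g θ => ∏ k ∈ s, R k g θ := by
  classical
  induction s using Finset.induction_on with
  | empty => simpa using Alg.const (G := G) 1
  | insert a s ha ih =>
    simp only [Finset.prod_insert ha]
    exact (h a (Finset.mem_insert_self _ _)).mul (ih fun j hj => h j (Finset.mem_insert_of_mem hj))

theorem Alg.poly {R : G → ℝ → ℝ} (h : Alg R) (V : Finset ℝ) :
    Alg fun g θ => ∏ d ∈ V, (R g θ - d) ^ 2 := by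
  refine Alg.prod V fun d _ => ?_
  have h1 := h.add (Alg.const (-d))
  have h2 := h1.mul h1
  refine (funext fun g => funext fun θ => ?_ : (fun g θ => (R g θ - d) ^ 2) = _) ▸ h2
  ring

end

section

variable {P : Type*} {N : P → ℕ} {G : Type} [Group G] [TopologicalSpace G]
  [IsTopologicalGroup G] [CompactSpace G]
  [MeasurableSpace G] [BorelSpace G] {μ : Measure G} [IsProbabilityMeasure μ] [μ.IsHaarMeasure]
  {U : Ultrafilter ℝ} {x : P → G}

/-- the joint law of `x p` and of the logarithm of the norm -/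
def JL (N : P → ℕ) (U : Ultrafilter ℝ) (x : P → G) (μ : Measure G) : Prop :=
  ∀ f : G → ℂ, Her f → ∀ σ : ℝ,
    (M N U fun p => (f (x p) * ((N p : ℕ) : ℂ) ^ (-(σ * I : ℂ))).re) =
      if σ = 0 then (∫ g, f g ∂μ).re else 0

theorem cpow_exp {q : ℕ} (hq : 0 < q) (σ : ℝ) :
    (q : ℂ) ^ (-(σ * I : ℂ)) = Complex.exp (-(σ * (Real.log q : ℝ) * I)) := by
  rw [Complex.cpow_def_of_ne_zero (by exact_mod_cast hq.ne'), ← Complex.natCast_log]
  congr 1
  ring

theorem bd_her {f : G → ℂ} (h : Continuous f) (hN : ∀ p, 0 < N p) (σ : ℝ) :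
    Bc fun p => f (x p) * ((N p : ℕ) : ℂ) ^ (-(σ * I : ℂ)) := by
  obtain ⟨C, hC⟩ := (isCompact_univ (X := G)).exists_bound_of_continuousOn h.continuousOn
  refine ⟨C, fun p => ?_⟩
  rw [norm_mul, norm_cpow_I (hN p), mul_one]
  exact hC _ (Set.mem_univ _)

theorem Alg.mean_aux (hN : Sys N) (hU : (U : Filter ℝ) ≤ 𝓝[>] 0) (hpos : ∀ p, 0 < N p)
    (hJ : JL N U x μ) {J : Type} [Fintype J] {f : J → G → ℂ} {σ : J → ℝ} (h : ∀ j, Her (f j)) :
    (M N U fun p => (∑ j, f j (x p) * ((N p : ℕ) : ℂ) ^ (-(σ j * I : ℂ))).re) =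
      ∑ j, if σ j = 0 then (∫ g, f j g ∂μ).re else 0 := by
  have e : (fun p => (∑ j, f j (x p) * ((N p : ℕ) : ℂ) ^ (-(σ j * I : ℂ))).re) =
      fun p => ∑ j, (f j (x p) * ((N p : ℕ) : ℂ) ^ (-(σ j * I : ℂ))).re :=
    funext fun p => Complex.re_sum _ _
  rw [e, M_sum hN hU _ fun j _ => (bd_her (h j).cont hpos (σ j)).re]
  exact Finset.sum_congr rfl fun j _ => hJ _ (h j) _

theorem Alg.eval {R : G → ℝ → ℝ} {J : Type} [Fintype J] {f : J → G → ℂ} {σ : J → ℝ}
    (h : ∀ g θ, (R g θ : ℂ) = ∑ j, f j g * Complex.exp (-(σ j * θ * I))) (hpos : ∀ p, 0 < N p)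
    (p : P) : ((R (x p) (Real.log (N p)) : ℝ) : ℂ) =
      ∑ j, f j (x p) * ((N p : ℕ) : ℂ) ^ (-(σ j * I : ℂ)) := by
  rw [h]
  exact Finset.sum_congr rfl fun j _ => by rw [cpow_exp (hpos p)]

theorem Alg.bd {R : G → ℝ → ℝ} (hR : Alg R) (hpos : ∀ p, 0 < N p) :
    Bd fun p => R (x p) (Real.log (N p)) := by
  obtain ⟨J, _, f, σ, h1, h2⟩ := hR
  have h3 : ∀ j, ∃ C : ℝ, ∀ p, ‖f j (x p) * ((N p : ℕ) : ℂ) ^ (-(σ j * I : ℂ))‖ ≤ C :=
    fun j => bd_her (h1 j).cont hpos (σ j)
  choose C hC using h3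
  refine ⟨∑ j, C j, fun p => ?_⟩
  have h4 : |R (x p) (Real.log (N p))| = ‖((R (x p) (Real.log (N p)) : ℝ) : ℂ)‖ := by
    rw [Complex.norm_real, Real.norm_eq_abs]
  rw [h4, Alg.eval h2 hpos p]
  exact (norm_sum_le _ _).trans (Finset.sum_le_sum fun j _ => hC j p)

/-- a nonnegative trigonometric polynomial with mean zero vanishes -/
theorem Alg.zero_of_mean (hN : Sys N) (hU : (U : Filter ℝ) ≤ 𝓝[>] 0) (hpos : ∀ p, 0 < N p)
    (hJ : JL N U x μ) {R : G → ℝ → ℝ} (hR : Alg R) (h0 : ∀ g θ, 0 ≤ R g θ)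
    (hM : (M N U fun p => R (x p) (Real.log (N p))) = 0) : ∀ g θ, R g θ = 0 := by
  classical
  have hbR := Alg.bd (N := N) (x := x) hR hpos
  obtain ⟨J, _, f, σ, h1, h2⟩ := hR
  have key : ∀ (s : ℝ) (g : G), ∑ j ∈ Finset.univ.filter (fun j => σ j = s), f j g = 0 := by
    intro s
    set F : G → ℂ := fun g => ∑ j ∈ Finset.univ.filter (fun j => σ j = s), f j g with hF
    have hHer : Her F := Her.sum _ fun j _ => h1 j
    have e1 : ∀ p, R (x p) (Real.log (N p)) *
        (conj (F (x p)) * ((N p : ℕ) : ℂ) ^ (-((-s : ℝ) * I : ℂ))).re =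
        (∑ j, (fun j g => f j g * conj (F g)) j (x p) *
          ((N p : ℕ) : ℂ) ^ (-(((fun j => σ j - s) j : ℝ) * I : ℂ))).re := by
      intro p
      rw [← Complex.re_ofReal_mul, Alg.eval h2 hpos p, Finset.sum_mul]
      congr 1
      refine Finset.sum_congr rfl fun j _ => ?_
      have hq : ((N p : ℕ) : ℂ) ≠ 0 := by exact_mod_cast (hpos p).ne'
      have e2 : (-(((σ j - s : ℝ)) * I : ℂ)) = -(σ j * I : ℂ) + -((-s : ℝ) * I : ℂ) := by
        push_cast
        ring
      simp only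
      rw [e2, Complex.cpow_add _ _ hq]
      ring
    have hb2 := bd_her (N := N) (x := x) (hHer.conj).cont hpos (-s)
    obtain ⟨C, hC⟩ := hb2
    have h3 : (M N U fun p => R (x p) (Real.log (N p)) *
        (conj (F (x p)) * ((N p : ℕ) : ℂ) ^ (-((-s : ℝ) * I : ℂ))).re) = 0 := by
      have hb3 : Bd fun p => (conj (F (x p)) * ((N p : ℕ) : ℂ) ^ (-((-s : ℝ) * I : ℂ))).re :=
        (show Bc _ from ⟨C, hC⟩ : Bc fun p =>
          conj (F (x p)) * ((N p : ℕ) : ℂ) ^ (-((-s : ℝ) * I : ℂ))).re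
      have h4 : (M N U fun p => |R (x p) (Real.log (N p)) *
          (conj (F (x p)) * ((N p : ℕ) : ℂ) ^ (-((-s : ℝ) * I : ℂ))).re|) = 0 := by
        refine M_zero_of_le hN hU (hbR.mul hb3).abs (hbR.const_mul |C|) (fun p => abs_nonneg _)
          (fun p => ?_) (by rw [M_const_mul hN hU hbR, hM, mul_zero])
        rw [abs_mul, abs_of_nonneg (h0 _ _), mul_comm]
        refine mul_le_mul_of_nonneg_right ?_ (h0 _ _)
        exact ((Complex.abs_re_le_norm _).trans (hC p)).trans (le_abs_self _)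
      refine le_antisymm ?_ ?_
      · rw [← h4]
        exact M_mono hN hU (hbR.mul hb3) (hbR.mul hb3).abs fun p => le_abs_self _
      · have h5 := M_mono hN hU (hbR.mul hb3).neg (hbR.mul hb3).abs fun p => neg_le_abs _
        rw [h4, M_neg hN hU (hbR.mul hb3)] at h5
        linarith
    simp only [e1] at h3
    rw [Alg.mean_aux hN hU hpos hJ (f := fun j g => f j g * conj (F g)) (σ := fun j => σ j - s)
      (fun j => (h1 j).mul hHer.conj)] at h3
    have hci : ∀ j, Continuous fun g => f j g * conj (F g) :=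
      fun j => ((h1 j).mul hHer.conj).cont
    have h6 : ∫ g, ‖F g‖ ^ 2 ∂μ = 0 := by
      have h7 : ∀ g, ((‖F g‖ ^ 2 : ℝ) : ℂ) =
          ∑ j ∈ Finset.univ.filter (fun j => σ j = s), f j g * conj (F g) := by
        intro g
        rw [← Finset.sum_mul]
        change _ = F g * conj (F g)
        rw [Complex.mul_conj, Complex.normSq_eq_norm_sq]
      have h8 : ((∫ g, ‖F g‖ ^ 2 ∂μ : ℝ) : ℂ) =
          ∑ j ∈ Finset.univ.filter (fun j => σ j = s), ∫ g, f j g * conj (F g) ∂μ := by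
        have h10 : ((∫ g, ‖F g‖ ^ 2 ∂μ : ℝ) : ℂ) = ∫ g, ((‖F g‖ ^ 2 : ℝ) : ℂ) ∂μ :=
          integral_ofReal.symm
        rw [← integral_finsetSum _ fun j _ => intg (hci j), h10]
        congr 1
        funext g
        exact h7 g
      have h9 := congrArg Complex.re h8
      rw [Complex.ofReal_re, Complex.re_sum, Finset.sum_filter] at h9
      refine h9.trans (Eq.trans ?_ h3)
      refine Finset.sum_congr rfl fun j _ => ?_
      simp only [sub_eq_zero]
    intro g
    by_contra hcon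
    have h7 : Continuous fun g => ‖F g‖ ^ 2 := hHer.cont.norm.pow 2
    have h8 := int_pos (μ := μ) h7 (fun g => by positivity) (g₀ := g)
      (by
        have : ‖F g‖ ≠ 0 := norm_ne_zero_iff.2 hcon
        positivity)
    rw [h6] at h8
    exact lt_irrefl _ h8
  intro g θ
  have h3 : (R g θ : ℂ) = 0 := by
    rw [h2, ← Finset.sum_fiberwise_of_maps_to (s := Finset.univ) (t := Finset.univ.image σ)
      (g := σ) (fun j _ => Finset.mem_image_of_mem _ (Finset.mem_univ j))]
    refine Finset.sum_eq_zero fun s _ => ?_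
    have h4 : ∀ j ∈ Finset.univ.filter (fun j => σ j = s),
        f j g * Complex.exp (-(σ j * θ * I)) = f j g * Complex.exp (-(s * θ * I)) := by
      intro j hj
      rw [(Finset.mem_filter.1 hj).2]
    rw [Finset.sum_congr rfl h4, ← Finset.sum_mul, key s g, zero_mul]
  exact_mod_cast h3

/-- a trigonometric polynomial with finitely many values in the mean is zero -/
theorem Alg.zero_of_finite [ConnectedSpace G] (hN : Sys N) (hU : (U : Filter ℝ) ≤ 𝓝[>] 0)
    (hpos : ∀ p, 0 < N p) (hJ : JL N U x μ) {R : G → ℝ → ℝ} (hR : Alg R)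
    (hc : ∀ θ, Continuous fun g => R g θ) (hint : ∀ θ, ∫ g, R g θ ∂μ = 0) (V : Finset ℝ)
    (hM : (M N U fun p => ∏ d ∈ V, (R (x p) (Real.log (N p)) - d) ^ 2) = 0) :
    ∀ g θ, R g θ = 0 := by
  have h1 := Alg.zero_of_mean hN hU hpos hJ (hR.poly V)
    (fun g θ => Finset.prod_nonneg fun d _ => sq_nonneg _) hM
  have h2 : ∀ g θ, R g θ ∈ V := by
    intro g θ
    obtain ⟨d, hd, h3⟩ := Finset.prod_eq_zero_iff.1 (h1 g θ)
    have h4 : R g θ = d := by
      have := pow_eq_zero_iff (two_ne_zero) |>.1 h3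
      linarith
    rw [h4]
    exact hd
  intro g θ
  have h3 : (Set.range fun g => R g θ).Subsingleton := by
    have h4 : IsPreconnected (Set.range fun g => R g θ) :=
      isPreconnected_range (hc θ)
    by_contra hcon
    rw [Set.not_subsingleton_iff] at hcon
    refine h4.infinite_of_nontrivial hcon ((V.finite_toSet).subset ?_)
    rintro _ ⟨g', rfl⟩
    exact h2 g' θ
  have h4 : ∀ g', R g' θ = R g θ := fun g' => h3 (Set.mem_range_self g') (Set.mem_range_self g)
  have h5 := hint θ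
  simp only [h4] at h5
  simpa using h5

end

end Pool.Agent.TH553.ST
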