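import Pool.Agent.TH553.ST.Alg
import Pool.Agent.TH553.RS.Bessel

set_option autoImplicit false
set_option linter.unusedSectionVars false

/-!
# The strict inequality of Bessel
-/

namespace Pool.Agent.TH553.ST

open Complex Filter Topology ComplexConjugate MeasureTheory Pool.Agent.W540.BE
  Pool.Agent.TH553.RS Pool.Agent.H341R2
open scoped Matrix

section

variable {G : Type} [Group G]

/-- the complex conjugate representation -/
noncomputable def cj {n : ℕ} (π : G →* Matrix.unitaryGroup (Fin n) ℂ) :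
    G →* Matrix.unitaryGroup (Fin n) ℂ where
  toFun g := ⟨(π g : Matrix (Fin n) (Fin n) ℂ).map conj, by
    rw [Matrix.mem_unitaryGroup_iff]
    have h1 := Matrix.mem_unitaryGroup_iff.1 (π g).2
    have h2 : star ((π g : Matrix (Fin n) (Fin n) ℂ).map conj) =
        (star (π g : Matrix (Fin n) (Fin n) ℂ)).map conj := by
      ext i j
      simp [Matrix.star_apply]
    rw [h2, ← Matrix.map_mul, h1]
    ext i j
    by_cases h : i = j <;> simp [Matrix.one_apply, h]⟩
  map_one' := by
    apply Subtype.ext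
    ext i j
    by_cases h : i = j <;> simp [h]
  map_mul' g h := by
    apply Subtype.ext
    rw [map_mul]
    exact Matrix.map_mul

theorem cj_val {n : ℕ} (π : G →* Matrix.unitaryGroup (Fin n) ℂ) (g : G) :
    (cj π g : Matrix (Fin n) (Fin n) ℂ) = (π g : Matrix (Fin n) (Fin n) ℂ).map conj := rfl

theorem chi_cj {n : ℕ} (π : G →* Matrix.unitaryGroup (Fin n) ℂ) (g : G) :
    chi (cj π) g = conj (chi π g) := by
  unfold chi Matrix.trace
  rw [cj_val, map_sum]
  rfl

theorem schur_cj {n : ℕ} {π : G →* Matrix.unitaryGroup (Fin n) ℂ} (h : Schur π) :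
    Schur (cj π) := by
  intro A hA
  obtain ⟨c, hc⟩ := h (A.map conj) fun g => by
    have h1 := congrArg (fun X : Matrix (Fin n) (Fin n) ℂ => X.map conj) (hA g)
    simp only [Matrix.map_mul, cj_val] at h1
    have h2 : ((π g : Matrix (Fin n) (Fin n) ℂ).map conj).map conj =
        (π g : Matrix (Fin n) (Fin n) ℂ) := by
      ext i j
      simp
    rw [h2] at h1
    exact h1
  refine ⟨conj c, ?_⟩
  have h3 : A = (A.map conj).map conj := by
    ext i j
    simp
  rw [h3, hc]
  ext i j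
  by_cases h : i = j <;> simp [h]

variable [TopologicalSpace G] [IsTopologicalGroup G]

theorem cont_cj {n : ℕ} {π : G →* Matrix.unitaryGroup (Fin n) ℂ} (h : Continuous π) :
    Continuous (cj π) := by
  refine Continuous.subtype_mk ?_ _
  exact (cont_mat h).matrix_map Complex.continuous_conj

theorem her_chi {n : ℕ} {π : G →* Matrix.unitaryGroup (Fin n) ℂ} (h : Continuous π) :
    Her (chi π) := ⟨cont_chi h, fun g k => chi_cls π g k, fun g => chi_inv π g⟩

theorem ne_zero_of_nt {n : ℕ} {π : G →* Matrix.unitaryGroup (Fin n) ℂ} (h : ∃ g, π g ≠ 1) :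
    n ≠ 0 := by
  rintro rfl
  obtain ⟨g, hg⟩ := h
  exact hg (Subtype.ext (Subsingleton.elim _ _))

end

section

variable {G : Type} [Group G] [TopologicalSpace G] [IsTopologicalGroup G] [CompactSpace G]
  [MeasurableSpace G] [BorelSpace G] {μ : Measure G} [IsProbabilityMeasure μ] [μ.IsHaarMeasure]
  {n n' : ℕ} {π : G →* Matrix.unitaryGroup (Fin n) ℂ} {π' : G →* Matrix.unitaryGroup (Fin n') ℂ}

theorem int_conj_ne (hc : Continuous π) (hs : Schur π) (hc' : Continuous π') (hs' : Schur π')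
    (h : chi π ≠ chi π') : (∫ g, chi π g * conj (chi π' g) ∂μ).re = 0 := by
  rw [int_mul_conj hc hs hc' hs' h, Complex.zero_re]

theorem int_mul_ne (hc : Continuous π) (hs : Schur π) (hc' : Continuous π') (hs' : Schur π')
    (h : chi π ≠ fun g => conj (chi π' g)) : (∫ g, chi π g * chi π' g ∂μ).re = 0 := by
  have h1 := int_mul_conj (μ := μ) hc hs (cont_cj hc') (schur_cj hs') (by
    intro h2
    apply h
    rw [h2]
    funext g
    exact chi_cj π' g)
  simp only [chi_cj, Complex.conj_conj] at h1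
  rw [h1, Complex.zero_re]

theorem int_conj_self (hc : Continuous π) (hs : Schur π) (hn : n ≠ 0) :
    (∫ g, chi π g * conj (chi π g) ∂μ).re = 1 := by
  have h1 : (fun g => chi π g * conj (chi π g)) = fun g => ((‖chi π g‖ ^ 2 : ℝ) : ℂ) := by
    funext g
    rw [Complex.mul_conj, Complex.normSq_eq_norm_sq]
  have h2 : ∫ g, ((‖chi π g‖ ^ 2 : ℝ) : ℂ) ∂μ = ((∫ g, ‖chi π g‖ ^ 2 ∂μ : ℝ) : ℂ) :=
    integral_ofReal
  rw [h1, h2, int_sq hc hs hn, Complex.ofReal_re]

end

section

variable {P : Type*} {N : P → ℕ} {G : Type} [Group G] [TopologicalSpace G]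
  [IsTopologicalGroup G] [CompactSpace G]
  [MeasurableSpace G] [BorelSpace G] {μ : Measure G} [IsProbabilityMeasure μ] [μ.IsHaarMeasure]
  {x : P → G} {κ : Type} {n : κ → ℕ} {π : ∀ k, G →* Matrix.unitaryGroup (Fin (n k)) ℂ}
  {τ : κ → ℝ}

/-- the data -/
structure Fam (μ : Measure G) (π : ∀ k, G →* Matrix.unitaryGroup (Fin (n k)) ℂ) (τ : κ → ℝ) :
    Prop where
  cont : ∀ k, Continuous (π k)
  schur : ∀ k, Schur (π k)
  nt : ∀ k, ∃ g, π k g ≠ 1
  ne : ∀ k l, k ≠ l → τ k = τ l → chi (π k) ≠ chi (π l)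
  ne' : ∀ k l, k ≠ l → τ k = -τ l → chi (π k) ≠ fun g => conj (chi (π l) g)

open Classical in
/-- the weights -/
noncomputable def wgt (π : ∀ k, G →* Matrix.unitaryGroup (Fin (n k)) ℂ) (τ : κ → ℝ) (k : κ) : ℝ :=
  if τ k = 0 ∧ ∀ g, conj (chi (π k) g) = chi (π k) g then 1 else 2

theorem wgt_pos (k : κ) : 0 < wgt π τ k := by
  unfold wgt
  split_ifs <;> norm_num

/-- the functions -/
noncomputable def uf (N : P → ℕ) (x : P → G) (π : ∀ k, G →* Matrix.unitaryGroup (Fin (n k)) ℂ)
    (τ : κ → ℝ) (k : κ) (p : P) : ℝ :=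
  (chi (π k) (x p) * ((N p : ℕ) : ℂ) ^ (-(τ k * I : ℂ))).re

/-- the trigonometric polynomials -/
noncomputable def rf (π : ∀ k, G →* Matrix.unitaryGroup (Fin (n k)) ℂ)
    (τ : κ → ℝ) (k : κ) (g : G) (θ : ℝ) : ℝ :=
  (chi (π k) g * Complex.exp (-(τ k * θ * I))).re

theorem uf_eq (hpos : ∀ p, 0 < N p) (k : κ) (p : P) :
    uf N x π τ k p = rf π τ k (x p) (Real.log (N p)) := by
  unfold uf rf
  rw [cpow_exp (hpos p)]

theorem Fam.bd (F : Fam μ π τ) (hpos : ∀ p, 0 < N p) (k : κ) : Bd (uf N x π τ k) :=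
  (bd_her (N := N) (x := x) (cont_chi (F.cont k)) hpos (τ k)).re

open Classical in
theorem Fam.gram (F : Fam μ π τ) (hN : Sys N) {U : Ultrafilter ℝ} (hU : (U : Filter ℝ) ≤ 𝓝[>] 0)
    (hpos : ∀ p, 0 < N p) (hJ : JL N U x μ) (k l : κ) :
    (M N U fun p => uf N x π τ k p * uf N x π τ l p) = if k = l then (wgt π τ k)⁻¹ else 0 := by
  have hk := her_chi (F.cont k)
  have hl := her_chi (F.cont l)
  have hqn : ∀ p, ((N p : ℕ) : ℂ) ≠ 0 := fun p => by exact_mod_cast (hpos p).ne'
  have e : (fun p => uf N x π τ k p * uf N x π τ l p) = fun p =>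
      1 / 2 * ((chi (π k) (x p) * conj (chi (π l) (x p))) *
        ((N p : ℕ) : ℂ) ^ (-((τ k - τ l : ℝ) * I : ℂ))).re +
      1 / 2 * ((chi (π k) (x p) * chi (π l) (x p)) *
        ((N p : ℕ) : ℂ) ^ (-((τ k + τ l : ℝ) * I : ℂ))).re := by
    funext p
    unfold uf
    have e1 : (chi (π k) (x p) * conj (chi (π l) (x p))) *
        ((N p : ℕ) : ℂ) ^ (-((τ k - τ l : ℝ) * I : ℂ)) =
        (chi (π k) (x p) * ((N p : ℕ) : ℂ) ^ (-(τ k * I : ℂ))) *
        conj (chi (π l) (x p) * ((N p : ℕ) : ℂ) ^ (-(τ l * I : ℂ))) := by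
      rw [map_mul, conj_cpow_I (hpos p)]
      have e2 : (-((τ k - τ l : ℝ) * I : ℂ)) = -(τ k * I : ℂ) + (τ l * I : ℂ) := by
        push_cast
        ring
      rw [e2, Complex.cpow_add _ _ (hqn p)]
      ring
    have e3 : (chi (π k) (x p) * chi (π l) (x p)) *
        ((N p : ℕ) : ℂ) ^ (-((τ k + τ l : ℝ) * I : ℂ)) =
        (chi (π k) (x p) * ((N p : ℕ) : ℂ) ^ (-(τ k * I : ℂ))) *
        (chi (π l) (x p) * ((N p : ℕ) : ℂ) ^ (-(τ l * I : ℂ))) := by
      have e2 : (-((τ k + τ l : ℝ) * I : ℂ)) = -(τ k * I : ℂ) + -(τ l * I : ℂ) := by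
        push_cast
        ring
      rw [e2, Complex.cpow_add _ _ (hqn p)]
      ring
    rw [e1, e3]
    simp only [Complex.mul_re, Complex.conj_re, Complex.conj_im]
    ring
  have h1 := hJ _ (hk.mul hl.conj) (τ k - τ l)
  have h2 := hJ _ (hk.mul hl) (τ k + τ l)
  have hb1 := (bd_her (N := N) (x := x) (hk.mul hl.conj).cont hpos (τ k - τ l)).re
  have hb2 := (bd_her (N := N) (x := x) (hk.mul hl).cont hpos (τ k + τ l)).re
  rw [e, M_add hN hU (hb1.const_mul _) (hb2.const_mul _), M_const_mul hN hU hb1,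
    M_const_mul hN hU hb2, h1, h2]
  by_cases hkl : k = l
  · subst hkl
    rw [if_pos rfl, if_pos (sub_self _), int_conj_self (F.cont k) (F.schur k)
      (ne_zero_of_nt (F.nt k))]
    by_cases h3 : τ k = 0
    · have h30 : τ k + τ k = 0 := by rw [h3, add_zero]
      rw [if_pos h30]
      by_cases h4 : ∀ g, conj (chi (π k) g) = chi (π k) g
      · have h5 : (∫ g, chi (π k) g * chi (π k) g ∂μ).re = 1 := by
          have h6 := int_conj_self (μ := μ) (F.cont k) (F.schur k) (ne_zero_of_nt (F.nt k))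
          simp only [h4] at h6
          exact h6
        have h7 : wgt π τ k = 1 := if_pos ⟨h3, h4⟩
        rw [h7, h5]
        norm_num
      · have h5 : (∫ g, chi (π k) g * chi (π k) g ∂μ).re = 0 := by
          refine int_mul_ne (F.cont k) (F.schur k) (F.cont k) (F.schur k) fun h6 => h4 fun g => ?_
          exact (congrFun h6 g).symm
        have h7 : wgt π τ k = 2 := if_neg fun h => h4 h.2
        rw [h7, h5]
        norm_num
    · have h30 : ¬ τ k + τ k = 0 := by
        intro h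
        apply h3
        linarith
      have h7 : wgt π τ k = 2 := if_neg fun h => h3 h.1
      rw [h7, if_neg h30]
      norm_num
  · rw [if_neg hkl]
    have h3 : (if τ k - τ l = 0 then (∫ g, chi (π k) g * conj (chi (π l) g) ∂μ).re else 0) =
        0 := by
      split_ifs with h
      · exact int_conj_ne (F.cont k) (F.schur k) (F.cont l) (F.schur l)
          (F.ne k l hkl (by linarith))
      · rfl
    have h4 : (if τ k + τ l = 0 then (∫ g, chi (π k) g * chi (π l) g ∂μ).re else 0) = 0 := by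
      split_ifs with h
      · exact int_mul_ne (F.cont k) (F.schur k) (F.cont l) (F.schur l)
          (F.ne' k l hkl (by linarith))
      · rfl
    rw [h3, h4]
    norm_num

end

end Pool.Agent.TH553.ST
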