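import Pool.Agent.TH553.ST.Bess

set_option autoImplicit false
set_option linter.unusedSectionVars false

/-!
# The strict inequality of Bessel, continued
-/

namespace Pool.Agent.TH553.ST

open Complex Filter Topology ComplexConjugate MeasureTheory Pool.Agent.W540.BE
  Pool.Agent.TH553.RS Pool.Agent.H341R2

section

variable {P : Type*} {N : P → ℕ} {G : Type} [Group G] [TopologicalSpace G]
  [IsTopologicalGroup G] [CompactSpace G]
  [MeasurableSpace G] [BorelSpace G] {μ : Measure G} [IsProbabilityMeasure μ] [μ.IsHaarMeasure]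
  {x : P → G} {κ : Type} {n : κ → ℕ} {π : ∀ k, G →* Matrix.unitaryGroup (Fin (n k)) ℂ}
  {τ : κ → ℝ} [Fintype κ]

/-- the coefficients -/
noncomputable def xk (N : P → ℕ) (U : Ultrafilter ℝ) (D : P → ℝ) (x : P → G)
    (π : ∀ k, G →* Matrix.unitaryGroup (Fin (n k)) ℂ) (τ : κ → ℝ) (k : κ) : ℝ :=
  M N U fun p => D p * uf N x π τ k p

/-- the projection -/
noncomputable def pr (N : P → ℕ) (U : Ultrafilter ℝ) (D : P → ℝ) (x : P → G)
    (π : ∀ k, G →* Matrix.unitaryGroup (Fin (n k)) ℂ) (τ : κ → ℝ) (p : P) : ℝ :=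
  ∑ k, (wgt π τ k * xk N U D x π τ k) * uf N x π τ k p

theorem Fam.bd_pr (F : Fam μ π τ) (hpos : ∀ p, 0 < N p) {U : Ultrafilter ℝ} (D : P → ℝ) :
    Bd (pr N U D x π τ) := Bd.sum _ fun k _ => (F.bd hpos k).const_mul _

theorem Fam.bessel (F : Fam μ π τ) (hN : Sys N) {U : Ultrafilter ℝ}
    (hU : (U : Filter ℝ) ≤ 𝓝[>] 0) (hpos : ∀ p, 0 < N p) (hJ : JL N U x μ) {D : P → ℝ}
    (hD : Bd D) : (M N U fun p => (D p - pr N U D x π τ p) ^ 2) =
      (M N U fun p => D p ^ 2) - ∑ k, wgt π τ k * xk N U D x π τ k ^ 2 := by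
  classical
  have hp := F.bd_pr (x := x) hpos (U := U) D
  have e : (fun p => (D p - pr N U D x π τ p) ^ 2) = fun p =>
      (D p ^ 2 + (-2) * (D p * pr N U D x π τ p)) +
        pr N U D x π τ p * pr N U D x π τ p := by
    funext p
    ring
  rw [e, M_add hN hU (hD.sq.add ((hD.mul hp).const_mul _)) (hp.mul hp),
    M_add hN hU hD.sq ((hD.mul hp).const_mul _), M_const_mul hN hU (hD.mul hp)]
  have h1 : (M N U fun p => D p * pr N U D x π τ p) =
      ∑ k, wgt π τ k * xk N U D x π τ k ^ 2 := by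
    have e1 : (fun p => D p * pr N U D x π τ p) = fun p =>
        ∑ k, (wgt π τ k * xk N U D x π τ k) * (D p * uf N x π τ k p) := by
      funext p
      unfold pr
      rw [Finset.mul_sum]
      exact Finset.sum_congr rfl fun k _ => by ring
    rw [e1, M_sum hN hU _ fun k _ => (hD.mul (F.bd hpos k)).const_mul _]
    refine Finset.sum_congr rfl fun k _ => ?_
    rw [M_const_mul hN hU (hD.mul (F.bd hpos k))]
    change _ * xk N U D x π τ k = _
    ring
  have h2 : (M N U fun p => pr N U D x π τ p * pr N U D x π τ p) =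
      ∑ k, wgt π τ k * xk N U D x π τ k ^ 2 := by
    have e1 : (fun p => pr N U D x π τ p * pr N U D x π τ p) = fun p =>
        ∑ k, ∑ l, ((wgt π τ k * xk N U D x π τ k) * (wgt π τ l * xk N U D x π τ l)) *
          (uf N x π τ k p * uf N x π τ l p) := by
      funext p
      unfold pr
      rw [Finset.sum_mul_sum]
      exact Finset.sum_congr rfl fun k _ => Finset.sum_congr rfl fun l _ => by ring
    rw [e1, M_sum hN hU _ fun k _ => Bd.sum _ fun l _ =>
      ((F.bd hpos k).mul (F.bd hpos l)).const_mul _]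
    refine Finset.sum_congr rfl fun k _ => ?_
    rw [M_sum hN hU _ fun l _ => ((F.bd hpos k).mul (F.bd hpos l)).const_mul _]
    have h3 : ∀ l, (M N U fun p => ((wgt π τ k * xk N U D x π τ k) *
        (wgt π τ l * xk N U D x π τ l)) * (uf N x π τ k p * uf N x π τ l p)) =
        ((wgt π τ k * xk N U D x π τ k) * (wgt π τ l * xk N U D x π τ l)) *
          if k = l then (wgt π τ k)⁻¹ else 0 := by
      intro l
      rw [M_const_mul hN hU ((F.bd hpos k).mul (F.bd hpos l)), F.gram hN hU hpos hJ k l]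
    simp only [h3]
    rw [Finset.sum_eq_single k]
    · rw [if_pos rfl]
      have := (wgt_pos (π := π) (τ := τ) k).ne'
      field_simp
    · intro l _ hl
      rw [if_neg (Ne.symm hl), mul_zero]
    · intro h
      exact absurd (Finset.mem_univ _) h
  rw [h1, h2]
  ring

theorem Fam.bessel_le (F : Fam μ π τ) (hN : Sys N) {U : Ultrafilter ℝ}
    (hU : (U : Filter ℝ) ≤ 𝓝[>] 0) (hpos : ∀ p, 0 < N p) (hJ : JL N U x μ) {D : P → ℝ}
    (hD : Bd D) : ∑ k, wgt π τ k * xk N U D x π τ k ^ 2 ≤ M N U fun p => D p ^ 2 := by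
  have h1 := F.bessel hN hU hpos hJ hD
  have h2 := M_nonneg hN hU (hD.sub (F.bd_pr (x := x) hpos (U := U) D)).sq
    fun p => sq_nonneg _
  rw [h1] at h2
  linarith

/-- **The strict inequality of Bessel** for a function with finitely many values. -/
theorem Fam.bessel_lt [ConnectedSpace G] (F : Fam μ π τ) (hN : Sys N) {U : Ultrafilter ℝ}
    (hU : (U : Filter ℝ) ≤ 𝓝[>] 0) (hpos : ∀ p, 0 < N p) (hJ : JL N U x μ) {D : P → ℝ}
    (V : Finset ℝ) (hV : ∀ p, D p ∈ V) (hQ : 0 < M N U fun p => D p ^ 2) :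
    ∑ k, wgt π τ k * xk N U D x π τ k ^ 2 < M N U fun p => D p ^ 2 := by
  classical
  have hD : Bd D := by
    refine ⟨∑ d ∈ V, |d|, fun p => ?_⟩
    exact Finset.single_le_sum (f := fun d => |d|) (fun d _ => abs_nonneg _) (hV p)
  have hb := F.bd_pr (x := x) hpos (U := U) D
  have h1 := F.bessel hN hU hpos hJ hD
  refine lt_of_le_of_ne (F.bessel_le hN hU hpos hJ hD) fun heq => ?_
  rw [heq, sub_self] at h1
  set R : G → ℝ → ℝ := fun g θ => ∑ k, (wgt π τ k * xk N U D x π τ k) * rf π τ k g θ with hR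
  have hRe : ∀ p, pr N U D x π τ p = R (x p) (Real.log (N p)) := by
    intro p
    unfold pr
    rw [hR]
    exact Finset.sum_congr rfl fun k _ => by rw [uf_eq hpos]
  have hA : Alg R := Alg.sum _ fun k _ =>
    (Alg.const _).mul (Alg.re (her_chi (F.cont k)) (τ k))
  have hcr : ∀ k θ, Continuous fun g => rf π τ k g θ := fun k θ =>
    Complex.continuous_re.comp ((cont_chi (F.cont k)).mul continuous_const)
  have hc : ∀ θ, Continuous fun g => R g θ := fun θ =>
    continuous_finsetSum _ fun k _ => continuous_const.mul (hcr k θ)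
  have hint : ∀ θ, ∫ g, R g θ ∂μ = 0 := by
    intro θ
    rw [hR]
    simp only
    rw [integral_finsetSum _ fun k _ => (intg (hcr k θ)).const_mul _]
    refine Finset.sum_eq_zero fun k _ => ?_
    rw [integral_const_mul]
    have h2 : ∫ g, rf π τ k g θ ∂μ = 0 := by
      have h3 : ∫ g, chi (π k) g * Complex.exp (-(τ k * θ * I)) ∂μ = 0 := by
        rw [integral_mul_const, int_chi (F.cont k) (F.schur k) (F.nt k), zero_mul]
      have hcc : Continuous fun g => chi (π k) g * Complex.exp (-(τ k * θ * I)) :=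
        (cont_chi (F.cont k)).mul continuous_const
      have h4 := integral_re (𝕜 := ℂ) (intg (μ := μ) hcc)
      rw [h3] at h4
      simpa [rf] using h4
    rw [h2, mul_zero]
  -- the polynomial of the projection has mean zero
  obtain ⟨B, hB⟩ := hb
  obtain ⟨B', hB'⟩ := hD
  have hD : Bd D := ⟨B', hB'⟩
  have hb : Bd (pr N U D x π τ) := ⟨B, hB⟩
  set C : ℝ := ∏ _d ∈ V, (1 + (|B| + |B'|) ^ 2) with hC
  have hC0 : ∀ W : Finset ℝ, W ⊆ V → ∏ _d ∈ W, (1 + (|B| + |B'|) ^ 2) ≤ C := by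
    intro W hW
    rw [hC]
    refine Finset.prod_le_prod_of_subset_of_one_le hW (fun d _ => by positivity) fun d _ _ => ?_
    nlinarith [sq_nonneg (|B| + |B'|)]
  set V' : Finset ℝ := V.filter (fun d => |d| ≤ |B'|) with hV'
  have hV'm : ∀ p, D p ∈ V' := fun p => by
    rw [hV', Finset.mem_filter]
    exact ⟨hV p, (hB' p).trans (le_abs_self _)⟩
  have hpt : ∀ p, ∏ d ∈ V', (pr N U D x π τ p - d) ^ 2 ≤
      C * (D p - pr N U D x π τ p) ^ 2 := by
    intro p
    rw [← Finset.mul_prod_erase V' _ (hV'm p), mul_comm]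
    have e1 : (pr N U D x π τ p - D p) ^ 2 = (D p - pr N U D x π τ p) ^ 2 := by ring
    rw [e1]
    refine mul_le_mul_of_nonneg_right ?_ (sq_nonneg _)
    refine le_trans ?_ (hC0 (V'.erase (D p))
      ((Finset.erase_subset _ _).trans (Finset.filter_subset _ _)))
    refine Finset.prod_le_prod (fun d _ => sq_nonneg _) fun d hd => ?_
    have h2 : |d| ≤ |B'| := (Finset.mem_filter.1 (Finset.mem_of_mem_erase hd)).2
    have h3 : |pr N U D x π τ p - d| ≤ |B| + |B'| :=
      (abs_sub _ _).trans (add_le_add ((hB p).trans (le_abs_self _)) h2)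
    have h4 : (pr N U D x π τ p - d) ^ 2 ≤ (|B| + |B'|) ^ 2 := by
      rw [← sq_abs]
      exact pow_le_pow_left₀ (abs_nonneg _) h3 2
    linarith
  have hbs := (hD.sub hb).sq
  have hbp : Bd fun p => ∏ d ∈ V', (pr N U D x π τ p - d) ^ 2 := by
    obtain ⟨E, hE⟩ := hbs
    refine ⟨C * E, fun p => ?_⟩
    rw [abs_of_nonneg (Finset.prod_nonneg fun d _ => sq_nonneg _)]
    refine (hpt p).trans (mul_le_mul_of_nonneg_left ((le_abs_self _).trans (hE p)) ?_)
    rw [hC]
    exact Finset.prod_nonneg fun d _ => by positivity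
  have h2 : (M N U fun p => ∏ d ∈ V', (pr N U D x π τ p - d) ^ 2) = 0 := by
    refine M_zero_of_le hN hU hbp (hbs.const_mul C)
      (fun p => Finset.prod_nonneg fun d _ => sq_nonneg _) hpt ?_
    rw [M_const_mul hN hU hbs, h1, mul_zero]
  simp only [hRe] at h2
  have h3 := Alg.zero_of_finite hN hU hpos hJ hA hc hint V' h2
  have h4 : ∀ p, pr N U D x π τ p = 0 := fun p => by rw [hRe, h3]
  simp only [h4, sub_zero] at h1
  exact hQ.ne' h1

end

/-- uniform versions of strict inequalities -/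
theorem unif_lt' {X : ℝ → ℝ} {Q : ℝ} (h : ∀ U : Ultrafilter ℝ, (U : Filter ℝ) ≤ 𝓝[>] 0 →
    ∃ r, Tendsto X U (𝓝 r) ∧ r < Q) : ∃ δ : ℝ, 0 < δ ∧ ∀ᶠ ε in 𝓝[>] (0 : ℝ), X ε ≤ Q - δ := by
  by_contra hcon
  push Not at hcon
  have h1 : ∀ n : ℕ, ∃ ε : ℝ, 0 < ε ∧ ε < 1 / ((n : ℝ) + 1) ∧ Q - 1 / ((n : ℝ) + 1) < X ε := by
    intro n
    have h2 := hcon (1 / ((n : ℝ) + 1)) (by positivity)
    have h3 : ∀ᶠ ε : ℝ in 𝓝[>] 0, 0 < ε ∧ ε < 1 / ((n : ℝ) + 1) := by
      filter_upwards [self_mem_nhdsWithin, (eventually_lt_nhds (show (0 : ℝ) < 1 / ((n : ℝ) + 1) by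
        positivity)).filter_mono nhdsWithin_le_nhds] with ε h4 h5
      exact ⟨h4, h5⟩
    obtain ⟨ε, h4, h5⟩ := (h2.and_eventually h3).exists
    exact ⟨ε, h5.1, h5.2, h4⟩
  choose e he1 he2 he3 using h1
  have h2 : Tendsto e atTop (𝓝[>] 0) := by
    rw [tendsto_nhdsWithin_iff]
    refine ⟨squeeze_zero (fun n => (he1 n).le) (fun n => (he2 n).le)
      tendsto_one_div_add_atTop_nhds_zero_nat, Filter.Eventually.of_forall he1⟩
  set V : Ultrafilter ℕ := Ultrafilter.of atTop with hV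
  have hV' : (V : Filter ℕ) ≤ atTop := Ultrafilter.of_le atTop
  obtain ⟨r, h3, h4⟩ := h (V.map e) (by
    rw [Ultrafilter.coe_map]
    exact (Filter.map_mono hV').trans h2)
  have h5 : Tendsto (fun n => X (e n)) V (𝓝 r) := by
    rw [Ultrafilter.coe_map, Filter.tendsto_map'_iff] at h3
    exact h3
  have h6 : Tendsto (fun n : ℕ => Q - 1 / ((n : ℝ) + 1)) V (𝓝 (Q - 0)) :=
    (tendsto_const_nhds.sub tendsto_one_div_add_atTop_nhds_zero_nat).mono_left hV'
  have h7 := le_of_tendsto_of_tendsto' h6 h5 fun n => (he3 n).le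
  linarith

end Pool.Agent.TH553.ST
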