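import Pool.Agent.TH553.ST.Bess

set_option autoImplicit false
set_option linter.unusedSectionVars false

/-!
# Traces of representations with intertwiners are combinations of irreducible characters
-/

namespace Pool.Agent.TH553.ST

open Complex Filter Topology ComplexConjugate
open scoped Matrix ComplexOrder

section

variable {G : Type} [Group G] [TopologicalSpace G]

/-- combinations of irreducible characters -/
def Dec (f : G → ℂ) : Prop := ∃ (J : Type) (_ : Fintype J) (m : J → ℕ)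
  (ρ : ∀ j, G →* Matrix.unitaryGroup (Fin (m j)) ℂ) (a : J → ℂ),
  (∀ j, Continuous (ρ j) ∧ Schur (ρ j)) ∧ ∀ g, f g = ∑ j, a j * chi (ρ j) g

theorem Dec.add {f f' : G → ℂ} (h : Dec f) (h' : Dec f') : Dec fun g => f g + f' g := by
  obtain ⟨J, _, m, ρ, a, h1, h2⟩ := h
  obtain ⟨J', _, m', ρ', a', h1', h2'⟩ := h'
  refine ⟨J ⊕ J', inferInstance, Sum.elim m m', fun j => match j with
    | Sum.inl j => ρ j
    | Sum.inr j => ρ' j, Sum.elim a a', ?_, fun g => ?_⟩
  · rintro (j | j)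
    · exact h1 j
    · exact h1' j
  · rw [Fintype.sum_sum_type]
    exact congrArg₂ (· + ·) (h2 g) (h2' g)

variable {ι : Type} [Fintype ι] [DecidableEq ι]

/-- only the scalars commute -/
def SchurG (π : G →* Matrix.unitaryGroup ι ℂ) : Prop :=
  ∀ A : Matrix ι ι ℂ, (∀ g, (π g : Matrix ι ι ℂ) * A = A * π g) → ∃ c : ℂ, A = c • (1 : Matrix ι ι ℂ)

theorem pi_starG {π : G →* Matrix.unitaryGroup ι ℂ} (g : G) :
    (π g : Matrix ι ι ℂ)ᴴ * (π g : Matrix ι ι ℂ) = 1 := Matrix.mem_unitaryGroup_iff'.1 (π g).2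

theorem pi_starG' {π : G →* Matrix.unitaryGroup ι ℂ} (g : G) :
    (π g : Matrix ι ι ℂ) * (π g : Matrix ι ι ℂ)ᴴ = 1 := Matrix.mem_unitaryGroup_iff.1 (π g).2

theorem pi_invG {π : G →* Matrix.unitaryGroup ι ℂ} (g : G) :
    (π g⁻¹ : Matrix ι ι ℂ) = (π g : Matrix ι ι ℂ)ᴴ := by
  rw [map_inv, ← Unitary.star_eq_inv, Unitary.coe_star]
  rfl

theorem pi_mulG {π : G →* Matrix.unitaryGroup ι ℂ} (g h : G) :
    (π (g * h) : Matrix ι ι ℂ) = (π g : Matrix ι ι ℂ) * (π h : Matrix ι ι ℂ) := by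
  rw [map_mul]
  rfl

/-- the adjoint commutes -/
theorem comm_adj {π : G →* Matrix.unitaryGroup ι ℂ} {A : Matrix ι ι ℂ}
    (h : ∀ g, (π g : Matrix ι ι ℂ) * A = A * π g) (g : G) : (π g : Matrix ι ι ℂ) * Aᴴ = Aᴴ * π g := by
  have h1 := congrArg Matrix.conjTranspose (h g⁻¹)
  rw [Matrix.conjTranspose_mul, Matrix.conjTranspose_mul, pi_invG,
    Matrix.conjTranspose_conjTranspose] at h1
  exact h1.symm

/-- reindexing a representation -/
noncomputable def ri {n : ℕ} (e : ι ≃ Fin n) (π : G →* Matrix.unitaryGroup ι ℂ) :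
    G →* Matrix.unitaryGroup (Fin n) ℂ where
  toFun g := ⟨(π g : Matrix ι ι ℂ).submatrix e.symm e.symm, by
    rw [Matrix.mem_unitaryGroup_iff]
    have h1 := Matrix.mem_unitaryGroup_iff.1 (π g).2
    have h2 : star ((π g : Matrix ι ι ℂ).submatrix e.symm e.symm) =
        (star (π g : Matrix ι ι ℂ)).submatrix e.symm e.symm := rfl
    rw [h2, Matrix.submatrix_mul_equiv, h1, Matrix.submatrix_one_equiv]⟩
  map_one' := by
    apply Subtype.ext
    change ((π 1 : Matrix.unitaryGroup ι ℂ) : Matrix ι ι ℂ).submatrix e.symm e.symm = 1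
    rw [map_one]
    exact Matrix.submatrix_one_equiv _
  map_mul' g h := by
    apply Subtype.ext
    change ((π (g * h) : Matrix.unitaryGroup ι ℂ) : Matrix ι ι ℂ).submatrix e.symm e.symm =
      (π g : Matrix ι ι ℂ).submatrix e.symm e.symm * (π h : Matrix ι ι ℂ).submatrix e.symm e.symm
    rw [Matrix.submatrix_mul_equiv, pi_mulG]

theorem ri_val {n : ℕ} (e : ι ≃ Fin n) (π : G →* Matrix.unitaryGroup ι ℂ) (g : G) :
    (ri e π g : Matrix (Fin n) (Fin n) ℂ) = (π g : Matrix ι ι ℂ).submatrix e.symm e.symm := rfl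

theorem chi_ri {n : ℕ} (e : ι ≃ Fin n) (π : G →* Matrix.unitaryGroup ι ℂ) (g : G) :
    chi (ri e π) g = (π g : Matrix ι ι ℂ).trace := by
  unfold chi
  rw [ri_val]
  exact Fintype.sum_equiv e.symm _ _ fun _ => rfl

theorem cont_ri {n : ℕ} (e : ι ≃ Fin n) {π : G →* Matrix.unitaryGroup ι ℂ} (h : Continuous π) :
    Continuous (ri e π) :=
  Continuous.subtype_mk ((continuous_subtype_val.comp h).matrix_submatrix _ _) _

theorem schur_ri {n : ℕ} (e : ι ≃ Fin n) {π : G →* Matrix.unitaryGroup ι ℂ} (h : SchurG π) :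
    Schur (ri e π) := by
  intro A hA
  obtain ⟨c, hc⟩ := h (A.submatrix e e) fun g => by
    have h1 := congrArg (fun X : Matrix (Fin n) (Fin n) ℂ => X.submatrix e e) (hA g)
    simp only [ri_val] at h1
    have h2 : (π g : Matrix ι ι ℂ) = ((π g : Matrix ι ι ℂ).submatrix e.symm e.symm).submatrix e e := by
      ext i j
      simp
    rw [h2, Matrix.submatrix_mul_equiv, Matrix.submatrix_mul_equiv]
    exact h1
  refine ⟨c, ?_⟩
  have h3 : A = (A.submatrix e e).submatrix e.symm e.symm := by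
    ext i j
    simp
  rw [h3, hc]
  ext i j
  by_cases hij : i = j <;> simp [hij]

/-- change of basis -/
noncomputable def cb (u : Matrix.unitaryGroup ι ℂ) (π : G →* Matrix.unitaryGroup ι ℂ) :
    G →* Matrix.unitaryGroup ι ℂ where
  toFun g := u⁻¹ * π g * u
  map_one' := by simp
  map_mul' g h := by
    rw [map_mul]
    group

theorem cont_cb (u : Matrix.unitaryGroup ι ℂ) {π : G →* Matrix.unitaryGroup ι ℂ}
    (h : Continuous π) : Continuous (cb u π) :=
  (continuous_const.mul h).mul continuous_const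

/-- the restriction to a block -/
noncomputable def bl (p : ι → Prop) [DecidablePred p] (π : G →* Matrix.unitaryGroup ι ℂ)
    (h : ∀ g i j, ¬ (p i ↔ p j) → (π g : Matrix ι ι ℂ) i j = 0) :
    G →* Matrix.unitaryGroup {i // p i} ℂ where
  toFun g := ⟨(π g : Matrix ι ι ℂ).submatrix Subtype.val Subtype.val, by
    rw [Matrix.mem_unitaryGroup_iff]
    ext i j
    have h1 := congrFun (congrFun (Matrix.mem_unitaryGroup_iff.1 (π g).2) i.1) j.1
    rw [Matrix.mul_apply] at h1 ⊢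
    have h2 : ∑ k, (π g : Matrix ι ι ℂ) i.1 k * star (π g : Matrix ι ι ℂ) k j.1 =
        ∑ k : {i // p i}, (π g : Matrix ι ι ℂ) i.1 k.1 * star (π g : Matrix ι ι ℂ) k.1 j.1 := by
      rw [← Fintype.sum_subtype_add_sum_subtype p]
      have h3 : ∑ k : {k // ¬ p k}, (π g : Matrix ι ι ℂ) i.1 k.1 *
          star (π g : Matrix ι ι ℂ) k.1 j.1 = 0 := by
        refine Finset.sum_eq_zero fun k _ => ?_
        rw [h g i.1 k.1 (fun hh => k.2 (hh.1 i.2)), zero_mul]
      rw [h3, add_zero]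
    rw [h2] at h1
    refine Eq.trans ?_ (h1.trans ?_)
    · rfl
    · simp only [Matrix.one_apply, Subtype.ext_iff]⟩
  map_one' := by
    apply Subtype.ext
    ext i j
    change ((π 1 : Matrix.unitaryGroup ι ℂ) : Matrix ι ι ℂ) i.1 j.1 = _
    rw [map_one]
    change (1 : Matrix ι ι ℂ) i.1 j.1 = (1 : Matrix {i // p i} {i // p i} ℂ) i j
    simp only [Matrix.one_apply, Subtype.ext_iff]
  map_mul' g g' := by
    apply Subtype.ext
    ext i j
    change ((π (g * g') : Matrix.unitaryGroup ι ℂ) : Matrix ι ι ℂ) i.1 j.1 =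
      ((π g : Matrix ι ι ℂ).submatrix Subtype.val Subtype.val *
        (π g' : Matrix ι ι ℂ).submatrix Subtype.val Subtype.val :
          Matrix {i // p i} {i // p i} ℂ) i j
    rw [pi_mulG, Matrix.mul_apply, Matrix.mul_apply, ← Fintype.sum_subtype_add_sum_subtype p]
    have h3 : ∑ k : {k // ¬ p k}, (π g : Matrix ι ι ℂ) i.1 k.1 *
        (π g' : Matrix ι ι ℂ) k.1 j.1 = 0 := by
      refine Finset.sum_eq_zero fun k _ => ?_
      rw [h g i.1 k.1 (fun hh => k.2 (hh.1 i.2)), zero_mul]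
    rw [h3, add_zero]
    rfl

theorem bl_val (p : ι → Prop) [DecidablePred p] (π : G →* Matrix.unitaryGroup ι ℂ)
    (h : ∀ g i j, ¬ (p i ↔ p j) → (π g : Matrix ι ι ℂ) i j = 0) (g : G) :
    (bl p π h g : Matrix {i // p i} {i // p i} ℂ) =
      (π g : Matrix ι ι ℂ).submatrix Subtype.val Subtype.val := rfl

theorem cont_bl (p : ι → Prop) [DecidablePred p] {π : G →* Matrix.unitaryGroup ι ℂ}
    (h : ∀ g i j, ¬ (p i ↔ p j) → (π g : Matrix ι ι ℂ) i j = 0) (hc : Continuous π) :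
    Continuous (bl p π h) :=
  Continuous.subtype_mk ((continuous_subtype_val.comp hc).matrix_submatrix _ _) _

theorem comm_bl (p : ι → Prop) [DecidablePred p] {π : G →* Matrix.unitaryGroup ι ℂ}
    (h : ∀ g i j, ¬ (p i ↔ p j) → (π g : Matrix ι ι ℂ) i j = 0) {A : Matrix ι ι ℂ}
    (hA : ∀ g, (π g : Matrix ι ι ℂ) * A = A * π g) (g : G) :
    (bl p π h g : Matrix {i // p i} {i // p i} ℂ) * A.submatrix Subtype.val Subtype.val =
      A.submatrix Subtype.val Subtype.val * (bl p π h g : Matrix {i // p i} {i // p i} ℂ) := by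
  ext i j
  have h1 := congrFun (congrFun (hA g) i.1) j.1
  rw [Matrix.mul_apply, Matrix.mul_apply, ← Fintype.sum_subtype_add_sum_subtype p,
    ← Fintype.sum_subtype_add_sum_subtype p (fun k => A i.1 k * (π g : Matrix ι ι ℂ) k j.1)] at h1
  have h3 : ∑ k : {k // ¬ p k}, (π g : Matrix ι ι ℂ) i.1 k.1 * A k.1 j.1 = 0 := by
    refine Finset.sum_eq_zero fun k _ => ?_
    rw [h g i.1 k.1 (fun hh => k.2 (hh.1 i.2)), zero_mul]
  have h4 : ∑ k : {k // ¬ p k}, A i.1 k.1 * (π g : Matrix ι ι ℂ) k.1 j.1 = 0 := by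
    refine Finset.sum_eq_zero fun k _ => ?_
    rw [h g k.1 j.1 (fun hh => k.2 (hh.2 j.2)), mul_zero]
  rw [h3, h4, add_zero, add_zero] at h1
  rw [Matrix.mul_apply, Matrix.mul_apply]
  exact h1

/-- the trace splits -/
theorem trace_bl (p : ι → Prop) [DecidablePred p] {π : G →* Matrix.unitaryGroup ι ℂ}
    (h : ∀ g i j, ¬ (p i ↔ p j) → (π g : Matrix ι ι ℂ) i j = 0)
    (h' : ∀ g i j, ¬ (¬ p i ↔ ¬ p j) → (π g : Matrix ι ι ℂ) i j = 0)
    (A : Matrix ι ι ℂ) (g : G) : (A * (π g : Matrix ι ι ℂ)).trace =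
      (A.submatrix Subtype.val Subtype.val * (bl p π h g : Matrix {i // p i} {i // p i} ℂ)).trace +
      (A.submatrix Subtype.val Subtype.val *
        (bl (fun i => ¬ p i) π h' g : Matrix {i // ¬ p i} {i // ¬ p i} ℂ)).trace := by
  unfold Matrix.trace
  simp only [Matrix.diag_apply]
  rw [← Fintype.sum_subtype_add_sum_subtype p]
  congr 1
  · refine Finset.sum_congr rfl fun i _ => ?_
    rw [Matrix.mul_apply, Matrix.mul_apply, ← Fintype.sum_subtype_add_sum_subtype p]
    have h4 : ∑ k : {k // ¬ p k}, A i.1 k.1 * (π g : Matrix ι ι ℂ) k.1 i.1 = 0 := by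
      refine Finset.sum_eq_zero fun k _ => ?_
      rw [h g k.1 i.1 (fun hh => k.2 (hh.2 i.2)), mul_zero]
    rw [h4, add_zero]
    rfl
  · refine Finset.sum_congr rfl fun i _ => ?_
    rw [Matrix.mul_apply, Matrix.mul_apply, ← Fintype.sum_subtype_add_sum_subtype p]
    have h4 : ∑ k : {k // p k}, A i.1 k.1 * (π g : Matrix ι ι ℂ) k.1 i.1 = 0 := by
      refine Finset.sum_eq_zero fun k _ => ?_
      rw [h g k.1 i.1 (fun hh => i.2 (hh.1 k.2)), mul_zero]
    rw [h4, zero_add]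
    rfl

end

end Pool.Agent.TH553.ST
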