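import Pool.Agent.TH553.ST.Dec

set_option autoImplicit false
set_option linter.unusedSectionVars false

/-!
# Traces of representations with intertwiners are combinations of irreducible characters, the proof
-/

namespace Pool.Agent.TH553.ST

open Complex Filter Topology ComplexConjugate
open scoped Matrix ComplexOrder

section

variable {G : Type} [Group G] [TopologicalSpace G]

theorem exists_herm {ι : Type} [Fintype ι] [DecidableEq ι] {π : G →* Matrix.unitaryGroup ι ℂ}
    (h : ¬ SchurG π) : ∃ H : Matrix ι ι ℂ, H.IsHermitian ∧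
      (∀ g, (π g : Matrix ι ι ℂ) * H = H * π g) ∧ ∀ c : ℂ, H ≠ c • (1 : Matrix ι ι ℂ) := by
  unfold SchurG at h
  push Not at h
  obtain ⟨B, hB, hB'⟩ := h
  have hBa := comm_adj hB
  by_cases h1 : ∀ c : ℂ, B + Bᴴ ≠ c • (1 : Matrix ι ι ℂ)
  · refine ⟨B + Bᴴ, ?_, fun g => ?_, h1⟩
    · rw [Matrix.IsHermitian, Matrix.conjTranspose_add, Matrix.conjTranspose_conjTranspose,
        add_comm]
    · rw [Matrix.mul_add, Matrix.add_mul, hB, hBa]
  · push Not at h1
    obtain ⟨c, hc⟩ := h1
    refine ⟨I • (B - Bᴴ), ?_, fun g => ?_, fun c' hc' => ?_⟩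
    · rw [Matrix.IsHermitian, Matrix.conjTranspose_smul, Matrix.conjTranspose_sub,
        Matrix.conjTranspose_conjTranspose]
      have : star I = -I := Complex.conj_I
      rw [this, neg_smul, ← smul_neg, neg_sub]
    · rw [Matrix.mul_smul, Matrix.smul_mul, Matrix.mul_sub, Matrix.sub_mul, hB, hBa]
    · refine hB' ((1 / 2 : ℂ) * (c - I * c')) ?_
      have h2 : B - Bᴴ = (-I * c') • (1 : Matrix ι ι ℂ) := by
        have h3 := congrArg (fun X : Matrix ι ι ℂ => (-I) • X) hc'
        simp only [smul_smul] at h3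
        rw [neg_mul, Complex.I_mul_I, neg_neg, one_smul] at h3
        exact h3
      have h4 : B = (1 / 2 : ℂ) • ((B + Bᴴ) + (B - Bᴴ)) := by
        have : (B + Bᴴ) + (B - Bᴴ) = (2 : ℂ) • B := by
          rw [two_smul]
          abel
        rw [this, smul_smul]
        norm_num
      calc B = (1 / 2 : ℂ) • ((B + Bᴴ) + (B - Bᴴ)) := h4
        _ = (1 / 2 : ℂ) • (c • (1 : Matrix ι ι ℂ) + (-I * c') • (1 : Matrix ι ι ℂ)) := by
          rw [hc, h2]
        _ = _ := by
          rw [← add_smul, smul_smul]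
          congr 1
          ring

/-- **The decomposition.** -/
theorem dec_of_comm : ∀ (N : ℕ) (ι : Type) [Fintype ι] [DecidableEq ι], Fintype.card ι < N →
    ∀ (π : G →* Matrix.unitaryGroup ι ℂ), Continuous π → ∀ A : Matrix ι ι ℂ,
      (∀ g, (π g : Matrix ι ι ℂ) * A = A * π g) → Dec fun g => (A * (π g : Matrix ι ι ℂ)).trace := by
  intro N
  induction N with
  | zero =>
    intro ι _ _ h
    exact absurd h (Nat.not_lt_zero _)
  | succ N ih =>
    intro ι _ _ hcard π hπ A hA
    classical
    by_cases hS : SchurG π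
    · obtain ⟨c, hc⟩ := hS A hA
      refine ⟨Unit, inferInstance, fun _ => Fintype.card ι, fun _ => ri (Fintype.equivFin ι) π,
        fun _ => c, fun _ => ⟨cont_ri _ hπ, schur_ri _ hS⟩, fun g => ?_⟩
      simp only [Finset.univ_unique, Finset.sum_singleton]
      rw [chi_ri, hc, Matrix.smul_mul, Matrix.one_mul, Matrix.trace_smul, smul_eq_mul]
    · obtain ⟨H, hH, hHc, hHn⟩ := exists_herm hS
      set u := hH.eigenvectorUnitary with hu
      set lam := hH.eigenvalues with hlam
      have hdiag : (u : Matrix ι ι ℂ)ᴴ * H * (u : Matrix ι ι ℂ) =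
          Matrix.diagonal (fun i => (lam i : ℂ)) := by
        have h1 := hH.conjStarAlgAut_star_eigenvectorUnitary
        rw [Unitary.conjStarAlgAut_star_apply] at h1
        exact h1
      have huu : (u : Matrix ι ι ℂ) * (u : Matrix ι ι ℂ)ᴴ = 1 := Matrix.mem_unitaryGroup_iff.1 u.2
      have huu' : (u : Matrix ι ι ℂ)ᴴ * (u : Matrix ι ι ℂ) = 1 := Matrix.mem_unitaryGroup_iff'.1 u.2
      have hcb : ∀ g, (cb u π g : Matrix ι ι ℂ) =
          (u : Matrix ι ι ℂ)ᴴ * (π g : Matrix ι ι ℂ) * (u : Matrix ι ι ℂ) := by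
        intro g
        change ((u⁻¹ * π g * u : Matrix.unitaryGroup ι ℂ) : Matrix ι ι ℂ) = _
        rw [← Unitary.star_eq_inv]
        rfl
      have hconj : ∀ X Y : Matrix ι ι ℂ, ((u : Matrix ι ι ℂ)ᴴ * X * (u : Matrix ι ι ℂ)) *
          ((u : Matrix ι ι ℂ)ᴴ * Y * (u : Matrix ι ι ℂ)) =
          (u : Matrix ι ι ℂ)ᴴ * (X * Y) * (u : Matrix ι ι ℂ) := by
        intro X Y
        calc ((u : Matrix ι ι ℂ)ᴴ * X * (u : Matrix ι ι ℂ)) *
            ((u : Matrix ι ι ℂ)ᴴ * Y * (u : Matrix ι ι ℂ)) =
            (u : Matrix ι ι ℂ)ᴴ * X * ((u : Matrix ι ι ℂ) * (u : Matrix ι ι ℂ)ᴴ) * Y *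
              (u : Matrix ι ι ℂ) := by simp only [Matrix.mul_assoc]
          _ = _ := by
            rw [huu, Matrix.mul_one]
            simp only [Matrix.mul_assoc]
      -- two different eigenvalues
      have hne : ∃ i₀ j₀, lam i₀ ≠ lam j₀ := by
        by_contra hcon
        push Not at hcon
        by_cases hem : Nonempty ι
        · obtain ⟨i₀⟩ := hem
          refine hHn (lam i₀ : ℂ) ?_
          have h1 : Matrix.diagonal (fun i => (lam i : ℂ)) = (lam i₀ : ℂ) • (1 : Matrix ι ι ℂ) := by
            ext i j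
            rw [Matrix.diagonal_apply, Matrix.smul_apply, Matrix.one_apply, hcon i i₀]
            split_ifs <;> simp
          rw [h1] at hdiag
          calc H = ((u : Matrix ι ι ℂ) * (u : Matrix ι ι ℂ)ᴴ) * H *
                ((u : Matrix ι ι ℂ) * (u : Matrix ι ι ℂ)ᴴ) := by rw [huu]; simp
            _ = (u : Matrix ι ι ℂ) * ((u : Matrix ι ι ℂ)ᴴ * H * (u : Matrix ι ι ℂ)) *
                (u : Matrix ι ι ℂ)ᴴ := by simp only [Matrix.mul_assoc]
            _ = _ := by
              rw [hdiag, Matrix.mul_smul, Matrix.mul_one, Matrix.smul_mul, huu]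
        · rw [not_nonempty_iff] at hem
          exact hHn 0 (by
            ext i
            exact (hem.false i).elim)
      obtain ⟨i₀, j₀, hij⟩ := hne
      set p : ι → Prop := fun i => lam i = lam i₀ with hp
      have hcomm : ∀ g i j, lam i ≠ lam j → (cb u π g : Matrix ι ι ℂ) i j = 0 := by
        intro g i j hne
        have h1 : (cb u π g : Matrix ι ι ℂ) * Matrix.diagonal (fun i => (lam i : ℂ)) =
            Matrix.diagonal (fun i => (lam i : ℂ)) * (cb u π g : Matrix ι ι ℂ) := by
          rw [hcb, ← hdiag, hconj, hconj, hHc]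
        have h2 := congrFun (congrFun h1 i) j
        rw [Matrix.mul_diagonal, Matrix.diagonal_mul] at h2
        have h3 : ((lam i : ℂ) - (lam j : ℂ)) * (cb u π g : Matrix ι ι ℂ) i j = 0 := by
          linear_combination -h2
        rcases mul_eq_zero.1 h3 with h4 | h4
        · exfalso
          apply hne
          have : (lam i : ℂ) = (lam j : ℂ) := by linear_combination h4
          exact_mod_cast this
        · exact h4
      have hb : ∀ g i j, ¬ (p i ↔ p j) → (cb u π g : Matrix ι ι ℂ) i j = 0 := by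
        intro g i j hn
        refine hcomm g i j fun h => hn ?_
        rw [hp]
        simp only
        rw [h]
      have hb' : ∀ g i j, ¬ (¬ p i ↔ ¬ p j) → (cb u π g : Matrix ι ι ℂ) i j = 0 := by
        intro g i j hn
        exact hb g i j fun h => hn (not_congr h)
      set A' : Matrix ι ι ℂ := (u : Matrix ι ι ℂ)ᴴ * A * (u : Matrix ι ι ℂ) with hA'
      have hA'c : ∀ g, (cb u π g : Matrix ι ι ℂ) * A' = A' * (cb u π g : Matrix ι ι ℂ) := by
        intro g
        rw [hcb, hA', hconj, hconj, hA]
      have htr : ∀ g, (A * (π g : Matrix ι ι ℂ)).trace = (A' * (cb u π g : Matrix ι ι ℂ)).trace := by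
        intro g
        rw [hcb, hA', hconj, Matrix.trace_mul_comm ((u : Matrix ι ι ℂ)ᴴ * (A * (π g : Matrix ι ι ℂ)))
          (u : Matrix ι ι ℂ), ← Matrix.mul_assoc, huu, Matrix.one_mul]
      have hc' := cont_cb u hπ
      have hc1 : Fintype.card {i // p i} < N := by
        have h1 : Fintype.card {i // p i} < Fintype.card ι :=
          Fintype.card_subtype_lt (x := j₀) fun h => hij h.symm
        omega
      have hc2 : Fintype.card {i // ¬ p i} < N := by
        have h1 : Fintype.card {i // ¬ p i} < Fintype.card ι :=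
          Fintype.card_subtype_lt (x := i₀) fun h => h rfl
        omega
      have d1 := ih {i // p i} hc1 (bl p (cb u π) hb) (cont_bl p hb hc')
        (A'.submatrix Subtype.val Subtype.val) (comm_bl p hb hA'c)
      have d2 := ih {i // ¬ p i} hc2 (bl (fun i => ¬ p i) (cb u π) hb')
        (cont_bl (fun i => ¬ p i) hb' hc') (A'.submatrix Subtype.val Subtype.val)
        (comm_bl (fun i => ¬ p i) hb' hA'c)
      have e : (fun g => (A * (π g : Matrix ι ι ℂ)).trace) = fun g =>
          (A'.submatrix Subtype.val Subtype.val *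
            (bl p (cb u π) hb g : Matrix {i // p i} {i // p i} ℂ)).trace +
          (A'.submatrix Subtype.val Subtype.val *
            (bl (fun i => ¬ p i) (cb u π) hb' g : Matrix {i // ¬ p i} {i // ¬ p i} ℂ)).trace := by
        funext g
        rw [htr, trace_bl p hb hb']
      rw [e]
      exact d1.add d2

end

end Pool.Agent.TH553.ST
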