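import Pool.Agent.TH553.ST.Joint
import Pool.Agent.TH553.ST.Bess2
import Pool.Agent.TH553.RS.NF

set_option autoImplicit false
set_option linter.unusedSectionVars false

/-!
# Equidistribution over a field and over its extensions: the means
-/

namespace Pool.Agent.TH553.ST

open Complex Filter Topology ComplexConjugate NumberField IsDedekindDomain MeasureTheory
  Pool.Agent.W540.BE Pool.Agent.TH553.RS Pool.Agent.H341R2 Pool.Agent.W353.TP
open Pool.Agent.H921R2.TatePole (nm_eq kerPrime below deg C0)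
open scoped TensorProduct

section

variable {P : Type*} {N : P → ℕ} {U : Ultrafilter ℝ}

/-- functions that agree outside a finite set have the same mean -/
theorem M_congr_fin (hN : Sys N) (hU : (U : Filter ℝ) ≤ 𝓝[>] 0) {φ ψ : P → ℝ} (hφ : Bd φ)
    (hψ : Bd ψ) (h : {p | φ p ≠ ψ p}.Finite) : M N U φ = M N U ψ := by
  classical
  have hd := hφ.sub hψ
  have key : Tendsto (qt N fun p => φ p - ψ p) (𝓝[>] 0) (𝓝 0) := by
    have h1 : ∀ᶠ ε : ℝ in 𝓝[>] 0, |qt N (fun p => φ p - ψ p) ε| ≤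
        (∑ p ∈ h.toFinset, |φ p - ψ p|) / lam ε := by
      filter_upwards [self_mem_nhdsWithin, lam_tendsto.eventually_gt_atTop 0] with ε hε hl
      have hε' : (0 : ℝ) < ε := hε
      unfold qt
      rw [abs_div, abs_of_pos hl]
      refine div_le_div_of_nonneg_right ?_ hl.le
      unfold EP
      rw [tsum_eq_sum (s := h.toFinset) (fun p hp => by
        have : φ p = ψ p := by
          by_contra hne
          exact hp ((Set.Finite.mem_toFinset h).2 hne)
        simp only [this, sub_self, zero_mul])]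
      refine (Finset.abs_sum_le_sum_abs _ _).trans (Finset.sum_le_sum fun p _ => ?_)
      rw [abs_mul]
      refine mul_le_of_le_one_right (abs_nonneg _) ?_
      have hp2 : (1 : ℝ) ≤ (N p : ℝ) := by
        have := hN.sys.two_le p
        exact_mod_cast (by omega : 1 ≤ N p)
      rw [abs_of_nonneg (by positivity)]
      exact Real.rpow_le_one_of_one_le_of_nonpos hp2 (by linarith)
    have h2 : Tendsto (fun ε => (∑ p ∈ h.toFinset, |φ p - ψ p|) / lam ε) (𝓝[>] 0) (𝓝 0) :=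
      Tendsto.div_atTop tendsto_const_nhds lam_tendsto
    exact squeeze_zero_norm' h1 h2
  have h3 := M_of_tendsto hU key
  rw [M_sub hN hU hφ hψ] at h3
  linarith

end

section

variable {K : Type} [Field K] [NumberField K]

/-- the prime ideal of a homomorphism to a prime field -/
noncomputable def kr (u : HX K) : HeightOneSpectrum (𝓞 K) := (kerPrime u.1 u.2).1.1

theorem nm_kr (u : HX K) : nm K (kr u) = (u.1 : ℕ) := by
  have h1 := (nm_eq (kerPrime u.1 u.2).1.1).1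
  rw [(kerPrime u.1 u.2).1.2, (kerPrime u.1 u.2).2, pow_one] at h1
  exact h1

theorem NH_pos (u : HX K) : 0 < NH K u := u.1.2.pos

variable {U : Ultrafilter ℝ} (hU : (U : Filter ℝ) ≤ 𝓝[>] 0)

include hU in
theorem M_kr {g : HeightOneSpectrum (𝓞 K) → ℝ} (hg : Bd g) :
    M (NH K) U (fun u => g (kr u)) = M (nm K) U g := by
  obtain ⟨C, hC⟩ := hg
  have hg : Bd g := ⟨C, hC⟩
  have h1 : Tendsto (fun ε => qt (nm K) g ε - qt (NH K) (fun u => g (kr u)) ε) (𝓝[>] 0) (𝓝 0) := by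
    have h2 : Tendsto (fun ε => (C * Module.finrank ℚ K * C0) / lam ε) (𝓝[>] 0) (𝓝 0) :=
      Tendsto.div_atTop tendsto_const_nhds lam_tendsto
    refine squeeze_zero_norm' ?_ h2
    filter_upwards [self_mem_nhdsWithin, lam_tendsto.eventually_gt_atTop 0] with ε hε hl
    have hε' : (0 : ℝ) < ε := hε
    have h3 := E_H hC hε'
    unfold qt
    rw [← sub_div, norm_div, Real.norm_eq_abs, Real.norm_eq_abs, abs_of_pos hl]
    exact div_le_div_of_nonneg_right h3 hl.le
  refine M_eq ?_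
  have h2 := (M_lim (sysF K) hU hg).sub (h1.mono_left hU)
  rw [sub_zero] at h2
  exact h2.congr fun ε => by ring

end

section

variable {K : Type} [Field K] [NumberField K]
variable {G : Type} [Group G] [TopologicalSpace G] [IsTopologicalGroup G] [CompactSpace G]
  [MeasurableSpace G] [BorelSpace G] {μ : Measure G} [IsProbabilityMeasure μ] [μ.IsHaarMeasure]
  {x : HeightOneSpectrum (𝓞 K) → G}

theorem her_real {f : G → ℂ} (hf : Her f) : ∫ g, f g ∂μ = (((∫ g, f g ∂μ).re : ℝ) : ℂ) := by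
  have h1 := int_inv (μ := μ) hf.cont
  simp only [hf.inv] at h1
  have h2 : ∫ g, conj (f g) ∂μ = conj (∫ g, f g ∂μ) := integral_conj
  rw [h2] at h1
  exact (Complex.conj_eq_iff_re.1 h1).symm

variable {U : Ultrafilter ℝ} (hU : (U : Filter ℝ) ≤ 𝓝[>] 0)

include hU in
theorem jl_of_law (hx : Law x μ) : JL (nm K) U x μ := by
  intro f hf σ
  have h1 := law_c hx hf.cont hf.cls
  rw [her_real hf] at h1
  obtain ⟨C, hC⟩ := (isCompact_univ (X := G)).exists_bound_of_continuousOn hf.cont.continuousOn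
  exact M_of_tendsto hU (mean_edge (g := fun v => f (x v)) (B := C)
    (fun v => hC _ (Set.mem_univ _)) _ (mn_tendsto h1) σ)

theorem nm_kr_cpow (u : HX K) (s : ℂ) :
    ((nm K (kr u) : ℕ) : ℂ) ^ s = ((NH K u : ℕ) : ℂ) ^ s := by
  rw [nm_kr]
  rfl

include hU in
theorem jl_kr (hJ : JL (nm K) U x μ) : JL (NH K) U (fun u => x (kr u)) μ := by
  intro f hf σ
  rw [← hJ f hf σ, ← M_kr hU (bd_her (N := nm K) (x := x) hf.cont nm_pos σ).re]
  congr 1
  funext u
  rw [nm_kr_cpow]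

variable {F : Type} [Field F] [NumberField F] [Algebra K F] {y : HeightOneSpectrum (𝓞 F) → G}

/-- the number of extensions of a homomorphism -/
noncomputable def cnt (K F : Type) [Field K] [NumberField K] [Field F] [NumberField F]
    [Algebra K F] (u : HX K) : ℝ := push K (fun _ : HX F => (1 : ℝ)) u

theorem cnt_nat (u : HX K) : ∃ m : ℕ, m < Module.finrank ℚ F + 1 ∧ cnt K F u = m := by
  classical
  refine ⟨(Finset.univ.filter (fun ψ : 𝓞 F →+* ZMod (u.1 : ℕ) => res K ψ = u.2)).card, ?_, ?_⟩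
  · refine Nat.lt_succ_of_le ((Finset.card_filter_le _ _).trans ?_)
    rw [Finset.card_univ]
    exact card_hom_le u.1
  · unfold cnt push
    rw [Finset.sum_const, nsmul_eq_mul, mul_one]

theorem bd_cnt : Bd (cnt K F) := by
  refine ⟨Module.finrank ℚ F, fun u => ?_⟩
  obtain ⟨m, h1, h2⟩ := cnt_nat (K := K) (F := F) u
  rw [h2, abs_of_nonneg (Nat.cast_nonneg _)]
  exact_mod_cast Nat.lt_succ_iff.1 h1

/-- base change -/
def BC (x : HeightOneSpectrum (𝓞 K) → G) (y : HeightOneSpectrum (𝓞 F) → G) : Prop :=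
  ∃ S : Finset (HeightOneSpectrum (𝓞 F)), ∀ w, w ∉ S → ∀ v : HeightOneSpectrum (𝓞 K),
    w.asIdeal.comap (algebraMap (𝓞 K) (𝓞 F)) = v.asIdeal →
    Ideal.absNorm w.asIdeal = Ideal.absNorm v.asIdeal → ∃ h : G, y w = h * x v * h⁻¹

/-- the restriction -/
noncomputable def rs (K : Type) {F : Type} [Field K] [NumberField K] [Field F] [NumberField F]
    [Algebra K F] (ψ : HX F) : HX K := ⟨ψ.1, res K ψ.2⟩

theorem fin_kr (S : Finset (HeightOneSpectrum (𝓞 F))) : {ψ : HX F | kr ψ ∈ S}.Finite := by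
  classical
  have h1 : {ψ : HX F | kr ψ ∈ S} ⊆ ⋃ w ∈ S, (Sigma.mk (below w)) ''
      (Set.univ : Set (𝓞 F →+* ZMod ((below w : Nat.Primes) : ℕ))) := by
    intro ψ hψ
    have h2 : below (kr ψ) = ψ.1 := (kerPrime ψ.1 ψ.2).1.2
    refine Set.mem_biUnion (x := kr ψ) hψ ?_
    obtain ⟨p, φ⟩ := ψ
    simp only at h2
    rw [h2]
    exact ⟨φ, Set.mem_univ _, rfl⟩
  exact (Set.Finite.biUnion S.finite_toSet fun w _ => (Set.finite_univ).image _).subset h1

theorem kr_agree (hbc : BC x y) : {ψ : HX F | ¬ ∃ h : G,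
    y (kr ψ) = h * x (kr (rs K ψ)) * h⁻¹}.Finite := by
  obtain ⟨S, hS⟩ := hbc
  refine (fin_kr S).subset fun ψ hψ => ?_
  by_contra hcon
  refine hψ (hS _ hcon _ ?_ ?_)
  · ext z
    rfl
  · have h1 := nm_kr ψ
    have h2 := nm_kr (rs K ψ)
    exact h1.trans h2.symm

include hU in
/-- the mean over the extension is a weighted mean over the field -/
theorem M_bc (hbc : BC x y) {f : G → ℂ} (hf : Her f) (σ : ℝ) :
    (M (nm F) U fun w => (f (y w) * ((nm F w : ℕ) : ℂ) ^ (-(σ * I : ℂ))).re) =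
      M (NH K) U fun u => (f (x (kr u)) * ((NH K u : ℕ) : ℂ) ^ (-(σ * I : ℂ))).re * cnt K F u := by
  classical
  have hb1 := (bd_her (N := nm F) (x := y) hf.cont nm_pos σ).re
  rw [← M_kr hU hb1]
  have hb2 : Bd fun ψ : HX F =>
      (f (x (kr (rs K ψ))) * ((NH F ψ : ℕ) : ℂ) ^ (-(σ * I : ℂ))).re :=
    (bd_her (N := NH F) (x := fun ψ => x (kr (rs K ψ))) hf.cont NH_pos σ).re
  have h1 : (M (NH F) U fun ψ => (f (y (kr ψ)) * ((nm F (kr ψ) : ℕ) : ℂ) ^ (-(σ * I : ℂ))).re) =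
      M (NH F) U fun ψ => (f (x (kr (rs K ψ))) * ((NH F ψ : ℕ) : ℂ) ^ (-(σ * I : ℂ))).re := by
    have hb3 : Bd fun ψ : HX F =>
        (f (y (kr ψ)) * ((nm F (kr ψ) : ℕ) : ℂ) ^ (-(σ * I : ℂ))).re := by
      obtain ⟨B, hB⟩ := hb1
      exact ⟨B, fun ψ => hB (kr ψ)⟩
    refine M_congr_fin (sysHS F) hU hb3 hb2 ((kr_agree hbc).subset fun ψ hψ h => hψ ?_)
    obtain ⟨k, hk⟩ := h
    rw [nm_kr_cpow, hk, hf.cls]
  rw [h1]
  obtain ⟨B, hB⟩ := hb2
  have h2 : (fun u : HX K => (f (x (kr u)) * ((NH K u : ℕ) : ℂ) ^ (-(σ * I : ℂ))).re *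
      cnt K F u) = push K fun ψ : HX F =>
        (f (x (kr (rs K ψ))) * ((NH F ψ : ℕ) : ℂ) ^ (-(σ * I : ℂ))).re := by
    funext u
    unfold cnt push
    rw [Finset.mul_sum]
    refine Finset.sum_congr rfl fun ψ hψ => ?_
    have h3 := (Finset.mem_filter.1 hψ).2
    rw [mul_one]
    have h4 : rs K (⟨u.1, ψ⟩ : HX F) = u := by
      unfold rs
      simp only at h3 ⊢
      rw [h3]
    change _ = (f (x (kr (rs K (⟨u.1, ψ⟩ : HX F)))) *
      ((NH F (⟨u.1, ψ⟩ : HX F) : ℕ) : ℂ) ^ (-(σ * I : ℂ))).re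
    rw [h4]
    rfl
  rw [h2]
  refine M_eq ?_
  have h3 := M_lim (sysHS K) hU (φ := push K fun ψ : HX F =>
    (f (x (kr (rs K ψ))) * ((NH F ψ : ℕ) : ℂ) ^ (-(σ * I : ℂ))).re)
    ⟨Module.finrank ℚ F * B, push_abs_le hB⟩
  refine h3.congr' ?_
  filter_upwards [pos_of_le hU] with ε hε
  unfold qt
  have h4 := EH_push (K := K) hε.1 hB
  congr 1
  exact h4.symm

end

section

variable {K F : Type} [Field K] [NumberField K] [Field F] [NumberField F] [Algebra K F]
  {F' : Type} [Field F'] [NumberField F'] [Algebra K F']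

theorem qh_one' (x : HX F) : qh (1 : 𝓞 F) x = 1 := by
  have : Fact (x.1 : ℕ).Prime := ⟨x.1.2⟩
  have h := qh_eq (1 : 𝓞 F) x.1 x.2
  have h2 : qh (1 : 𝓞 F) x = qh (1 : 𝓞 F) ⟨x.1, x.2⟩ := rfl
  rw [h2, h, map_one, map_one]
  norm_num

theorem cnt_uq (u : HX K) : cnt K F u = uq K (1 : 𝓞 F) 0 u := by
  rw [uq_zero]
  unfold cnt
  congr 1
  funext y
  exact (qh_one' y).symm

/-- the number of fields in `F ⊗ F'` -/
noncomputable def nof (K F F' : Type) [Field K] [Field F] [Field F'] [Algebra K F] [Algebra K F'] :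
    ℕ := Nat.card (MaximalSpectrum (F ⊗[K] F'))

theorem inum_one' : inum K F F' ((1 : 𝓞 F) : F) ((1 : 𝓞 F') : F') = nof K F F' := by
  unfold inum nof
  refine Nat.card_congr (Equiv.subtypeUnivEquiv fun m => ?_)
  have : Ideal.Quotient.mk m.asIdeal (((1 : 𝓞 F) : F) ⊗ₜ[K] ((1 : 𝓞 F') : F')) = 1 := by
    change Ideal.Quotient.mk m.asIdeal ((1 : F) ⊗ₜ[K] (1 : F')) = 1
    rw [← Algebra.TensorProduct.one_def, map_one]
  rw [this]
  exact IsSquare.one

theorem M_cnt {U : Ultrafilter ℝ} (hU : (U : Filter ℝ) ≤ 𝓝[>] 0) :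
    (M (NH K) U fun u => cnt K F u * cnt K F' u) = nof K F F' := by
  simp only [cnt_uq]
  have h := gramR (K := K) (F := F) (F' := F') (one_ne_zero : (1 : 𝓞 F) ≠ 0)
    (one_ne_zero : (1 : 𝓞 F') ≠ 0) 0 0
  rw [M_of_tendsto hU h]
  unfold gq
  rw [inum_one']
  simp
  ring

end

end Pool.Agent.TH553.ST
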