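import Pool.Agent.TH553.ST.Ext

set_option autoImplicit false
set_option linter.unusedSectionVars false

/-!
# Equidistribution over a field and over its extensions: the inequality
-/

namespace Pool.Agent.TH553.ST

open Complex Filter Topology ComplexConjugate NumberField IsDedekindDomain MeasureTheory
  Pool.Agent.W540.BE Pool.Agent.TH553.RS Pool.Agent.H341R2 Pool.Agent.W353.TP

section

variable {F : Type} [Field F] [NumberField F] {G : Type} [Group G] {n : ℕ}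

/-- the L-function of one representation -/
noncomputable def L1 (π : G →* Matrix.unitaryGroup (Fin n) ℂ) (y : HeightOneSpectrum (𝓞 F) → G)
    (s : ℂ) : ℂ :=
  ∏' w, (Matrix.det (1 - (((nm F w : ℕ) : ℂ) ^ (-s)) • (π (y w) : Matrix (Fin n) (Fin n) ℂ)))⁻¹

/-- the size -/
noncomputable def sz1 (π : G →* Matrix.unitaryGroup (Fin n) ℂ) (y : HeightOneSpectrum (𝓞 F) → G)
    (τ ε : ℝ) : ℝ := Real.log ‖L1 π y (1 + τ * I + ε)‖ / Real.log (1 / ε)

theorem exists_al1 (π : G →* Matrix.unitaryGroup (Fin n) ℂ) (y : HeightOneSpectrum (𝓞 F) → G) :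
    ∃ α : HeightOneSpectrum (𝓞 F) → Fin (Fintype.card (Fin n)) → ℂ,
      (∀ v j, ‖α v j‖ = 1) ∧ (∀ v, ∑ j, α v j = chi π (y v)) ∧
      ∀ v (c : ℂ), Matrix.det (1 - c • (π (y v) : Matrix (Fin n) (Fin n) ℂ)) =
        ∏ j, (1 - α v j * c) := by
  choose α h1 h2 h3 using fun v => exists_eig (π (y v)).2
  exact ⟨α, h1, h2, h3⟩

theorem size_L1 (π : G →* Matrix.unitaryGroup (Fin n) ℂ) (y : HeightOneSpectrum (𝓞 F) → G)
    (τ : ℝ) : (∀ᶠ ε : ℝ in 𝓝[>] 0, L1 π y (1 + τ * I + ε) ≠ 0) ∧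
    Tendsto (fun ε : ℝ => qt (nm F) (fun v =>
      (chi π (y v) * ((nm F v : ℕ) : ℂ) ^ (-(τ * I : ℂ))).re) ε - sz1 π y τ ε) (𝓝[>] 0) (𝓝 0) := by
  obtain ⟨α, h1, h2, h3⟩ := exists_al1 π y
  set B : HeightOneSpectrum (𝓞 F) → Polynomial ℂ := fun v =>
    ∏ j, (1 - Polynomial.C (α v j) * Polynomial.X) with hB
  have hBe : ∀ v z, (B v).eval z = ∏ j, (1 - α v j * z) := by
    intro v z
    rw [hB]
    simp [Polynomial.eval_prod]
  exact size_unit (sysF F) α (Filter.Eventually.of_forall h1)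
    (t := fun v => chi π (y v)) (C := (n : ℝ)) (fun v => norm_chi π _)
    (Filter.Eventually.of_forall h2) τ B (Filter.Eventually.of_forall hBe)
    (fun v => by
      rw [hBe, Finset.prod_ne_zero_iff]
      intro j _ h4
      have h5 : ‖α v j * ((nm F v : ℕ) : ℂ) ^ (-(1 + τ * I : ℂ))‖ = 1 := by
        have : α v j * ((nm F v : ℕ) : ℂ) ^ (-(1 + τ * I : ℂ)) = 1 := by linear_combination -h4
        rw [this, norm_one]
      rw [norm_mul, h1, one_mul] at h5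
      have h6 := cpow_le_half normSys v (s := 1 + τ * I) (by simp)
      linarith) (L1 π y)
    (fun s _ => by
      unfold L1
      refine tprod_congr fun v => ?_
      rw [h3, hBe])

theorem order_L1 {π : G →* Matrix.unitaryGroup (Fin n) ℂ} {y : HeightOneSpectrum (𝓞 F) → G}
    {τ : ℝ} {Λ : ℂ → ℂ} (h1 : MeromorphicAt Λ (1 + τ * I))
    (h2 : ∀ᶠ s in 𝓝 ((1 : ℂ) + τ * I), (1 : ℝ) < s.re → Λ s = L1 π y s) :
    ∃ m : ℤ, meromorphicOrderAt Λ (1 + τ * I) = m ∧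
      Tendsto (sz1 π y τ) (𝓝[>] 0) (𝓝 (-(m : ℝ))) :=
  order_unit (size_L1 π y τ).1 h1 h2

/-- averages from orders -/
theorem avg_L1 {π : G →* Matrix.unitaryGroup (Fin n) ℂ} {y : HeightOneSpectrum (𝓞 F) → G}
    (h : ∀ τ : ℝ, ∃ Λ : ℂ → ℂ, MeromorphicAt Λ (1 + τ * I) ∧
      (∀ᶠ s in 𝓝 ((1 : ℂ) + τ * I), (1 : ℝ) < s.re → Λ s = L1 π y s) ∧
      meromorphicOrderAt Λ (1 + τ * I) = ((0 : ℤ) : WithTop ℤ)) :
    Tendsto (mn fun v => chi π (y v)) atTop (𝓝 0) := by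
  obtain ⟨α, h1, h2, h3⟩ := exists_al1 π y
  have h4 := taub h1 (L := L1 π y) (fun s _ => by
    unfold L1
    exact tprod_congr fun v => by rw [h3]) (fun τ => by
    obtain ⟨Λ, h5, h6, h7⟩ := h τ
    obtain ⟨g, h10, h11, h12⟩ := (meromorphicOrderAt_eq_int_iff h5).1 h7
    refine ⟨g, h10, h11, ?_⟩
    rw [eventually_nhdsWithin_iff] at h12
    filter_upwards [h12, h6] with s h13 h14 h15
    have hne : s ≠ 1 + τ * I := by
      intro h
      rw [h] at h15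
      simp at h15
    have h16 := h13 hne
    rw [zpow_zero, one_smul] at h16
    rw [← h16, h14 h15])
  refine h4.congr fun N => ?_
  congr 1
  funext v
  exact h2 v

end

section

variable {K : Type} [Field K] [NumberField K]
variable {G : Type} [Group G] [TopologicalSpace G] [IsTopologicalGroup G] [CompactSpace G]
  [MeasurableSpace G] [BorelSpace G] {μ : Measure G} [IsProbabilityMeasure μ] [μ.IsHaarMeasure]
  {x : HeightOneSpectrum (𝓞 K) → G}
variable {ι : Type} [Fintype ι] {F : ι → Type} [∀ i, Field (F i)] [∀ i, NumberField (F i)]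
  [∀ i, Algebra K (F i)] {y : ∀ i, HeightOneSpectrum (𝓞 (F i)) → G} {c : ι → ℝ} {i₀ : ι}

/-- the combination of the counting functions -/
noncomputable def Dc (K : Type) [Field K] [NumberField K] (F : ι → Type) [∀ i, Field (F i)]
    [∀ i, NumberField (F i)] [∀ i, Algebra K (F i)] (c : ι → ℝ) (u : HX K) : ℝ :=
  ∑ i, c i * cnt K (F i) u

/-- the square of its length -/
noncomputable def Qc (K : Type) [Field K] (F : ι → Type) [∀ i, Field (F i)]
    [∀ i, Algebra K (F i)] (c : ι → ℝ) : ℝ := ∑ i, ∑ j, c i * c j * (nof K (F i) (F j) : ℝ)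

theorem Dc_fin : ∃ V : Finset ℝ, ∀ u, Dc K F c u ∈ V := by
  classical
  refine ⟨(Fintype.piFinset fun i => Finset.range (Module.finrank ℚ (F i) + 1)).image
    fun a => ∑ i, c i * (a i : ℝ), fun u => ?_⟩
  choose m h1 h2 using fun i => cnt_nat (K := K) (F := F i) u
  refine Finset.mem_image.2 ⟨m, ?_, ?_⟩
  · rw [Fintype.mem_piFinset]
    intro i
    rw [Finset.mem_range]
    exact h1 i
  · unfold Dc
    exact Finset.sum_congr rfl fun i _ => by rw [h2]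

theorem bd_Dc : Bd (Dc K F c) := Bd.sum _ fun _ _ => bd_cnt.const_mul _

theorem M_Dc {U : Ultrafilter ℝ} (hU : (U : Filter ℝ) ≤ 𝓝[>] 0) :
    (M (NH K) U fun u => Dc K F c u ^ 2) = Qc K F c := by
  have e : (fun u => Dc K F c u ^ 2) = fun u => ∑ i, ∑ j, (c i * c j) *
      (cnt K (F i) u * cnt K (F j) u) := by
    funext u
    unfold Dc
    rw [sq, Finset.sum_mul_sum]
    exact Finset.sum_congr rfl fun i _ => Finset.sum_congr rfl fun j _ => by ring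
  rw [e, M_sum (sysHS K) hU _ fun i _ => Bd.sum _ fun j _ => (bd_cnt.mul bd_cnt).const_mul _]
  unfold Qc
  refine Finset.sum_congr rfl fun i _ => ?_
  rw [M_sum (sysHS K) hU _ fun j _ => (bd_cnt.mul bd_cnt).const_mul _]
  refine Finset.sum_congr rfl fun j _ => ?_
  rw [M_const_mul (sysHS K) hU (bd_cnt.mul bd_cnt), M_cnt hU]

variable {κ : Type} {n : κ → ℕ} {π : ∀ k, G →* Matrix.unitaryGroup (Fin (n k)) ℂ}
  {τ : κ → ℝ} [Fintype κ]

/-- the hypotheses on the extensions -/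
structure Hyp (μ : Measure G) (x : HeightOneSpectrum (𝓞 K) → G)
    (y : ∀ i, HeightOneSpectrum (𝓞 (F i)) → G) (c : ι → ℝ) (i₀ : ι) : Prop where
  law : Law x μ
  bc : ∀ i, BC x (y i)
  one : c i₀ = 1
  st : ∀ i, i ≠ i₀ → c i ≠ 0 → Law (y i) μ

theorem Hyp.xk_eq (H : Hyp μ x y c i₀) (Fm : Fam μ π τ) {U : Ultrafilter ℝ}
    (hU : (U : Filter ℝ) ≤ 𝓝[>] 0) (k : κ) :
    xk (NH K) U (Dc K F c) (fun u => x (kr u)) π τ k =
      M (nm (F i₀)) U fun w => (chi (π k) (y i₀ w) * ((nm (F i₀) w : ℕ) : ℂ) ^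
        (-(τ k * I : ℂ))).re := by
  classical
  have hb : Bd (uf (NH K) (fun u => x (kr u)) π τ k) := Fm.bd NH_pos k
  have e : (fun u => Dc K F c u * uf (NH K) (fun u => x (kr u)) π τ k u) = fun u =>
      ∑ i, c i * (uf (NH K) (fun u => x (kr u)) π τ k u * cnt K (F i) u) := by
    funext u
    unfold Dc
    rw [Finset.sum_mul]
    exact Finset.sum_congr rfl fun i _ => by ring
  unfold xk
  rw [e, M_sum (sysHS K) hU _ fun i _ => (hb.mul bd_cnt).const_mul _]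
  have h1 : ∀ i, (M (NH K) U fun u => c i * (uf (NH K) (fun u => x (kr u)) π τ k u *
      cnt K (F i) u)) = c i * M (nm (F i)) U fun w => (chi (π k) (y i w) *
        ((nm (F i) w : ℕ) : ℂ) ^ (-(τ k * I : ℂ))).re := by
    intro i
    rw [M_const_mul (sysHS K) hU (hb.mul bd_cnt), M_bc hU (H.bc i) (her_chi (Fm.cont k)) (τ k)]
    rfl
  rw [Finset.sum_congr rfl fun i _ => h1 i, Finset.sum_eq_single i₀]
  · rw [H.one, one_mul]
  · intro i _ hi
    by_cases hci : c i = 0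
    · rw [hci, zero_mul]
    · have h2 := jl_of_law hU (H.st i hi hci) _ (her_chi (Fm.cont k)) (τ k)
      rw [h2, int_chi (Fm.cont k) (Fm.schur k) (Fm.nt k)]
      simp
  · intro h
    exact absurd (Finset.mem_univ _) h

theorem Hyp.lim (H : Hyp μ x y c i₀) (Fm : Fam μ π τ) {U : Ultrafilter ℝ}
    (hU : (U : Filter ℝ) ≤ 𝓝[>] 0) (k : κ) : Tendsto (sz1 (π k) (y i₀) (τ k)) U
      (𝓝 (xk (NH K) U (Dc K F c) (fun u => x (kr u)) π τ k)) := by
  rw [H.xk_eq Fm hU k]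
  have h1 := M_lim (sysF (F i₀)) hU (bd_her (N := nm (F i₀)) (x := y i₀) (cont_chi (Fm.cont k))
    nm_pos (τ k)).re
  have h2 := h1.sub ((size_L1 (π k) (y i₀) (τ k)).2.mono_left hU)
  rw [sub_zero] at h2
  refine h2.congr fun ε => ?_
  ring

theorem Hyp.lim_sum (H : Hyp μ x y c i₀) (Fm : Fam μ π τ) {U : Ultrafilter ℝ}
    (hU : (U : Filter ℝ) ≤ 𝓝[>] 0) :
    Tendsto (fun ε => ∑ k, wgt π τ k * sz1 (π k) (y i₀) (τ k) ε ^ 2) U
      (𝓝 (∑ k, wgt π τ k * xk (NH K) U (Dc K F c) (fun u => x (kr u)) π τ k ^ 2)) :=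
  tendsto_finsetSum _ fun k _ => ((H.lim Fm hU k).pow 2).const_mul _

theorem Hyp.jl (H : Hyp μ x y c i₀) {U : Ultrafilter ℝ} (hU : (U : Filter ℝ) ≤ 𝓝[>] 0) :
    JL (NH K) U (fun u => x (kr u)) μ := jl_kr hU (jl_of_law hU H.law)

/-- **Bessel's inequality over the extension.** -/
theorem Hyp.bessel (H : Hyp μ x y c i₀) (Fm : Fam μ π τ) {η : ℝ} (hη : 0 < η) :
    ∀ᶠ ε in 𝓝[>] (0 : ℝ), ∑ k, wgt π τ k * sz1 (π k) (y i₀) (τ k) ε ^ 2 ≤ Qc K F c + η := by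
  refine eventually_of_ultra fun U hU => ?_
  have h1 := Fm.bessel_le (sysHS K) hU NH_pos (H.jl hU) (bd_Dc (K := K) (F := F) (c := c))
  rw [M_Dc hU] at h1
  exact ((H.lim_sum Fm hU).eventually_lt_const (lt_of_le_of_lt h1 (by linarith))).mono
    fun ε hε => hε.le

/-- **The strict inequality.** -/
theorem Hyp.bessel_lt [ConnectedSpace G] (H : Hyp μ x y c i₀) (Fm : Fam μ π τ)
    (hQ : 0 < Qc K F c) : ∃ δ : ℝ, 0 < δ ∧
    ∀ᶠ ε in 𝓝[>] (0 : ℝ), ∑ k, wgt π τ k * sz1 (π k) (y i₀) (τ k) ε ^ 2 ≤ Qc K F c - δ := by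
  obtain ⟨V, hV⟩ := Dc_fin (K := K) (F := F) (c := c)
  refine unif_lt' fun U hU => ⟨_, H.lim_sum Fm hU, ?_⟩
  have h1 := Fm.bessel_lt (sysHS K) hU NH_pos (H.jl hU) V hV (by rw [M_Dc hU]; exact hQ)
  rw [M_Dc hU] at h1
  exact h1

/-- **The orders.** -/
theorem Hyp.orders [ConnectedSpace G] (H : Hyp μ x y c i₀) (Fm : Fam μ π τ) {m : κ → ℤ}
    (hm : ∀ k, Tendsto (sz1 (π k) (y i₀) (τ k)) (𝓝[>] 0) (𝓝 (-(m k : ℝ)))) {k₀ : κ}
    (hk : m k₀ ≠ 0) : ∑ k, wgt π τ k * (m k : ℝ) ^ 2 < Qc K F c := by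
  have h1 : Tendsto (fun ε => ∑ k, wgt π τ k * sz1 (π k) (y i₀) (τ k) ε ^ 2) (𝓝[>] 0)
      (𝓝 (∑ k, wgt π τ k * (m k : ℝ) ^ 2)) := by
    have h2 : Tendsto (fun ε => ∑ k, wgt π τ k * sz1 (π k) (y i₀) (τ k) ε ^ 2) (𝓝[>] 0)
        (𝓝 (∑ k, wgt π τ k * (-(m k : ℝ)) ^ 2)) :=
      tendsto_finsetSum _ fun k _ => ((hm k).pow 2).const_mul _
    simpa only [neg_sq] using h2
  have h2 : ∑ k, wgt π τ k * (m k : ℝ) ^ 2 ≤ Qc K F c :=
    le_of_forall_pos_le_add fun η hη => le_of_tendsto h1 (H.bessel Fm hη)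
  have h3 : 0 < ∑ k, wgt π τ k * (m k : ℝ) ^ 2 := by
    refine Finset.sum_pos' (fun k _ => by have := wgt_pos (π := π) (τ := τ) k; positivity)
      ⟨k₀, Finset.mem_univ _, ?_⟩
    have h4 : (m k₀ : ℝ) ≠ 0 := by exact_mod_cast hk
    have := wgt_pos (π := π) (τ := τ) k₀
    positivity
  obtain ⟨δ, h4, h5⟩ := H.bessel_lt Fm (lt_of_lt_of_le h3 h2)
  have h6 := le_of_tendsto h1 h5
  linarith

end

end Pool.Agent.TH553.ST
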