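import Pool.Agent.TH553.ST.Unit

set_option autoImplicit false
set_option linter.unusedSectionVars false

/-!
# Characters of compact groups
-/

namespace Pool.Agent.TH553.ST

open Complex Filter Topology ComplexConjugate MeasureTheory
open scoped Matrix ComplexOrder

variable {G : Type} [Group G]

/-- the character -/
noncomputable def chi {n : ℕ} (π : G →* Matrix.unitaryGroup (Fin n) ℂ) (g : G) : ℂ :=
  (π g : Matrix (Fin n) (Fin n) ℂ).trace

/-- the only matrices that commute with `π` are the scalars -/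
def Schur {n : ℕ} (π : G →* Matrix.unitaryGroup (Fin n) ℂ) : Prop :=
  ∀ A : Matrix (Fin n) (Fin n) ℂ, (∀ g, (π g : Matrix (Fin n) (Fin n) ℂ) * A = A * π g) →
    ∃ c : ℂ, A = c • (1 : Matrix (Fin n) (Fin n) ℂ)

theorem norm_chi {n : ℕ} (π : G →* Matrix.unitaryGroup (Fin n) ℂ) (g : G) : ‖chi π g‖ ≤ n := by
  obtain ⟨α, h1, h2, -⟩ := exists_eig (π g).2
  unfold chi
  rw [← h2]
  refine (norm_sum_le _ _).trans ?_
  simp [h1]

theorem chi_one {n : ℕ} (π : G →* Matrix.unitaryGroup (Fin n) ℂ) : chi π 1 = n := by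
  unfold chi
  rw [map_one]
  simp

theorem chi_cls {n : ℕ} (π : G →* Matrix.unitaryGroup (Fin n) ℂ) (g h : G) :
    chi π (h * g * h⁻¹) = chi π g := by
  unfold chi
  rw [map_mul, map_mul]
  change ((π h : Matrix (Fin n) (Fin n) ℂ) * (π g : Matrix (Fin n) (Fin n) ℂ) *
    (π h⁻¹ : Matrix (Fin n) (Fin n) ℂ)).trace = _
  rw [Matrix.trace_mul_comm, ← mul_assoc]
  have h1 : (π h⁻¹ : Matrix (Fin n) (Fin n) ℂ) * (π h : Matrix (Fin n) (Fin n) ℂ) = 1 := by
    have h2 : π h⁻¹ * π h = 1 := by rw [← map_mul, inv_mul_cancel, map_one]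
    exact congrArg Subtype.val h2
  rw [h1, one_mul]

variable [TopologicalSpace G]

theorem cont_mat {n : ℕ} {π : G →* Matrix.unitaryGroup (Fin n) ℂ} (h : Continuous π) :
    Continuous fun g => (π g : Matrix (Fin n) (Fin n) ℂ) := continuous_subtype_val.comp h

theorem cont_chi {n : ℕ} {π : G →* Matrix.unitaryGroup (Fin n) ℂ} (h : Continuous π) :
    Continuous (chi π) := (cont_mat h).matrix_trace

variable [IsTopologicalGroup G] [CompactSpace G] [MeasurableSpace G] [BorelSpace G]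
  {μ : Measure G} [IsProbabilityMeasure μ] [μ.IsHaarMeasure]

omit [IsTopologicalGroup G] [μ.IsHaarMeasure] [Group G] in
theorem intg {E : Type*} [NormedAddCommGroup E] [SecondCountableTopology E] {f : G → E}
    (hf : Continuous f) : Integrable f μ :=
  hf.integrable_of_hasCompactSupport (HasCompactSupport.of_compactSpace f)

/-- the entrywise integral -/
noncomputable def mi (μ : Measure G) {n : ℕ} (F : G → Matrix (Fin n) (Fin n) ℂ) :
    Matrix (Fin n) (Fin n) ℂ := Matrix.of fun k l => ∫ g, F g k l ∂μ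

omit [IsTopologicalGroup G] [CompactSpace G] [BorelSpace G] [IsProbabilityMeasure μ]
  [μ.IsHaarMeasure] [Group G] [TopologicalSpace G] in
theorem mi_apply {n : ℕ} (F : G → Matrix (Fin n) (Fin n) ℂ) (k l : Fin n) :
    mi μ F k l = ∫ g, F g k l ∂μ := rfl

omit [IsTopologicalGroup G] [μ.IsHaarMeasure] [Group G] in
theorem mi_mul {n : ℕ} {F : G → Matrix (Fin n) (Fin n) ℂ} (hF : Continuous F)
    (X : Matrix (Fin n) (Fin n) ℂ) : mi μ (fun g => X * F g) = X * mi μ F := by
  ext k l
  rw [mi_apply, Matrix.mul_apply]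
  simp only [Matrix.mul_apply, mi_apply]
  rw [integral_finsetSum _ fun m _ => intg ((hF.matrix_elem m l).const_mul _)]
  exact Finset.sum_congr rfl fun m _ => integral_const_mul _ _

omit [IsTopologicalGroup G] [μ.IsHaarMeasure] [Group G] in
theorem mi_mul' {n : ℕ} {F : G → Matrix (Fin n) (Fin n) ℂ} (hF : Continuous F)
    (X : Matrix (Fin n) (Fin n) ℂ) : mi μ (fun g => F g * X) = mi μ F * X := by
  ext k l
  rw [mi_apply, Matrix.mul_apply]
  simp only [Matrix.mul_apply, mi_apply]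
  rw [integral_finsetSum _ fun m _ => intg ((hF.matrix_elem k m).mul_const _)]
  exact Finset.sum_congr rfl fun m _ => integral_mul_const _ _

omit [CompactSpace G] [IsProbabilityMeasure μ] in
theorem mi_left {n : ℕ} (F : G → Matrix (Fin n) (Fin n) ℂ) (h : G) :
    mi μ (fun g => F (h * g)) = mi μ F := by
  ext k l
  rw [mi_apply, mi_apply]
  exact integral_mul_left_eq_self (fun g => F g k l) h

omit [IsTopologicalGroup G] [μ.IsHaarMeasure] [Group G] in
theorem mi_trace {n : ℕ} {F : G → Matrix (Fin n) (Fin n) ℂ} (hF : Continuous F) :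
    (mi μ F).trace = ∫ g, (F g).trace ∂μ := by
  unfold Matrix.trace
  simp only [Matrix.diag_apply, mi_apply]
  rw [integral_finsetSum _ fun m _ => intg (hF.matrix_elem m m)]

section

variable {n : ℕ} {π : G →* Matrix.unitaryGroup (Fin n) ℂ}

theorem pi_star (g : G) : (π g : Matrix (Fin n) (Fin n) ℂ)ᴴ * (π g : Matrix (Fin n) (Fin n) ℂ) =
    1 := Matrix.mem_unitaryGroup_iff'.1 (π g).2

theorem pi_star' (g : G) : (π g : Matrix (Fin n) (Fin n) ℂ) * (π g : Matrix (Fin n) (Fin n) ℂ)ᴴ =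
    1 := Matrix.mem_unitaryGroup_iff.1 (π g).2

theorem pi_mul (g h : G) : (π (g * h) : Matrix (Fin n) (Fin n) ℂ) =
    (π g : Matrix (Fin n) (Fin n) ℂ) * (π h : Matrix (Fin n) (Fin n) ℂ) := by
  rw [map_mul]
  rfl

/-- the average of a matrix -/
noncomputable def av (π : G →* Matrix.unitaryGroup (Fin n) ℂ) (A : Matrix (Fin n) (Fin n) ℂ)
    (g : G) : Matrix (Fin n) (Fin n) ℂ := (π g : Matrix (Fin n) (Fin n) ℂ) * A *
      (π g : Matrix (Fin n) (Fin n) ℂ)ᴴ

omit [IsTopologicalGroup G] [CompactSpace G] [MeasurableSpace G] [BorelSpace G] in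
theorem cont_av (hc : Continuous π) (A : Matrix (Fin n) (Fin n) ℂ) : Continuous (av π A) :=
  ((cont_mat hc).matrix_mul continuous_const).matrix_mul (cont_mat hc).matrix_conjTranspose

theorem comm_av (hc : Continuous π) (A : Matrix (Fin n) (Fin n) ℂ) (h : G) :
    (π h : Matrix (Fin n) (Fin n) ℂ) * mi μ (av π A) = mi μ (av π A) * π h := by
  rw [← mi_mul (cont_av hc A), ← mi_mul' (cont_av hc A)]
  have h1 : (fun g => (π h : Matrix (Fin n) (Fin n) ℂ) * av π A g) =
      fun g => av π A (h * g) * (π h : Matrix (Fin n) (Fin n) ℂ) := by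
    funext g
    unfold av
    rw [pi_mul, Matrix.conjTranspose_mul]
    simp only [Matrix.mul_assoc]
    rw [pi_star, Matrix.mul_one]
  rw [h1]
  exact mi_left (fun g => av π A g * (π h : Matrix (Fin n) (Fin n) ℂ)) h

theorem av_scalar (hc : Continuous π) (hs : Schur π) (A : Matrix (Fin n) (Fin n) ℂ) :
    ∃ c : ℂ, mi μ (av π A) = c • (1 : Matrix (Fin n) (Fin n) ℂ) ∧ c * n = A.trace := by
  obtain ⟨c, h⟩ := hs (mi μ (av π A)) fun g => comm_av hc A g
  refine ⟨c, h, ?_⟩
  have h1 := mi_trace (μ := μ) (cont_av hc A)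
  rw [h] at h1
  have h2 : ∀ g, (av π A g).trace = A.trace := by
    intro g
    unfold av
    rw [Matrix.trace_mul_comm, ← Matrix.mul_assoc, pi_star, Matrix.one_mul]
  simp only [h2] at h1
  simpa [mul_comm] using h1

theorem av_single (i j : Fin n) (g : G) : av π (Matrix.single i j 1) g i j =
    (π g : Matrix (Fin n) (Fin n) ℂ) i i * conj ((π g : Matrix (Fin n) (Fin n) ℂ) j j) := by
  unfold av
  rw [Matrix.mul_apply, Finset.sum_eq_single j]
  · rw [Matrix.mul_single_apply_same, mul_one, Matrix.conjTranspose_apply]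
    rfl
  · intro b _ hb
    rw [Matrix.mul_single_apply_of_ne _ _ _ _ _ hb, zero_mul]
  · intro h
    exact absurd (Finset.mem_univ _) h

/-- **Schur's orthogonality relation.** -/
theorem int_sq (hc : Continuous π) (hs : Schur π) (hn : n ≠ 0) : ∫ g, ‖chi π g‖ ^ 2 ∂μ = 1 := by
  have hent : ∀ i j, Continuous fun g => (π g : Matrix (Fin n) (Fin n) ℂ) i j :=
    fun i j => (cont_mat hc).matrix_elem i j
  have h1 : ∫ g, chi π g * conj (chi π g) ∂μ = 1 := by
    have h2 : ∀ g, chi π g * conj (chi π g) = ∑ i, ∑ j, av π (Matrix.single i j 1) g i j := by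
      intro g
      unfold chi Matrix.trace
      rw [map_sum, Finset.sum_mul_sum]
      exact Finset.sum_congr rfl fun i _ => Finset.sum_congr rfl fun j _ => (av_single i j g).symm
    simp only [h2]
    rw [integral_finsetSum _ fun i _ => integrable_finsetSum _ fun j _ =>
      intg ((cont_av hc _).matrix_elem i j)]
    have h3 : ∀ i j : Fin n, ∫ g, av π (Matrix.single i j 1) g i j ∂μ =
        if i = j then (n : ℂ)⁻¹ else 0 := by
      intro i j
      obtain ⟨c, h4, h5⟩ := av_scalar (μ := μ) hc hs (Matrix.single i j 1)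
      have h6 : ∫ g, av π (Matrix.single i j 1) g i j ∂μ = (c • (1 : Matrix (Fin n) (Fin n) ℂ)) i j := by
        rw [← h4]
        rfl
      rw [h6, Matrix.smul_apply, Matrix.one_apply]
      split_ifs with hij
      · subst hij
        rw [Matrix.trace_single_eq_same] at h5
        rw [smul_eq_mul, mul_one]
        exact eq_inv_of_mul_eq_one_left h5
      · simp
    have h4 : ∀ i : Fin n, ∫ g, ∑ j, av π (Matrix.single i j 1) g i j ∂μ = (n : ℂ)⁻¹ := by
      intro i
      rw [integral_finsetSum _ fun j _ => intg ((cont_av hc _).matrix_elem i j)]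
      simp only [h3]
      simp
    simp only [h4]
    have hn' : (n : ℂ) ≠ 0 := by exact_mod_cast hn
    rw [Finset.sum_const, Finset.card_univ, Fintype.card_fin, nsmul_eq_mul,
      mul_inv_cancel₀ hn']
  have h2 : ∀ g, chi π g * conj (chi π g) = ((‖chi π g‖ ^ 2 : ℝ) : ℂ) := by
    intro g
    rw [Complex.mul_conj, Complex.normSq_eq_norm_sq]
  simp only [h2] at h1
  have h3 : ∫ g, ((‖chi π g‖ ^ 2 : ℝ) : ℂ) ∂μ = ((∫ g, ‖chi π g‖ ^ 2 ∂μ : ℝ) : ℂ) :=
    integral_ofReal
  rw [h3] at h1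
  exact_mod_cast h1

theorem int_sq_le (hc : Continuous π) (hs : Schur π) : ∫ g, ‖chi π g‖ ^ 2 ∂μ ≤ 1 := by
  by_cases hn : n = 0
  · subst hn
    have h1 : ∀ g, chi π g = 0 := by
      intro g
      unfold chi
      simp
    simp [h1]
  · exact (int_sq hc hs hn).le

/-- the mean value of a nontrivial irreducible character -/
theorem int_chi (hc : Continuous π) (hs : Schur π) (hnt : ∃ g, π g ≠ 1) :
    ∫ g, chi π g ∂μ = 0 := by
  set Ψ := mi μ (fun g => (π g : Matrix (Fin n) (Fin n) ℂ)) with hΨ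
  have h1 : ∀ h : G, (π h : Matrix (Fin n) (Fin n) ℂ) * Ψ = Ψ := by
    intro h
    rw [hΨ, ← mi_mul (cont_mat hc)]
    have h2 : (fun g => (π h : Matrix (Fin n) (Fin n) ℂ) * (π g : Matrix (Fin n) (Fin n) ℂ)) =
        fun g => (π (h * g) : Matrix (Fin n) (Fin n) ℂ) := funext fun g => (pi_mul h g).symm
    rw [h2]
    exact mi_left (fun g => (π g : Matrix (Fin n) (Fin n) ℂ)) h
  have h1' : ∀ h : G, Ψᴴ * (π h : Matrix (Fin n) (Fin n) ℂ) = Ψᴴ := by
    intro h
    have h2 := h1 h
    have h3 : (π h : Matrix (Fin n) (Fin n) ℂ)ᴴ * Ψ = Ψ := by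
      conv_lhs => rw [← h2]
      rw [← Matrix.mul_assoc, pi_star, Matrix.one_mul]
    have h4 := congrArg Matrix.conjTranspose h3
    rwa [Matrix.conjTranspose_mul, Matrix.conjTranspose_conjTranspose] at h4
  obtain ⟨c, h2⟩ := hs (Ψ * Ψᴴ) fun g => by
    rw [← Matrix.mul_assoc, h1, Matrix.mul_assoc, h1']
  have hc0 : c = 0 := by
    by_contra hcne
    obtain ⟨g, hg⟩ := hnt
    apply hg
    have h3 : (π g : Matrix (Fin n) (Fin n) ℂ) * (Ψ * Ψᴴ) = Ψ * Ψᴴ := by
      rw [← Matrix.mul_assoc, h1]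
    rw [h2, Matrix.mul_smul, Matrix.mul_one] at h3
    exact Subtype.ext (smul_right_injective _ hcne h3)
  rw [hc0, zero_smul] at h2
  have h3 : Ψ = 0 := Matrix.self_mul_conjTranspose_eq_zero.1 h2
  have h4 := mi_trace (μ := μ) (cont_mat hc)
  rw [← hΨ, h3, Matrix.trace_zero] at h4
  exact h4.symm

end

/-- positivity -/
theorem int_pos {f : G → ℝ} (hf : Continuous f) (h0 : ∀ g, 0 ≤ f g) {g₀ : G} (h1 : f g₀ ≠ 0) :
    0 < ∫ g, f g ∂μ := by
  rw [integral_pos_iff_support_of_nonneg h0 (intg hf)]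
  exact hf.isOpen_support.measure_pos μ ⟨g₀, h1⟩

end Pool.Agent.TH553.ST
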