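import Pool.Agent.TH553.ST.Haar

set_option autoImplicit false
set_option linter.unusedSectionVars false

/-!
# The law of the absolute value of a character
-/

namespace Pool.Agent.TH553.ST

open Complex Filter Topology ComplexConjugate MeasureTheory

section

variable {G : Type} [Group G] [TopologicalSpace G] [IsTopologicalGroup G] [CompactSpace G]
  [MeasurableSpace G] [BorelSpace G] {μ : Measure G} [IsProbabilityMeasure μ] [μ.IsHaarMeasure]
  {n : ℕ} {π : G →* Matrix.unitaryGroup (Fin n) ℂ}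

theorem cont_sq (h : Continuous π) (k : ℕ) : Continuous fun g => (‖chi π g‖ ^ 2) ^ k :=
  ((cont_chi h).norm.pow 2).pow k

theorem mom_le (h : Continuous π) (k : ℕ) : ∫ g, (‖chi π g‖ ^ 2) ^ k ∂μ ≤ ((n : ℝ) ^ 2) ^ k := by
  have h1 : ∫ g, (‖chi π g‖ ^ 2) ^ k ∂μ ≤ ∫ _, ((n : ℝ) ^ 2) ^ k ∂μ := by
    refine integral_mono (intg (cont_sq h k)) (integrable_const _) fun g => ?_
    exact pow_le_pow_left₀ (by positivity) (pow_le_pow_left₀ (norm_nonneg _) (norm_chi π g) 2) k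
  simpa using h1

theorem mom_ge (h : Continuous π) {a : ℝ} (h0 : 0 ≤ a) (ha : a < (n : ℝ) ^ 2) :
    ∃ c : ℝ, 0 < c ∧ ∀ k : ℕ, c * a ^ k ≤ ∫ g, (‖chi π g‖ ^ 2) ^ k ∂μ := by
  set V : Set G := {g | a < ‖chi π g‖ ^ 2} with hV
  have hVo : IsOpen V := isOpen_lt continuous_const ((cont_chi h).norm.pow 2)
  have h1 : (1 : G) ∈ V := by
    rw [hV, Set.mem_ofPred_eq, chi_one, Complex.norm_natCast]
    exact ha
  have h2 : 0 < μ V := hVo.measure_pos μ ⟨1, h1⟩
  have h3 : 0 < μ.real V := by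
    rw [measureReal_def]
    exact ENNReal.toReal_pos h2.ne' (measure_ne_top _ _)
  refine ⟨μ.real V, h3, fun k => ?_⟩
  have h4 : ∫ g, V.indicator (fun _ => a ^ k) g ∂μ ≤ ∫ g, (‖chi π g‖ ^ 2) ^ k ∂μ := by
    refine integral_mono ((integrable_const _).indicator hVo.measurableSet)
      (intg (cont_sq h k)) fun g => ?_
    by_cases hg : g ∈ V
    · rw [Set.indicator_of_mem hg]
      exact pow_le_pow_left₀ h0 hg.le k
    · rw [Set.indicator_of_notMem hg]
      positivity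
  rw [integral_indicator_const _ hVo.measurableSet, smul_eq_mul] at h4
  exact h4

/-- the integral of a polynomial of the absolute value -/
theorem int_poly (h : Continuous π) (Q : Polynomial ℝ) : ∫ g, Q.eval (‖chi π g‖ ^ 2) ∂μ =
    ∑ k ∈ Finset.range (Q.natDegree + 1), Q.coeff k * ∫ g, (‖chi π g‖ ^ 2) ^ k ∂μ := by
  have e : (fun g => Q.eval (‖chi π g‖ ^ 2)) =
      fun g => ∑ k ∈ Finset.range (Q.natDegree + 1), Q.coeff k * (‖chi π g‖ ^ 2) ^ k :=
    funext fun g => Polynomial.eval_eq_sum_range _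
  rw [e, integral_finsetSum _ fun k _ => intg ((cont_sq h k).const_mul _)]
  exact Finset.sum_congr rfl fun k _ => integral_const_mul _ _

end

variable {G : Type} [Group G] [TopologicalSpace G] [IsTopologicalGroup G] [CompactSpace G]
  [MeasurableSpace G] [BorelSpace G] {μ : Measure G} [IsProbabilityMeasure μ] [μ.IsHaarMeasure]
  {n : ℕ} {π : G →* Matrix.unitaryGroup (Fin n) ℂ}
  {G' : Type} [Group G'] [TopologicalSpace G'] [IsTopologicalGroup G'] [CompactSpace G']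
  [MeasurableSpace G'] [BorelSpace G'] {μ' : Measure G'} [IsProbabilityMeasure μ']
  [μ'.IsHaarMeasure] {n' : ℕ} {π' : G' →* Matrix.unitaryGroup (Fin n') ℂ}

theorem dim_le (h : Continuous π) (h' : Continuous π')
    (hm : ∀ k : ℕ, ∫ g, (‖chi π g‖ ^ 2) ^ k ∂μ = ∫ g, (‖chi π' g‖ ^ 2) ^ k ∂μ') : n' ≤ n := by
  by_contra hcon
  push Not at hcon
  have h0 : (n : ℝ) ^ 2 < (n' : ℝ) ^ 2 := by
    have : (n : ℝ) < n' := by exact_mod_cast hcon
    exact pow_lt_pow_left₀ this (Nat.cast_nonneg _) two_ne_zero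
  set a : ℝ := ((n : ℝ) ^ 2 + (n' : ℝ) ^ 2) / 2 with ha
  have ha1 : (n : ℝ) ^ 2 < a := by rw [ha]; linarith
  have ha2 : a < (n' : ℝ) ^ 2 := by rw [ha]; linarith
  have ha0 : 0 < a := lt_of_le_of_lt (by positivity) ha1
  obtain ⟨c, hc, h1⟩ := mom_ge (μ := μ') h' ha0.le ha2
  obtain ⟨k, hk⟩ := exists_pow_lt_of_lt_one hc (y := (n : ℝ) ^ 2 / a)
    ((div_lt_one ha0).2 ha1)
  have h2 := h1 k
  have h3 := mom_le (μ := μ) h k
  rw [hm k] at h3
  rw [div_pow, div_lt_iff₀ (by positivity)] at hk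
  linarith

/-- equal laws have equal dimensions -/
theorem dim_eq (h : Continuous π) (h' : Continuous π')
    (hm : ∀ k : ℕ, ∫ g, (‖chi π g‖ ^ 2) ^ k ∂μ = ∫ g, (‖chi π' g‖ ^ 2) ^ k ∂μ') : n = n' :=
  le_antisymm (dim_le h' h fun k => (hm k).symm) (dim_le h h' hm)

end Pool.Agent.TH553.ST
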