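import Pool.Agent.TH553.ST.Haar

set_option autoImplicit false
set_option linter.unusedSectionVars false

/-!
# Orthogonality of characters and invariance under inversion
-/

namespace Pool.Agent.TH553.ST

open Complex Filter Topology ComplexConjugate MeasureTheory
open scoped Matrix ComplexOrder

section

variable {G : Type} [Group G]

theorem chi_inv {n : ℕ} (π : G →* Matrix.unitaryGroup (Fin n) ℂ) (g : G) :
    chi π g⁻¹ = conj (chi π g) := by
  unfold chi
  rw [map_inv, ← Unitary.star_eq_inv, Unitary.coe_star, Matrix.star_eq_conjTranspose,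
    Matrix.trace_conjTranspose]
  rfl

end

section

variable {G : Type} [Group G] [TopologicalSpace G] [IsTopologicalGroup G] [CompactSpace G]
  [MeasurableSpace G] [BorelSpace G] {μ : Measure G} [IsProbabilityMeasure μ] [μ.IsHaarMeasure]

/-- the entrywise integral of rectangular matrices -/
noncomputable def mir (μ : Measure G) {n n' : ℕ} (F : G → Matrix (Fin n) (Fin n') ℂ) :
    Matrix (Fin n) (Fin n') ℂ := Matrix.of fun k l => ∫ g, F g k l ∂μ

theorem mir_apply {n n' : ℕ} (F : G → Matrix (Fin n) (Fin n') ℂ) (k : Fin n) (l : Fin n') :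
    mir μ F k l = ∫ g, F g k l ∂μ := rfl

theorem mir_mul {n n' : ℕ} {F : G → Matrix (Fin n) (Fin n') ℂ} (hF : Continuous F)
    (X : Matrix (Fin n) (Fin n) ℂ) : mir μ (fun g => X * F g) = X * mir μ F := by
  ext k l
  rw [mir_apply, Matrix.mul_apply]
  simp only [Matrix.mul_apply, mir_apply]
  rw [integral_finsetSum _ fun m _ => intg ((hF.matrix_elem m l).const_mul _)]
  exact Finset.sum_congr rfl fun m _ => integral_const_mul _ _

theorem mir_mul' {n n' : ℕ} {F : G → Matrix (Fin n) (Fin n') ℂ} (hF : Continuous F)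
    (X : Matrix (Fin n') (Fin n') ℂ) : mir μ (fun g => F g * X) = mir μ F * X := by
  ext k l
  rw [mir_apply, Matrix.mul_apply]
  simp only [Matrix.mul_apply, mir_apply]
  rw [integral_finsetSum _ fun m _ => intg ((hF.matrix_elem k m).mul_const _)]
  exact Finset.sum_congr rfl fun m _ => integral_mul_const _ _

theorem mir_left {n n' : ℕ} (F : G → Matrix (Fin n) (Fin n') ℂ) (h : G) :
    mir μ (fun g => F (h * g)) = mir μ F := by
  ext k l
  rw [mir_apply, mir_apply]
  exact integral_mul_left_eq_self (fun g => F g k l) h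

variable {n n' : ℕ} {π : G →* Matrix.unitaryGroup (Fin n) ℂ}
  {π' : G →* Matrix.unitaryGroup (Fin n') ℂ}

/-- the average of a rectangular matrix -/
noncomputable def avr (π : G →* Matrix.unitaryGroup (Fin n) ℂ)
    (π' : G →* Matrix.unitaryGroup (Fin n') ℂ) (A : Matrix (Fin n) (Fin n') ℂ)
    (g : G) : Matrix (Fin n) (Fin n') ℂ := (π g : Matrix (Fin n) (Fin n) ℂ) * A *
      (π' g : Matrix (Fin n') (Fin n') ℂ)ᴴ

theorem cont_avr (hc : Continuous π) (hc' : Continuous π') (A : Matrix (Fin n) (Fin n') ℂ) :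
    Continuous (avr π π' A) :=
  ((cont_mat hc).matrix_mul continuous_const).matrix_mul (cont_mat hc').matrix_conjTranspose

theorem comm_avr (hc : Continuous π) (hc' : Continuous π') (A : Matrix (Fin n) (Fin n') ℂ)
    (h : G) : (π h : Matrix (Fin n) (Fin n) ℂ) * mir μ (avr π π' A) =
      mir μ (avr π π' A) * (π' h : Matrix (Fin n') (Fin n') ℂ) := by
  rw [← mir_mul (cont_avr hc hc' A), ← mir_mul' (cont_avr hc hc' A)]
  have h1 : (fun g => (π h : Matrix (Fin n) (Fin n) ℂ) * avr π π' A g) =
      fun g => avr π π' A (h * g) * (π' h : Matrix (Fin n') (Fin n') ℂ) := by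
    funext g
    unfold avr
    rw [pi_mul, pi_mul, Matrix.conjTranspose_mul]
    simp only [Matrix.mul_assoc]
    rw [pi_star, Matrix.mul_one]
  rw [h1]
  exact mir_left (fun g => avr π π' A g * (π' h : Matrix (Fin n') (Fin n') ℂ)) h

/-- a nonzero intertwiner between irreducible representations makes the characters equal -/
theorem chi_eq_of_intertwiner (hs : Schur π) (hs' : Schur π') {T : Matrix (Fin n) (Fin n') ℂ}
    (hT : T ≠ 0) (h : ∀ g, (π g : Matrix (Fin n) (Fin n) ℂ) * T =
      T * (π' g : Matrix (Fin n') (Fin n') ℂ)) (g : G) : chi π g = chi π' g := by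
  have h' : ∀ g, Tᴴ * (π g : Matrix (Fin n) (Fin n) ℂ) =
      (π' g : Matrix (Fin n') (Fin n') ℂ) * Tᴴ := by
    intro g
    have h1 : T * (π' g : Matrix (Fin n') (Fin n') ℂ)ᴴ =
        (π g : Matrix (Fin n) (Fin n) ℂ)ᴴ * T := by
      have h2 : (π g : Matrix (Fin n) (Fin n) ℂ)ᴴ * ((π g : Matrix (Fin n) (Fin n) ℂ) * T) *
          (π' g : Matrix (Fin n') (Fin n') ℂ)ᴴ = T * (π' g : Matrix (Fin n') (Fin n') ℂ)ᴴ := by
        rw [← Matrix.mul_assoc, pi_star, Matrix.one_mul]
      rw [← h2, h g, Matrix.mul_assoc, Matrix.mul_assoc, pi_star', Matrix.mul_one]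
    have h3 := congrArg Matrix.conjTranspose h1
    rw [Matrix.conjTranspose_mul, Matrix.conjTranspose_mul, Matrix.conjTranspose_conjTranspose,
      Matrix.conjTranspose_conjTranspose] at h3
    exact h3.symm
  obtain ⟨c, hc⟩ := hs (T * Tᴴ) fun g => by
    rw [← Matrix.mul_assoc, h, Matrix.mul_assoc, Matrix.mul_assoc, h']
  obtain ⟨c', hc'⟩ := hs' (Tᴴ * T) fun g => by
    rw [← Matrix.mul_assoc, ← h', Matrix.mul_assoc, Matrix.mul_assoc, h]
  have hcc : c = c' := by
    have h1 : (T * Tᴴ) * T = T * (Tᴴ * T) := Matrix.mul_assoc _ _ _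
    rw [hc, hc', Matrix.smul_mul, Matrix.one_mul, Matrix.mul_smul, Matrix.mul_one] at h1
    exact smul_left_injective ℂ hT h1
  have hc0 : c ≠ 0 := by
    intro h0
    rw [h0, zero_smul] at hc
    exact hT (Matrix.self_mul_conjTranspose_eq_zero.1 hc)
  have h1 : ((π g : Matrix (Fin n) (Fin n) ℂ) * (T * Tᴴ)).trace = c * chi π g := by
    rw [hc, Matrix.mul_smul, Matrix.mul_one, Matrix.trace_smul]
    rfl
  have h2 : ((π g : Matrix (Fin n) (Fin n) ℂ) * (T * Tᴴ)).trace = c * chi π' g := by
    rw [← Matrix.mul_assoc, h, Matrix.mul_assoc, Matrix.trace_mul_comm, Matrix.mul_assoc, hc',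
      Matrix.mul_smul, Matrix.mul_one, Matrix.trace_smul, ← hcc]
    rfl
  exact mul_left_cancel₀ hc0 (h1.symm.trans h2)

theorem avr_single (i : Fin n) (j : Fin n') (g : G) : avr π π' (Matrix.single i j 1) g i j =
    (π g : Matrix (Fin n) (Fin n) ℂ) i i * conj ((π' g : Matrix (Fin n') (Fin n') ℂ) j j) := by
  unfold avr
  rw [Matrix.mul_apply, Finset.sum_eq_single j]
  · rw [Matrix.mul_single_apply_same, mul_one, Matrix.conjTranspose_apply]
    rfl
  · intro b _ hb
    rw [Matrix.mul_single_apply_of_ne _ _ _ _ _ hb, zero_mul]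
  · intro h
    exact absurd (Finset.mem_univ _) h

/-- **Orthogonality of different characters.** -/
theorem int_mul_conj (hc : Continuous π) (hs : Schur π) (hc' : Continuous π') (hs' : Schur π')
    (hne : chi π ≠ chi π') : ∫ g, chi π g * conj (chi π' g) ∂μ = 0 := by
  have h2 : ∀ g, chi π g * conj (chi π' g) =
      ∑ i, ∑ j, avr π π' (Matrix.single i j 1) g i j := by
    intro g
    unfold chi Matrix.trace
    rw [map_sum, Finset.sum_mul_sum]
    exact Finset.sum_congr rfl fun i _ => Finset.sum_congr rfl fun j _ => (avr_single i j g).symm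
  have h3 : ∀ (i : Fin n) (j : Fin n'),
      ∫ g, avr π π' (Matrix.single i j 1) g i j ∂μ = 0 := by
    intro i j
    by_contra hcon
    refine hne (funext fun g => chi_eq_of_intertwiner hs hs'
      (T := mir μ (avr π π' (Matrix.single i j 1))) ?_ (fun g => comm_avr hc hc' _ g) g)
    intro h0
    apply hcon
    have := congrFun (congrFun h0 i) j
    exact this
  simp only [h2]
  rw [integral_finsetSum _ fun i _ => integrable_finsetSum _ fun j _ =>
    intg ((cont_avr hc hc' _).matrix_elem i j)]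
  refine Finset.sum_eq_zero fun i _ => ?_
  rw [integral_finsetSum _ fun j _ => intg ((cont_avr hc hc' _).matrix_elem i j)]
  exact Finset.sum_eq_zero fun j _ => h3 i j

/-- invariance under inversion -/
theorem int_inv_real {f : G → ℝ} (hf : Continuous f) : ∫ g, f g⁻¹ ∂μ = ∫ g, f g ∂μ := by
  have h1 := Measure.integral_isMulLeftInvariant_isMulRightInvariant_combo (μ := μ) (ν := μ.inv)
    hf (HasCompactSupport.of_compactSpace f) (g := fun _ => (1 : ℝ)) continuous_const
    (HasCompactSupport.of_compactSpace _) (fun _ => zero_le_one) (x₀ := 1) one_ne_zero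
  have h3 : μ.inv = μ.map Inv.inv := rfl
  have h2 : ∀ f : G → ℝ, Continuous f → ∫ g, f g ∂μ.inv = ∫ g, f g⁻¹ ∂μ := by
    intro f hf
    rw [h3]
    exact integral_map continuous_inv.measurable.aemeasurable hf.aestronglyMeasurable
  have h4 : ∫ _, (1 : ℝ) ∂μ.inv = 1 := by
    rw [h2 _ continuous_const]
    simp
  have h5 : ∫ _ : G, (1 : ℝ) ∂μ = 1 := by simp
  simp only [h4, h5, inv_one, mul_one] at h1
  rw [h1]
  exact (h2 f hf).symm

theorem int_inv {f : G → ℂ} (hf : Continuous f) : ∫ g, f g⁻¹ ∂μ = ∫ g, f g ∂μ := by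
  have hi : Continuous fun g => f g⁻¹ := hf.comp continuous_inv
  have h1 := int_inv_real (μ := μ) (Complex.continuous_re.comp hf)
  have h2 := int_inv_real (μ := μ) (Complex.continuous_im.comp hf)
  have h3 := integral_re_add_im (𝕜 := ℂ) (intg (μ := μ) hf)
  have h4 := integral_re_add_im (𝕜 := ℂ) (intg (μ := μ) hi)
  rw [← h3, ← h4]
  simp only [Function.comp, RCLike.re_to_complex, RCLike.im_to_complex] at h1 h2 ⊢
  rw [h1, h2]

end

end Pool.Agent.TH553.ST
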