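import Pool.Agent.TH553.ST.Taub2

set_option autoImplicit false
set_option linter.unusedSectionVars false

/-!
# The Tauberian theorem for Euler products of unitary matrices over a number field, third part
-/

namespace Pool.Agent.TH553.ST

open Complex Filter Topology ComplexConjugate NumberField IsDedekindDomain
  Pool.Agent.W540.BE Pool.Agent.TH553.RS H332.PIT

section

variable {K : Type} [Field K] [NumberField K]

theorem LamK_prime_eq {p : ℕ} (hp : p.Prime) :
    LamK K p = Real.log p * ((fiber_finite (F := K) p).toFinset.card : ℝ) := by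
  classical
  unfold LamK
  have h1 : ∀ v ∈ prLE K p, (∑ k ∈ Finset.Icc 1 p, if Pool.Agent.H921R2.TatePole.nm v ^ k = p
      then Real.log (Pool.Agent.H921R2.TatePole.nm v) else 0) =
      if nm K v = p then Real.log p else 0 := by
    intro v _
    have hnm : Pool.Agent.H921R2.TatePole.nm v = nm K v := rfl
    rw [hnm]
    split_ifs with h
    · rw [Finset.sum_eq_single 1]
      · rw [pow_one, if_pos h, h]
      · intro k hk hk1
        rw [if_neg]
        rw [h]
        intro h2
        have h3 : p ^ k = p ^ 1 := by rw [h2, pow_one]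
        exact hk1 (Nat.pow_right_injective hp.two_le h3)
      · intro h2
        exfalso
        apply h2
        rw [Finset.mem_Icc]
        exact ⟨le_rfl, hp.one_lt.le⟩
    · refine Finset.sum_eq_zero fun k hk => ?_
      rw [Finset.mem_Icc] at hk
      rw [if_neg]
      intro h2
      apply h
      have h3 : nm K v ∣ p := by
        rw [← h2]
        exact dvd_pow_self _ (by omega)
      rcases (Nat.dvd_prime hp).1 h3 with h4 | h4
      · have := two_le_nm v
        omega
      · exact h4
  rw [Finset.sum_congr rfl h1, ← Finset.sum_filter, Finset.sum_const, nsmul_eq_mul, mul_comm]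
  congr 3
  ext v
  rw [Finset.mem_filter, mem_prLE, Set.Finite.mem_toFinset, Set.mem_ofPred_eq]
  constructor
  · exact fun h => h.2
  · exact fun h => ⟨le_of_eq h, h⟩

/-- the sum of the logarithms -/
noncomputable def WK (K : Type) [Field K] [NumberField K] (n : ℕ) : ℝ :=
  ∑ v ∈ upto K n, Real.log (nm K v)

theorem WK_eq (n : ℕ) : WK K n = ∑ k ∈ Finset.Icc 1 n,
    Real.log k * ((fiber_finite (F := K) k).toFinset.card : ℝ) := by
  classical
  unfold WK
  rw [← Finset.sum_fiberwise_of_maps_to (s := upto K n) (t := Finset.Icc 1 n) (g := nm K)]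
  · refine Finset.sum_congr rfl fun k hk => ?_
    have h1 : (upto K n).filter (fun v => nm K v = k) = (fiber_finite (F := K) k).toFinset := by
      ext v
      rw [Set.Finite.mem_toFinset, Set.mem_ofPred_eq, Finset.mem_filter, mem_upto]
      rw [Finset.mem_Icc] at hk
      constructor
      · exact fun h => h.2
      · exact fun h => ⟨h ▸ hk.2, h⟩
    rw [h1, Finset.sum_congr rfl (g := fun _ => Real.log k), Finset.sum_const, nsmul_eq_mul,
      mul_comm]
    intro v hv
    rw [Set.Finite.mem_toFinset, Set.mem_ofPred_eq] at hv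
    rw [hv]
  · intro v hv
    rw [mem_upto] at hv
    rw [Finset.mem_Icc]
    have := two_le_nm v
    exact ⟨by omega, hv⟩

theorem TT_le_WK (n : ℕ) : TT K n ≤ WK K n := by
  classical
  rw [WK_eq]
  unfold TT
  rw [← Icc_eq]
  refine le_trans (le_of_eq (Finset.sum_congr rfl fun p hp => ?_))
    (Finset.sum_le_sum_of_subset_of_nonneg (Finset.filter_subset _ _) fun k _ _ => by
      have := Real.log_natCast_nonneg k
      positivity)
  rw [← LamK_prime' (Finset.mem_filter.1 hp).2, LamK_prime_eq (Finset.mem_filter.1 hp).2]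

theorem pi_log : Tendsto (fun N : ℕ => (Nat.primeCounting N : ℝ) * Real.log N / N) atTop
    (𝓝 1) := by
  have := Pool.Agent.Helper923.PNT.pi_tendsto.comp (tendsto_natCast_atTop_atTop (R := ℝ))
  refine this.congr fun N => ?_
  simp only [Function.comp, Nat.floor_natCast]

theorem card_log : Tendsto (fun n : ℕ => ((upto K n).card : ℝ) * Real.log n / n) atTop (𝓝 1) := by
  have h1 := (card_ratio (K := K)).mul pi_log
  rw [one_mul] at h1
  refine h1.congr' ?_
  filter_upwards [eventually_ge_atTop 2] with n hn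
  have hp : (Nat.primeCounting n : ℝ) ≠ 0 := by
    have : Nat.primeCounting n ≠ 0 := by
      rw [Ne, Nat.primeCounting_eq_zero_iff]
      omega
    exact_mod_cast this
  field_simp

theorem log_le_log {n : ℕ} {v : HeightOneSpectrum (𝓞 K)} (hv : v ∈ upto K n) :
    0 ≤ Real.log n - Real.log (nm K v) := by
  rw [mem_upto] at hv
  have h1 : (0 : ℝ) < nm K v := by
    have := two_le_nm v
    exact_mod_cast (by omega : 0 < nm K v)
  have := Real.log_le_log h1 (by exact_mod_cast hv : (nm K v : ℝ) ≤ n)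
  linarith

theorem WK_tendsto : Tendsto (fun n : ℕ => (((upto K n).card : ℝ) * Real.log n - WK K n) / n) atTop
    (𝓝 0) := by
  have h1 := (card_log (K := K)).sub (TT_tendsto (K := K) (Pool.Agent.H484R2.continuation K))
  rw [sub_self] at h1
  refine squeeze_zero (fun n => ?_) (fun n => ?_) h1
  · refine div_nonneg ?_ (Nat.cast_nonneg _)
    have : ((upto K n).card : ℝ) * Real.log n - WK K n =
        ∑ v ∈ upto K n, (Real.log n - Real.log (nm K v)) := by
      rw [Finset.sum_sub_distrib, Finset.sum_const, nsmul_eq_mul]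
      rfl
    rw [this]
    exact Finset.sum_nonneg fun v hv => log_le_log hv
  · rw [← sub_div]
    refine div_le_div_of_nonneg_right ?_ (Nat.cast_nonneg _)
    have := TT_le_WK (K := K) n
    linarith

/-- **The Tauberian theorem.** -/
theorem taub_mn {t : HeightOneSpectrum (𝓞 K) → ℂ} {B : ℝ} (hB0 : 0 ≤ B) (ht : ∀ v, ‖t v‖ ≤ B)
    (hbd : ∀ s : ℂ, 1 ≤ s.re → ∃ y, Tendsto (S t) (𝓝[{s : ℂ | 1 < s.re}] s) (𝓝 y)) :
    Tendsto (mn t) atTop (𝓝 0) := by
  have key : ∀ ζ : ℂ, ‖ζ‖ ≤ 1 → Tendsto (fun N : ℕ =>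
      (∑ k ∈ Finset.Icc 1 N, wt ζ t k) / (N : ℝ)) atTop (𝓝 0) := by
    intro ζ hζ
    have h1 := (sum_wt (K := K) hB0 ht hbd hζ).comp (tendsto_natCast_atTop_atTop (R := ℝ))
    have h2 := ((sum_LamK (K := K) (Pool.Agent.H484R2.continuation K)).comp
      (tendsto_natCast_atTop_atTop (R := ℝ))).const_mul B
    have h3 := h1.sub h2
    rw [mul_one, sub_self] at h3
    refine h3.congr fun N => ?_
    simp only [Function.comp, Nat.floor_natCast]
    rw [Finset.sum_add_distrib, ← Finset.mul_sum]
    ring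
  -- the weighted sums
  set T : ℕ → ℂ := fun N => ∑ k ∈ Finset.Icc 1 N, lc t k with hT
  have hT0 : Tendsto (fun N : ℕ => T N / (N : ℂ)) atTop (𝓝 0) := by
    have k1 := key 1 (by simp)
    have k2 := key (-I) (by simp)
    have h1 : Tendsto (fun N : ℕ => (((∑ k ∈ Finset.Icc 1 N, wt 1 t k) / (N : ℝ) : ℝ) : ℂ) +
        (((∑ k ∈ Finset.Icc 1 N, wt (-I) t k) / (N : ℝ) : ℝ) : ℂ) * I) atTop
        (𝓝 (((0 : ℝ) : ℂ) + ((0 : ℝ) : ℂ) * I)) :=
      ((Complex.continuous_ofReal.tendsto _).comp k1).add
        (((Complex.continuous_ofReal.tendsto _).comp k2).mul_const I)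
    rw [Complex.ofReal_zero, zero_mul, add_zero] at h1
    refine h1.congr fun N => ?_
    push_cast
    rw [div_mul_eq_mul_div, ← add_div, Finset.sum_mul, ← Finset.sum_add_distrib]
    congr 1
    refine Finset.sum_congr rfl fun k _ => ?_
    have h2 : wt 1 t k = (lc t k).re := by simp [wt]
    have h3 : wt (-I) t k = (lc t k).im := by simp [wt]
    rw [h2, h3]
    exact Complex.re_add_im (lc t k)
  have hTv : ∀ N, T N = ∑ v ∈ upto K N, (Real.log (nm K v) : ℂ) * t v := by
    intro N
    rw [← sum_nf (fun v => (Real.log (nm K v) : ℂ) * t v) N]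
    refine Finset.sum_congr rfl fun k _ => ?_
    rw [lc_eq]
    unfold nf
    rw [Finset.mul_sum]
    refine Finset.sum_congr rfl fun v hv => ?_
    rw [Set.Finite.mem_toFinset, Set.mem_ofPred_eq] at hv
    simp only [hv]
  set A : ℕ → ℂ := fun N => ∑ v ∈ upto K N, t v with hA
  have hdiff : ∀ N : ℕ, ‖A N * ((Real.log N : ℝ) : ℂ) - T N‖ ≤
      B * (((upto K N).card : ℝ) * Real.log N - WK K N) := by
    intro N
    have e1 : A N * ((Real.log N : ℝ) : ℂ) - T N =
        ∑ v ∈ upto K N, ((Real.log N - Real.log (nm K v) : ℝ) : ℂ) * t v := by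
      rw [hTv, hA]
      simp only
      rw [Finset.sum_mul, ← Finset.sum_sub_distrib]
      exact Finset.sum_congr rfl fun v _ => by push_cast; ring
    have e2 : ((upto K N).card : ℝ) * Real.log N - WK K N =
        ∑ v ∈ upto K N, (Real.log N - Real.log (nm K v)) := by
      rw [Finset.sum_sub_distrib, Finset.sum_const, nsmul_eq_mul]
      rfl
    rw [e1, e2, Finset.mul_sum]
    refine (norm_sum_le _ _).trans (Finset.sum_le_sum fun v hv => ?_)
    rw [norm_mul, Complex.norm_real, Real.norm_of_nonneg (log_le_log hv), mul_comm]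
    exact mul_le_mul_of_nonneg_right (ht v) (log_le_log hv)
  have h0 : Tendsto (fun N : ℕ => B * ((((upto K N).card : ℝ) * Real.log N - WK K N) / N)) atTop
      (𝓝 0) := by
    have := (WK_tendsto (K := K)).const_mul B
    simpa using this
  have h1 : Tendsto (fun N : ℕ => A N * ((Real.log N : ℝ) : ℂ) / N - T N / N) atTop (𝓝 0) := by
    refine squeeze_zero_norm (fun N => ?_) h0
    rw [← sub_div, norm_div, ← mul_div_assoc]
    have e4 : ‖(N : ℂ)‖ = N := by simp
    rw [e4]
    exact div_le_div_of_nonneg_right (hdiff N) (Nat.cast_nonneg _)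
  have h2 : Tendsto (fun N : ℕ => A N * ((Real.log N : ℝ) : ℂ) / N) atTop (𝓝 0) := by
    have := h1.add hT0
    rw [zero_add] at this
    exact this.congr fun N => by ring
  have hpi' : Tendsto (fun N : ℕ => (((Nat.primeCounting N : ℝ) * Real.log N / N : ℝ) : ℂ)) atTop
      (𝓝 ((1 : ℝ) : ℂ)) := (Complex.continuous_ofReal.tendsto _).comp pi_log
  have h3 := h2.div hpi' (by simp)
  rw [ofReal_one, div_one] at h3
  refine mn_of_pi (h3.congr' ?_)
  filter_upwards [eventually_ge_atTop 2] with N hN
  have hl : ((Real.log N : ℝ) : ℂ) ≠ 0 := by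
    have : 0 < Real.log N := Real.log_pos (by exact_mod_cast hN)
    exact_mod_cast this.ne'
  have hN0 : (N : ℂ) ≠ 0 := by
    have : N ≠ 0 := by omega
    exact_mod_cast this
  have hp : (Nat.primeCounting N : ℂ) ≠ 0 := by
    have : Nat.primeCounting N ≠ 0 := by
      rw [Ne, Nat.primeCounting_eq_zero_iff]
      omega
    exact_mod_cast this
  simp only [Pi.div_apply]
  push_cast
  have hl' : Complex.log (N : ℂ) ≠ 0 := by
    rw [← Complex.natCast_log]
    exact hl
  field_simp
  rfl

/-- **The Tauberian theorem for Euler products of unitary matrices.** -/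
theorem taub {b : ℕ} {α : HeightOneSpectrum (𝓞 K) → Fin b → ℂ} (hα : ∀ v j, ‖α v j‖ = 1)
    {L : ℂ → ℂ} (hL : ∀ s : ℂ, 1 < s.re →
      L s = ∏' v, (∏ j, (1 - α v j * ((nm K v : ℕ) : ℂ) ^ (-s)))⁻¹)
    (hc : ∀ τ : ℝ, ∃ Λ : ℂ → ℂ, AnalyticAt ℂ Λ (1 + τ * I) ∧ Λ (1 + τ * I) ≠ 0 ∧
      ∀ᶠ s in 𝓝 ((1 : ℂ) + τ * I), 1 < s.re → Λ s = L s) :
    Tendsto (mn fun v => ∑ j, α v j) atTop (𝓝 0) :=
  taub_mn (Nat.cast_nonneg b) (sum_le hα) fun _ hs => bd_S hα hL hc hs

end

end Pool.Agent.TH553.ST
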