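import Pool.Agent.TH553.ST.Mom
import Pool.Agent.TH553.ST.Taub3

set_option autoImplicit false
set_option linter.unusedSectionVars false

/-!
# Two equidistributed families
-/

namespace Pool.Agent.TH553.ST

open Complex Filter Topology ComplexConjugate NumberField IsDedekindDomain MeasureTheory
  Pool.Agent.W540.BE Pool.Agent.TH553.RS Pool.Agent.H341R2
open scoped Kronecker

/-- a uniform version of strict inequalities along ultrafilters -/
theorem unif_lt {X : ℝ → ℝ} (h : ∀ U : Ultrafilter ℝ, (U : Filter ℝ) ≤ 𝓝[>] 0 →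
    ∃ r, Tendsto X U (𝓝 r) ∧ |r| < 1) : ∃ δ : ℝ, 0 < δ ∧ ∀ᶠ ε in 𝓝[>] (0 : ℝ), |X ε| ≤ 1 - δ := by
  by_contra hcon
  push Not at hcon
  have h1 : ∀ n : ℕ, ∃ ε : ℝ, 0 < ε ∧ ε < 1 / ((n : ℝ) + 1) ∧ 1 - 1 / ((n : ℝ) + 1) < |X ε| := by
    intro n
    have h2 := hcon (1 / ((n : ℝ) + 1)) (by positivity)
    have h3 : ∀ᶠ ε : ℝ in 𝓝[>] 0, 0 < ε ∧ ε < 1 / ((n : ℝ) + 1) := by
      filter_upwards [self_mem_nhdsWithin, (eventually_lt_nhds (show (0 : ℝ) < 1 / ((n : ℝ) + 1) by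
        positivity)).filter_mono nhdsWithin_le_nhds] with ε h4 h5
      exact ⟨h4, h5⟩
    obtain ⟨ε, h4, h5⟩ := (h2.and_eventually h3).exists
    exact ⟨ε, h5.1, h5.2, h4⟩
  choose e he1 he2 he3 using h1
  have h2 : Tendsto e atTop (𝓝[>] 0) := by
    rw [tendsto_nhdsWithin_iff]
    refine ⟨squeeze_zero (fun n => (he1 n).le) (fun n => (he2 n).le)
      tendsto_one_div_add_atTop_nhds_zero_nat, Filter.Eventually.of_forall he1⟩
  set V : Ultrafilter ℕ := Ultrafilter.of atTop with hV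
  have hV' : (V : Filter ℕ) ≤ atTop := Ultrafilter.of_le atTop
  obtain ⟨r, h3, h4⟩ := h (V.map e) (by
    rw [Ultrafilter.coe_map]
    exact (Filter.map_mono hV').trans h2)
  have h5 : Tendsto (fun n => |X (e n)|) V (𝓝 |r|) := by
    have h6 : Tendsto (fun n => X (e n)) V (𝓝 r) := by
      rw [Ultrafilter.coe_map, Filter.tendsto_map'_iff] at h3
      exact h3
    exact h6.abs
  have h6 : Tendsto (fun n : ℕ => 1 - 1 / ((n : ℝ) + 1)) V (𝓝 (1 - 0)) :=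
    (tendsto_const_nhds.sub tendsto_one_div_add_atTop_nhds_zero_nat).mono_left hV'
  have h7 := le_of_tendsto_of_tendsto' h6 h5 fun n => (he3 n).le
  linarith

section

variable {K : Type} [Field K] [NumberField K]
variable {G : Type} [Group G] [TopologicalSpace G] [IsTopologicalGroup G] [CompactSpace G]
  [MeasurableSpace G] [BorelSpace G]

/-- equidistribution -/
def Law (x : HeightOneSpectrum (𝓞 K) → G) (μ : Measure G) : Prop :=
  ∀ f : G → ℝ, Continuous f → (∀ g h, f (h * g * h⁻¹) = f g) →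
    Tendsto (mn fun v => f (x v)) atTop (𝓝 (∫ g, f g ∂μ))

variable {μ : Measure G} [IsProbabilityMeasure μ] [μ.IsHaarMeasure]

theorem bd_cont {f : G → ℝ} (hf : Continuous f) (x : HeightOneSpectrum (𝓞 K) → G) :
    Bd fun v => f (x v) := by
  obtain ⟨C, hC⟩ := (isCompact_univ (X := G)).exists_bound_of_continuousOn hf.continuousOn
  exact ⟨C, fun v => hC _ (Set.mem_univ _)⟩

theorem M_law {x : HeightOneSpectrum (𝓞 K) → G} (hx : Law x μ) {U : Ultrafilter ℝ}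
    (hU : (U : Filter ℝ) ≤ 𝓝[>] 0) {f : G → ℝ} (hf : Continuous f)
    (hcl : ∀ g h, f (h * g * h⁻¹) = f g) : (M (nm K) U fun v => f (x v)) = ∫ g, f g ∂μ :=
  M_of_mn hU (bd_cont hf x) (hx f hf hcl)

variable {n : ℕ} {π : G →* Matrix.unitaryGroup (Fin n) ℂ}

theorem cls_sq (k : ℕ) (g h : G) : (‖chi π (h * g * h⁻¹)‖ ^ 2) ^ k = (‖chi π g‖ ^ 2) ^ k := by
  rw [chi_cls]

/-- the coefficients -/
noncomputable def tc (π : G →* Matrix.unitaryGroup (Fin n) ℂ) (x : HeightOneSpectrum (𝓞 K) → G)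
    (τ : ℝ) (v : HeightOneSpectrum (𝓞 K)) : ℂ :=
  chi π (x v) * ((nm K v : ℕ) : ℂ) ^ (-(τ * I : ℂ))

theorem norm_tc (x : HeightOneSpectrum (𝓞 K) → G) (τ : ℝ) (v : HeightOneSpectrum (𝓞 K)) :
    ‖tc π x τ v‖ = ‖chi π (x v)‖ := by
  unfold tc
  rw [norm_mul, norm_cpow_I (nm_pos v), mul_one]

theorem bc_tc (x : HeightOneSpectrum (𝓞 K) → G) (τ : ℝ) : Bc (tc π x τ) :=
  ⟨n, fun v => by rw [norm_tc]; exact norm_chi π _⟩

theorem M_tc_pow {x : HeightOneSpectrum (𝓞 K) → G} (hx : Law x μ) (hc : Continuous π) (τ : ℝ)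
    {U : Ultrafilter ℝ} (hU : (U : Filter ℝ) ≤ 𝓝[>] 0) (k : ℕ) :
    (M (nm K) U fun v => (‖tc π x τ v‖ ^ 2) ^ k) = ∫ g, (‖chi π g‖ ^ 2) ^ k ∂μ := by
  simp only [norm_tc]
  exact M_law hx hU (f := fun g => (‖chi π g‖ ^ 2) ^ k) (cont_sq hc k) fun g h => cls_sq k g h

theorem M_tc_sq {x : HeightOneSpectrum (𝓞 K) → G} (hx : Law x μ) (hc : Continuous π)
    (hs : Schur π) (τ : ℝ) {U : Ultrafilter ℝ} (hU : (U : Filter ℝ) ≤ 𝓝[>] 0) :
    (M (nm K) U fun v => ‖tc π x τ v‖ ^ 2) ≤ 1 := by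
  have h1 := M_tc_pow hx hc τ hU 1
  simp only [pow_one] at h1
  rw [h1]
  exact int_sq_le hc hs

end

section

variable {K : Type} [Field K] [NumberField K]
variable {G : Type} [Group G] [TopologicalSpace G] [IsTopologicalGroup G] [CompactSpace G]
  [MeasurableSpace G] [BorelSpace G] {μ : Measure G} [IsProbabilityMeasure μ] [μ.IsHaarMeasure]
  {n : ℕ} {π : G →* Matrix.unitaryGroup (Fin n) ℂ}
variable {G' : Type} [Group G'] [TopologicalSpace G'] [IsTopologicalGroup G'] [CompactSpace G']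
  [MeasurableSpace G'] [BorelSpace G'] {μ' : Measure G'} [IsProbabilityMeasure μ']
  [μ'.IsHaarMeasure] {n' : ℕ} {π' : G' →* Matrix.unitaryGroup (Fin n') ℂ}

/-- the L-function -/
noncomputable def LP (π : G →* Matrix.unitaryGroup (Fin n) ℂ) (x : HeightOneSpectrum (𝓞 K) → G)
    (π' : G' →* Matrix.unitaryGroup (Fin n') ℂ) (x' : HeightOneSpectrum (𝓞 K) → G') (s : ℂ) : ℂ :=
  ∏' v, (Matrix.det (1 - (((nm K v : ℕ) : ℂ) ^ (-s)) •
    ((π (x v) : Matrix (Fin n) (Fin n) ℂ) ⊗ₖ (π' (x' v) : Matrix (Fin n') (Fin n') ℂ))))⁻¹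

theorem exists_al (π : G →* Matrix.unitaryGroup (Fin n) ℂ) (x : HeightOneSpectrum (𝓞 K) → G)
    (π' : G' →* Matrix.unitaryGroup (Fin n') ℂ) (x' : HeightOneSpectrum (𝓞 K) → G') :
    ∃ α : HeightOneSpectrum (𝓞 K) → Fin (Fintype.card (Fin n × Fin n')) → ℂ,
      (∀ v j, ‖α v j‖ = 1) ∧ (∀ v, ∑ j, α v j = chi π (x v) * chi π' (x' v)) ∧
      ∀ v (c : ℂ), Matrix.det (1 - c •
        ((π (x v) : Matrix (Fin n) (Fin n) ℂ) ⊗ₖ (π' (x' v) : Matrix (Fin n') (Fin n') ℂ))) =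
        ∏ j, (1 - α v j * c) := by
  have h : ∀ v, ((π (x v) : Matrix (Fin n) (Fin n) ℂ) ⊗ₖ
      (π' (x' v) : Matrix (Fin n') (Fin n') ℂ)) ∈ Matrix.unitaryGroup (Fin n × Fin n') ℂ :=
    fun v => Matrix.kronecker_mem_unitary (π (x v)).2 (π' (x' v)).2
  choose α h1 h2 h3 using fun v => exists_eig (h v)
  refine ⟨α, h1, fun v => ?_, h3⟩
  rw [h2, Matrix.trace_kronecker]
  rfl

/-- size and correlation -/
theorem size_LP (π : G →* Matrix.unitaryGroup (Fin n) ℂ) (x : HeightOneSpectrum (𝓞 K) → G)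
    (π' : G' →* Matrix.unitaryGroup (Fin n') ℂ) (x' : HeightOneSpectrum (𝓞 K) → G') (τ : ℝ) :
    (∀ᶠ ε : ℝ in 𝓝[>] 0, LP π x π' x' (1 + τ * I + ε) ≠ 0) ∧
    Tendsto (fun ε : ℝ => qt (nm K) (fun v => (tc π x 0 v * tc π' x' τ v).re) ε -
      Real.log ‖LP π x π' x' (1 + τ * I + ε)‖ / Real.log (1 / ε)) (𝓝[>] 0) (𝓝 0) := by
  obtain ⟨α, h1, h2, h3⟩ := exists_al π x π' x'
  set B : HeightOneSpectrum (𝓞 K) → Polynomial ℂ := fun v =>
    ∏ j, (1 - Polynomial.C (α v j) * Polynomial.X) with hB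
  have hBe : ∀ v z, (B v).eval z = ∏ j, (1 - α v j * z) := by
    intro v z
    rw [hB]
    simp [Polynomial.eval_prod]
  have h := size_unit (sysF K) α (Filter.Eventually.of_forall h1)
    (t := fun v => chi π (x v) * chi π' (x' v)) (C := (n : ℝ) * n')
    (fun v => by
      rw [norm_mul]
      exact mul_le_mul (norm_chi π _) (norm_chi π' _) (norm_nonneg _) (Nat.cast_nonneg _))
    (Filter.Eventually.of_forall h2) τ B (Filter.Eventually.of_forall hBe)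
    (fun v => by
      rw [hBe, Finset.prod_ne_zero_iff]
      intro j _ h4
      have h5 : ‖α v j * ((nm K v : ℕ) : ℂ) ^ (-(1 + τ * I : ℂ))‖ = 1 := by
        have : α v j * ((nm K v : ℕ) : ℂ) ^ (-(1 + τ * I : ℂ)) = 1 := by linear_combination -h4
        rw [this, norm_one]
      rw [norm_mul, h1, one_mul] at h5
      have h6 := cpow_le_half normSys v (s := 1 + τ * I) (by simp)
      linarith) (LP π x π' x')
    (fun s _ => by
      unfold LP
      refine tprod_congr fun v => ?_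
      rw [h3, hBe])
  refine ⟨h.1, ?_⟩
  have e : (fun v => (tc π x 0 v * tc π' x' τ v).re) = fun v =>
      (chi π (x v) * chi π' (x' v) * ((nm K v : ℕ) : ℂ) ^ (-(τ * I : ℂ))).re := by
    funext v
    unfold tc
    simp only [Complex.ofReal_zero, zero_mul, neg_zero, Complex.cpow_zero, mul_one]
    rw [mul_assoc]
  rw [e]
  exact h.2

/-- the data along an ultrafilter -/
theorem pair_lim {x : HeightOneSpectrum (𝓞 K) → G} {x' : HeightOneSpectrum (𝓞 K) → G'}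
    (hx : Law x μ) (hx' : Law x' μ') (hc : Continuous π) (hs : Schur π) (hc' : Continuous π')
    (hs' : Schur π') (τ : ℝ) {U : Ultrafilter ℝ} (hU : (U : Filter ℝ) ≤ 𝓝[>] 0) :
    ∃ r : ℝ, Tendsto (fun ε : ℝ => Real.log ‖LP π x π' x' (1 + τ * I + ε)‖ / Real.log (1 / ε)) U
        (𝓝 r) ∧ r ^ 2 ≤ 1 ∧
      (1 ≤ r ^ 2 → |r| = 1 ∧
        (M (nm K) U fun v => ‖df r (tc π x 0) (tc π' x' τ) v‖ ^ 2) = 0 ∧
        ∀ k : ℕ, ∫ g, (‖chi π g‖ ^ 2) ^ k ∂μ = ∫ g, (‖chi π' g‖ ^ 2) ^ k ∂μ') := by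
  have hN := sysF K
  have hb := bc_tc (π := π) x 0
  have hb' := bc_tc (π := π') x' τ
  have h1 := M_tc_sq (π := π) hx hc hs 0 hU
  have h2 := M_tc_sq (π := π') hx' hc' hs' τ hU
  set r := M (nm K) U fun v => (tc π x 0 v * tc π' x' τ v).re with hr
  have h3 := edge_le hN hU hb hb' h1 h2
  refine ⟨r, ?_, h3, fun h4 => ?_⟩
  · have h5 := M_lim hN hU (hb.mul hb').re
    have h6 := h5.sub ((size_LP π x π' x' τ).2.mono_left hU)
    rw [sub_zero] at h6
    refine h6.congr fun ε => ?_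
    ring
  · have h5 : |r| = 1 := by
      have h6 : r ^ 2 = 1 := le_antisymm h3 h4
      have h7 : |r| ^ 2 = 1 := by rw [sq_abs]; exact h6
      exact (pow_eq_one_iff_of_nonneg (abs_nonneg _) two_ne_zero).1 h7
    have h6 := edge_eq hN hU hb hb' h1 h2 hr.symm h4
    refine ⟨h5, h6, fun k => ?_⟩
    rw [← M_tc_pow (π := π) hx hc 0 hU k, ← M_tc_pow (π := π') hx' hc' τ hU k]
    exact edge_mom hN hU hb hb' h5 h6 k

end

end Pool.Agent.TH553.ST
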