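import Pool.Agent.TH553.ST.Pair

set_option autoImplicit false
set_option linter.unusedSectionVars false

/-!
# Two equidistributed families, the conclusions
-/

namespace Pool.Agent.TH553.ST

open Complex Filter Topology ComplexConjugate NumberField IsDedekindDomain MeasureTheory
  Pool.Agent.W540.BE Pool.Agent.TH553.RS Pool.Agent.H341R2
open scoped Kronecker

theorem log_tendsto : Tendsto (fun ε : ℝ => Real.log (1 / ε)) (𝓝[>] 0) atTop := by
  have h1 := tendsto_neg_atBot_atTop.comp Real.tendsto_log_nhdsGT_zero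
  refine h1.congr fun ε => ?_
  rw [one_div, Real.log_inv]
  rfl

/-- from quotients by `lam` to quotients by the logarithm, for the limit zero -/
theorem zero_log {P : Type*} {N : P → ℕ} (hN : Sys N) {φ : P → ℝ} (hφ : Bd φ)
    (h : Tendsto (qt N φ) (𝓝[>] 0) (𝓝 0)) :
    Tendsto (fun ε => EP N ε φ / Real.log (1 / ε)) (𝓝[>] 0) (𝓝 0) := by
  obtain ⟨C, hC⟩ := hN.bdd hφ
  have h1 : ∀ᶠ ε : ℝ in 𝓝[>] 0, |EP N ε φ| ≤ C * lam ε := by
    filter_upwards [hC, lam_tendsto.eventually_gt_atTop 0] with ε h1 h2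
    unfold qt at h1
    rwa [abs_div, abs_of_pos h2, div_le_iff₀ h2] at h1
  have h2 := size_compare (y := fun ε => EP N ε φ) (ℓ := fun ε => EP N ε φ) (M := C) (C := 0) h1
    (Filter.Eventually.of_forall fun ε => by simp)
  have h3 := h.sub h2
  rw [sub_zero] at h3
  refine h3.congr fun ε => ?_
  unfold qt
  ring

section

variable {K : Type} [Field K] [NumberField K]
variable {G : Type} [Group G] [TopologicalSpace G] [IsTopologicalGroup G] [CompactSpace G]
  [MeasurableSpace G] [BorelSpace G] {μ : Measure G} [IsProbabilityMeasure μ] [μ.IsHaarMeasure]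
  {n : ℕ} {π : G →* Matrix.unitaryGroup (Fin n) ℂ}
variable {G' : Type} [Group G'] [TopologicalSpace G'] [IsTopologicalGroup G'] [CompactSpace G']
  [MeasurableSpace G'] [BorelSpace G'] {μ' : Measure G'} [IsProbabilityMeasure μ']
  [μ'.IsHaarMeasure] {n' : ℕ} {π' : G' →* Matrix.unitaryGroup (Fin n') ℂ}
  {x : HeightOneSpectrum (𝓞 K) → G} {x' : HeightOneSpectrum (𝓞 K) → G'}

/-- the laws of the absolute values of the characters are the same -/
def Same (π : G →* Matrix.unitaryGroup (Fin n) ℂ) (μ : Measure G)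
    (π' : G' →* Matrix.unitaryGroup (Fin n') ℂ) (μ' : Measure G') : Prop :=
  ∀ k : ℕ, ∫ g, (‖chi π g‖ ^ 2) ^ k ∂μ = ∫ g, (‖chi π' g‖ ^ 2) ^ k ∂μ'

/-- the size -/
noncomputable def sz (π : G →* Matrix.unitaryGroup (Fin n) ℂ) (x : HeightOneSpectrum (𝓞 K) → G)
    (π' : G' →* Matrix.unitaryGroup (Fin n') ℂ) (x' : HeightOneSpectrum (𝓞 K) → G') (τ ε : ℝ) :
    ℝ := Real.log ‖LP π x π' x' (1 + τ * I + ε)‖ / Real.log (1 / ε)

theorem pair_le (hx : Law x μ) (hx' : Law x' μ') (hc : Continuous π) (hs : Schur π)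
    (hc' : Continuous π') (hs' : Schur π') (τ : ℝ) {η : ℝ} (hη : 0 < η) :
    ∀ᶠ ε in 𝓝[>] (0 : ℝ), |sz π x π' x' τ ε| ≤ 1 + η := by
  refine eventually_of_ultra fun U hU => ?_
  obtain ⟨r, h1, h2, -⟩ := pair_lim hx hx' hc hs hc' hs' τ hU
  have h3 : |r| ≤ 1 := by
    rw [← sq_abs] at h2
    exact (pow_le_one_iff_of_nonneg (abs_nonneg _) two_ne_zero).1 h2
  exact (h1.abs.eventually_lt_const (lt_of_le_of_lt h3 (by linarith))).mono fun ε hε => hε.le

theorem pair_lt (hx : Law x μ) (hx' : Law x' μ') (hc : Continuous π) (hs : Schur π)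
    (hc' : Continuous π') (hs' : Schur π') (hd : ¬ Same π μ π' μ') (τ : ℝ) :
    ∃ δ : ℝ, 0 < δ ∧ ∀ᶠ ε in 𝓝[>] (0 : ℝ), |sz π x π' x' τ ε| ≤ 1 - δ := by
  refine unif_lt fun U hU => ?_
  obtain ⟨r, h1, h2, h3⟩ := pair_lim hx hx' hc hs hc' hs' τ hU
  refine ⟨r, h1, ?_⟩
  by_contra hcon
  push Not at hcon
  have h4 : 1 ≤ r ^ 2 := by
    rw [← sq_abs]
    exact one_le_pow₀ hcon
  exact hd fun k => (h3 h4).2.2 k

/-- a local continuation has an order, and the size tends to its negative -/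
theorem order_LP {τ : ℝ} {Λ : ℂ → ℂ} (h1 : MeromorphicAt Λ (1 + τ * I))
    (h2 : ∀ᶠ s in 𝓝 ((1 : ℂ) + τ * I), (1 : ℝ) < s.re → Λ s = LP π x π' x' s) :
    ∃ m : ℤ, meromorphicOrderAt Λ (1 + τ * I) = m ∧
      Tendsto (sz π x π' x' τ) (𝓝[>] 0) (𝓝 (-(m : ℝ))) :=
  order_unit (size_LP π x π' x' τ).1 h1 h2

theorem pair_zero (hx : Law x μ) (hx' : Law x' μ') (hc : Continuous π) (hs : Schur π)
    (hc' : Continuous π') (hs' : Schur π') (hd : ¬ Same π μ π' μ') {τ : ℝ} {m : ℤ}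
    (hm : Tendsto (sz π x π' x' τ) (𝓝[>] 0) (𝓝 (-(m : ℝ)))) : m = 0 := by
  obtain ⟨δ, h1, h2⟩ := pair_lt hx hx' hc hs hc' hs' hd τ
  have h3 := le_of_tendsto hm.abs h2
  rw [abs_neg] at h3
  have h4 : |(m : ℝ)| < 1 := by linarith
  have h5 : |m| < 1 := by exact_mod_cast h4
  exact Int.abs_lt_one_iff.1 h5

/-- the rigidity of the exceptional case -/
theorem pair_rigid (hx : Law x μ) (hx' : Law x' μ') (hc : Continuous π) (hs : Schur π)
    (hc' : Continuous π') (hs' : Schur π') {τ : ℝ} {m : ℤ}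
    (hm : Tendsto (sz π x π' x' τ) (𝓝[>] 0) (𝓝 (-(m : ℝ)))) (hm0 : m ≠ 0) :
    |m| = 1 ∧ Same π μ π' μ' ∧ ∀ δ : ℝ, 0 < δ →
      Tendsto (fun ε => EP (nm K) ε ({v | δ < ‖df (-(m : ℝ)) (tc π x 0) (tc π' x' τ) v‖}.indicator
        fun _ => 1) / Real.log (1 / ε)) (𝓝[>] 0) (𝓝 0) := by
  have h0 : (1 : ℝ) ≤ (-(m : ℝ)) ^ 2 := by
    rw [neg_sq]
    have : 1 ≤ m ^ 2 := by
      have := Int.one_le_abs hm0
      rw [← sq_abs]
      nlinarith
    exact_mod_cast this
  have key : ∀ U : Ultrafilter ℝ, (U : Filter ℝ) ≤ 𝓝[>] 0 → |(-(m : ℝ))| = 1 ∧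
      (M (nm K) U fun v => ‖df (-(m : ℝ)) (tc π x 0) (tc π' x' τ) v‖ ^ 2) = 0 ∧
      Same π μ π' μ' := by
    intro U hU
    obtain ⟨r, h1, h2, h3⟩ := pair_lim hx hx' hc hs hc' hs' τ hU
    have h4 : r = -(m : ℝ) := tendsto_nhds_unique h1 (hm.mono_left hU)
    subst h4
    exact h3 h0
  obtain ⟨V, hV⟩ := Ultrafilter.exists_le (𝓝[>] (0 : ℝ))
  obtain ⟨k1, -, k3⟩ := key V hV
  refine ⟨?_, k3, fun δ hδ => ?_⟩
  · rw [abs_neg] at k1
    exact_mod_cast k1
  · set D := df (-(m : ℝ)) (tc π x 0) (tc π' x' τ) with hD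
    have hDb : Bc D := Bc.df (bc_tc x 0) (bc_tc x' τ) _
    have hN := sysF K
    set s : Set (HeightOneSpectrum (𝓞 K)) := {v | δ < ‖D v‖} with hs
    have hib : Bd (s.indicator fun _ => (1 : ℝ)) := by
      refine ⟨1, fun v => ?_⟩
      by_cases hv : v ∈ s
      · rw [Set.indicator_of_mem hv, abs_one]
      · rw [Set.indicator_of_notMem hv, abs_zero]
        norm_num
    refine zero_log hN hib (tendsto_of_ultra fun U hU => ?_)
    have h1 := (key U hU).2.1
    have h2 : (M (nm K) U fun v => (δ ^ 2)⁻¹ * ‖D v‖ ^ 2) = 0 := by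
      rw [M_const_mul hN hU hDb.norm.sq, h1, mul_zero]
    have h3 : M (nm K) U (s.indicator fun _ => (1 : ℝ)) = 0 := by
      refine M_zero_of_le hN hU hib (hDb.norm.sq.const_mul _) (fun v => ?_) (fun v => ?_) h2
      · exact Set.indicator_nonneg (fun _ _ => zero_le_one) v
      · by_cases hv : v ∈ s
        · rw [Set.indicator_of_mem hv]
          have h4 : δ < ‖D v‖ := hv
          rw [← div_eq_inv_mul, one_le_div (by positivity)]
          exact pow_le_pow_left₀ hδ.le h4.le 2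
        · rw [Set.indicator_of_notMem hv]
          positivity
    have h4 := M_lim hN hU hib
    rw [h3] at h4
    exact h4

/-- **The decorrelation.** -/
theorem pair_avg (hx : Law x μ) (hx' : Law x' μ') (hc : Continuous π) (hs : Schur π)
    (hc' : Continuous π') (hs' : Schur π') (hd : ¬ Same π μ π' μ')
    (hcont : ∀ τ : ℝ, ∃ Λ : ℂ → ℂ, MeromorphicAt Λ (1 + τ * I) ∧
      ∀ᶠ s in 𝓝 ((1 : ℂ) + τ * I), (1 : ℝ) < s.re → Λ s = LP π x π' x' s) :
    Tendsto (mn fun v => chi π (x v) * chi π' (x' v)) atTop (𝓝 0) := by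
  obtain ⟨α, h1, h2, h3⟩ := exists_al π x π' x'
  have h4 := taub h1 (L := LP π x π' x') (fun s _ => by
    unfold LP
    exact tprod_congr fun v => by rw [h3]) (fun τ => by
    obtain ⟨Λ, h5, h6⟩ := hcont τ
    obtain ⟨m, h7, h8⟩ := order_LP h5 h6
    have h9 := pair_zero hx hx' hc hs hc' hs' hd h8
    subst h9
    obtain ⟨g, h10, h11, h12⟩ := (meromorphicOrderAt_eq_int_iff h5).1 h7
    refine ⟨g, h10, h11, ?_⟩
    rw [eventually_nhdsWithin_iff] at h12
    filter_upwards [h12, h6] with s h13 h14 h15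
    have hne : s ≠ 1 + τ * I := by
      intro h
      rw [h] at h15
      simp at h15
    have h16 := h13 hne
    rw [zpow_zero, one_smul] at h16
    rw [← h16, h14 h15])
  refine h4.congr fun N => ?_
  congr 1
  funext v
  exact h2 v

end

end Pool.Agent.TH553.ST
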