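import Pool.Agent.TH553.ST.Unit
import Pool.Agent.TH553.ST.Law
import Pool.Agent.H332R2.PIT.Main
import Pool.Agent.H484R2.Zeta

set_option autoImplicit false
set_option linter.unusedSectionVars false

/-!
# The Tauberian theorem for Euler products of unitary matrices over a number field
-/

namespace Pool.Agent.TH553.ST

open Complex Filter Topology ComplexConjugate NumberField IsDedekindDomain
  Pool.Agent.W540.BE Pool.Agent.TH553.RS H332.PIT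

section

variable {K : Type} [Field K] [NumberField K]

/-- the rest of the logarithm of a local factor -/
noncomputable def rt {b : ℕ} (α : HeightOneSpectrum (𝓞 K) → Fin b → ℂ)
    (v : HeightOneSpectrum (𝓞 K)) (s : ℂ) : ℂ :=
  lg (α v) (((nm K v : ℕ) : ℂ) ^ (-s)) - (∑ j, α v j) * ((nm K v : ℕ) : ℂ) ^ (-s)

/-- the half plane `Re s > 3/4` -/
def Hp : Set ℂ := {s : ℂ | 3 / 4 < s.re}

theorem isOpen_Hp : IsOpen Hp := isOpen_lt continuous_const Complex.continuous_re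

theorem half_le : (2 : ℝ) ^ (-(3 / 4) : ℝ) ≤ 2 / 3 := by
  have h1 : ((2 : ℝ) ^ (-(3 / 4) : ℝ)) ^ 4 = 1 / 8 := by
    rw [← Real.rpow_natCast, ← Real.rpow_mul (by norm_num)]
    norm_num
  by_contra h
  push Not at h
  have h2 : (2 / 3 : ℝ) ^ 4 < ((2 : ℝ) ^ (-(3 / 4) : ℝ)) ^ 4 :=
    pow_lt_pow_left₀ h (by norm_num) (by norm_num)
  rw [h1] at h2
  norm_num at h2

theorem norm_z (v : HeightOneSpectrum (𝓞 K)) (s : ℂ) :
    ‖((nm K v : ℕ) : ℂ) ^ (-s)‖ = (nm K v : ℝ) ^ (-s.re) := norm_cpow_neg normSys v s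

theorem z_le (v : HeightOneSpectrum (𝓞 K)) {s : ℂ} (hs : s ∈ Hp) :
    ‖((nm K v : ℕ) : ℂ) ^ (-s)‖ ≤ (nm K v : ℝ) ^ (-(3 / 4) : ℝ) := by
  rw [norm_z]
  have h1 : (1 : ℝ) ≤ nm K v := by
    have := two_le_nm v
    exact_mod_cast (by omega : 1 ≤ nm K v)
  have h2 : 3 / 4 < s.re := hs
  exact Real.rpow_le_rpow_of_exponent_le h1 (by linarith)

theorem z_le' (v : HeightOneSpectrum (𝓞 K)) {s : ℂ} (hs : s ∈ Hp) :
    ‖((nm K v : ℕ) : ℂ) ^ (-s)‖ ≤ 2 / 3 := by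
  refine (z_le v hs).trans (le_trans ?_ half_le)
  exact Real.rpow_le_rpow_of_nonpos (by norm_num) (by exact_mod_cast two_le_nm v) (by norm_num)

theorem rt_le {b : ℕ} {α : HeightOneSpectrum (𝓞 K) → Fin b → ℂ} (hα : ∀ v j, ‖α v j‖ = 1)
    (v : HeightOneSpectrum (𝓞 K)) {s : ℂ} (hs : s ∈ Hp) :
    ‖rt α v s‖ ≤ (b * 2 : ℝ) * (nm K v : ℝ) ^ (-(3 / 2) : ℝ) := by
  unfold rt lg
  rw [Finset.sum_mul, ← Finset.sum_sub_distrib]
  refine (norm_sum_le _ _).trans ?_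
  have h0 := z_le' v hs
  have h1 := z_le v hs
  have h2 : ∀ j, ‖-Complex.log (1 - α v j * ((nm K v : ℕ) : ℂ) ^ (-s)) -
      α v j * ((nm K v : ℕ) : ℂ) ^ (-s)‖ ≤ 2 * (nm K v : ℝ) ^ (-(3 / 2) : ℝ) := by
    intro j
    set x : ℂ := α v j * ((nm K v : ℕ) : ℂ) ^ (-s) with hx
    have h3 : ‖x‖ = ‖((nm K v : ℕ) : ℂ) ^ (-s)‖ := by rw [hx, norm_mul, hα, one_mul]
    have h4 := Complex.norm_log_one_add_sub_self_le (z := -x) (by rw [norm_neg, h3]; linarith)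
    rw [norm_neg, h3] at h4
    have h5 : ‖-Complex.log (1 - x) - x‖ = ‖Complex.log (1 + -x) - -x‖ := by
      rw [← norm_neg]
      congr 1
      rw [← sub_eq_add_neg]
      ring
    rw [h5]
    refine h4.trans ?_
    have h6 : (1 - ‖((nm K v : ℕ) : ℂ) ^ (-s)‖)⁻¹ ≤ 3 := by
      rw [inv_le_comm₀ (by linarith) (by norm_num)]
      linarith
    have h7 : ‖((nm K v : ℕ) : ℂ) ^ (-s)‖ ^ 2 ≤ (nm K v : ℝ) ^ (-(3 / 2) : ℝ) := by
      refine (pow_le_pow_left₀ (norm_nonneg _) h1 2).trans (le_of_eq ?_)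
      rw [← Real.rpow_natCast, ← Real.rpow_mul (by positivity)]
      norm_num
    have h8 : 0 ≤ (1 - ‖((nm K v : ℕ) : ℂ) ^ (-s)‖)⁻¹ := inv_nonneg.2 (by linarith)
    calc ‖((nm K v : ℕ) : ℂ) ^ (-s)‖ ^ 2 * (1 - ‖((nm K v : ℕ) : ℂ) ^ (-s)‖)⁻¹ / 2
        ≤ (nm K v : ℝ) ^ (-(3 / 2) : ℝ) * 3 / 2 := by
          refine div_le_div_of_nonneg_right ?_ (by norm_num)
          exact mul_le_mul h7 h6 h8 (by positivity)
      _ ≤ 2 * (nm K v : ℝ) ^ (-(3 / 2) : ℝ) := by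
          have : 0 ≤ (nm K v : ℝ) ^ (-(3 / 2) : ℝ) := by positivity
          linarith
  refine (Finset.sum_le_sum fun j _ => h2 j).trans (le_of_eq ?_)
  rw [Finset.sum_const, Finset.card_univ, Fintype.card_fin, nsmul_eq_mul]
  ring

theorem summable_b (b : ℝ) : Summable fun v : HeightOneSpectrum (𝓞 K) =>
    b * (nm K v : ℝ) ^ (-(3 / 2) : ℝ) := (normSys.summable _ (by norm_num)).mul_left _

/-- the sum of the rests -/
noncomputable def Rt {b : ℕ} (α : HeightOneSpectrum (𝓞 K) → Fin b → ℂ) (s : ℂ) : ℂ :=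
  ∑' v, rt α v s

theorem diff_rt {b : ℕ} {α : HeightOneSpectrum (𝓞 K) → Fin b → ℂ} (hα : ∀ v j, ‖α v j‖ = 1)
    (v : HeightOneSpectrum (𝓞 K)) : DifferentiableOn ℂ (rt α v) Hp := by
  intro s hs
  have hN : ((nm K v : ℕ) : ℂ) ≠ 0 := by
    have := two_le_nm v
    exact_mod_cast (by omega : nm K v ≠ 0)
  have h1 : DifferentiableAt ℂ (fun s : ℂ => ((nm K v : ℕ) : ℂ) ^ (-s)) s :=
    (differentiableAt_id.neg).const_cpow (Or.inl hN)
  refine DifferentiableAt.differentiableWithinAt ?_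
  refine DifferentiableAt.sub ?_ (h1.const_mul _)
  unfold lg
  refine DifferentiableAt.fun_sum fun j _ => ?_
  refine (DifferentiableAt.clog ((h1.const_mul _).const_sub _) ?_).neg
  have h2 : ‖-(α v j * ((nm K v : ℕ) : ℂ) ^ (-s))‖ < 1 := by
    rw [norm_neg, norm_mul, hα, one_mul]
    exact lt_of_le_of_lt (z_le' v hs) (by norm_num)
  have h3 := Complex.mem_slitPlane_of_norm_lt_one h2
  rwa [← sub_eq_add_neg] at h3

theorem diff_Rt {b : ℕ} {α : HeightOneSpectrum (𝓞 K) → Fin b → ℂ} (hα : ∀ v j, ‖α v j‖ = 1) :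
    DifferentiableOn ℂ (Rt α) Hp :=
  Complex.differentiableOn_tsum_of_summable_norm (summable_b (b * 2)) (fun v => diff_rt hα v)
    isOpen_Hp fun v _ hs => rt_le hα v hs

theorem summable_rt {b : ℕ} {α : HeightOneSpectrum (𝓞 K) → Fin b → ℂ} (hα : ∀ v j, ‖α v j‖ = 1)
    {s : ℂ} (hs : s ∈ Hp) : Summable fun v => rt α v s :=
  Summable.of_norm_bounded (summable_b (b * 2)) fun v => rt_le hα v hs

theorem sum_le {b : ℕ} {α : HeightOneSpectrum (𝓞 K) → Fin b → ℂ} (hα : ∀ v j, ‖α v j‖ = 1)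
    (v : HeightOneSpectrum (𝓞 K)) : ‖∑ j, α v j‖ ≤ b := by
  refine (norm_sum_le _ _).trans ?_
  simp [hα]

/-- the logarithm of the product -/
theorem L_exp {b : ℕ} {α : HeightOneSpectrum (𝓞 K) → Fin b → ℂ} (hα : ∀ v j, ‖α v j‖ = 1)
    {s : ℂ} (hs : 1 < s.re) :
    (∏' v, (∏ j, (1 - α v j * ((nm K v : ℕ) : ℂ) ^ (-s)))⁻¹) =
      cexp (LSeries (nf fun v => ∑ j, α v j) s + Rt α s) := by
  have hs' : s ∈ Hp := by
    have : (3 / 4 : ℝ) < s.re := by linarith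
    exact this
  have h1 := summable_nm (sum_le hα) hs
  have h2 := summable_rt hα hs'
  have h3 : (fun v => lg (α v) (((nm K v : ℕ) : ℂ) ^ (-s))) = fun v =>
      (∑ j, α v j) * ((nm K v : ℕ) : ℂ) ^ (-s) + rt α v s := by
    funext v
    unfold rt
    ring
  have h4 : HasSum (fun v => lg (α v) (((nm K v : ℕ) : ℂ) ^ (-s)))
      (LSeries (nf fun v => ∑ j, α v j) s + Rt α s) := by
    rw [h3, ← tsum_eq_LSeries (sum_le hα) hs]
    exact h1.hasSum.add h2.hasSum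
  have h5 := h4.cexp
  have h6 : (cexp ∘ fun v => lg (α v) (((nm K v : ℕ) : ℂ) ^ (-s))) =
      fun v => (∏ j, (1 - α v j * ((nm K v : ℕ) : ℂ) ^ (-s)))⁻¹ := by
    funext v
    exact exp_lg (hα v) (lt_of_le_of_lt (z_le' v hs') (by norm_num))
  rw [h6] at h5
  exact h5.tprod_eq

/-! ### the logarithmic derivative -/

theorem absc {t : HeightOneSpectrum (𝓞 K) → ℂ} {B : ℝ} (ht : ∀ v, ‖t v‖ ≤ B) :
    LSeries.abscissaOfAbsConv (nf t) ≤ 1 :=
  LSeries.abscissaOfAbsConv_le_of_le_const ⟨_, fun n _ => norm_nf_le ht n⟩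

theorem absc_lt {t : HeightOneSpectrum (𝓞 K) → ℂ} {B : ℝ} (ht : ∀ v, ‖t v‖ ≤ B) {s : ℂ}
    (hs : 1 < s.re) : LSeries.abscissaOfAbsConv (nf t) < s.re :=
  lt_of_le_of_lt (absc ht) (by exact_mod_cast hs)

/-- the coefficients with a logarithm -/
noncomputable def lc (t : HeightOneSpectrum (𝓞 K) → ℂ) (n : ℕ) : ℂ := LSeries.logMul (nf t) n

noncomputable def S (t : HeightOneSpectrum (𝓞 K) → ℂ) (s : ℂ) : ℂ := LSeries (lc t) s

theorem deriv_nf {t : HeightOneSpectrum (𝓞 K) → ℂ} {B : ℝ} (ht : ∀ v, ‖t v‖ ≤ B) {s : ℂ}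
    (hs : 1 < s.re) : HasDerivAt (LSeries (nf t)) (-S t s) s := by
  have h1 := LSeries_hasDerivAt (absc_lt ht hs)
  exact h1

theorem an_S {t : HeightOneSpectrum (𝓞 K) → ℂ} {B : ℝ} (ht : ∀ v, ‖t v‖ ≤ B) {s : ℂ}
    (hs : 1 < s.re) : AnalyticAt ℂ (S t) s := by
  have h1 : LSeries.abscissaOfAbsConv (lc t) < s.re := by
    have h2 : LSeries.abscissaOfAbsConv (lc t) = LSeries.abscissaOfAbsConv (nf t) :=
      LSeries.abscissaOfAbsConv_logMul
    rw [h2]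
    exact absc_lt ht hs
  exact LSeries_analyticOnNhd (lc t) s h1

theorem summ_lc {t : HeightOneSpectrum (𝓞 K) → ℂ} {B : ℝ} (ht : ∀ v, ‖t v‖ ≤ B) {s : ℂ}
    (hs : 1 < s.re) : LSeriesSummable (lc t) s :=
  LSeriesSummable_logMul_of_lt_re (absc_lt ht hs)

variable {b : ℕ} {α : HeightOneSpectrum (𝓞 K) → Fin b → ℂ} (hα : ∀ v j, ‖α v j‖ = 1)

include hα

theorem S_eq {L : ℂ → ℂ} (hL : ∀ s : ℂ, 1 < s.re →
      L s = ∏' v, (∏ j, (1 - α v j * ((nm K v : ℕ) : ℂ) ^ (-s)))⁻¹) {s : ℂ} (hs : 1 < s.re) :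
    L s ≠ 0 ∧ S (fun v => ∑ j, α v j) s = deriv (Rt α) s - deriv L s / L s := by
  have hs' : s ∈ Hp := by
    have : (3 / 4 : ℝ) < s.re := by linarith
    exact this
  have h1 : L =ᶠ[𝓝 s] fun z => cexp (LSeries (nf fun v => ∑ j, α v j) z + Rt α z) := by
    filter_upwards [isOpen_re.mem_nhds hs] with z hz
    rw [hL z hz, L_exp hα hz]
  have h2 : HasDerivAt (Rt α) (deriv (Rt α) s) s :=
    ((diff_Rt hα).differentiableAt (isOpen_Hp.mem_nhds hs')).hasDerivAt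
  have h3 := ((deriv_nf (sum_le hα) hs).add h2).cexp
  have h4 := h1.deriv_eq
  have h6 : (fun x => cexp ((LSeries (nf fun v => ∑ j, α v j) + Rt α) x)) =
      fun z => cexp (LSeries (nf fun v => ∑ j, α v j) z + Rt α z) := rfl
  rw [h6] at h3
  rw [h3.deriv] at h4
  have h5 := h1.eq_of_nhds
  simp only [Pi.add_apply] at h4
  rw [← h5] at h4
  have hne : L s ≠ 0 := by
    rw [h5]
    exact Complex.exp_ne_zero _
  refine ⟨hne, ?_⟩
  rw [h4]
  field_simp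
  ring

/-- the boundary values -/
theorem bd_S {L : ℂ → ℂ} (hL : ∀ s : ℂ, 1 < s.re →
      L s = ∏' v, (∏ j, (1 - α v j * ((nm K v : ℕ) : ℂ) ^ (-s)))⁻¹)
    (hc : ∀ τ : ℝ, ∃ Λ : ℂ → ℂ, AnalyticAt ℂ Λ (1 + τ * I) ∧ Λ (1 + τ * I) ≠ 0 ∧
      ∀ᶠ s in 𝓝 ((1 : ℂ) + τ * I), 1 < s.re → Λ s = L s) {s : ℂ} (hs : 1 ≤ s.re) :
    ∃ y, Tendsto (S fun v => ∑ j, α v j) (𝓝[{s : ℂ | 1 < s.re}] s) (𝓝 y) := by
  rcases hs.eq_or_lt with h | h
  · have hs' : s = 1 + (s.im : ℝ) * I := by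
      apply Complex.ext <;> simp [← h]
    obtain ⟨Λ, h1, h2, h3⟩ := hc s.im
    rw [hs']
    set s0 : ℂ := 1 + (s.im : ℝ) * I with hs0
    have hmem : s0 ∈ Hp := by
      have : (3 / 4 : ℝ) < s0.re := by rw [hs0]; norm_num
      exact this
    have hR : AnalyticAt ℂ (Rt α) s0 := (diff_Rt hα).analyticAt (isOpen_Hp.mem_nhds hmem)
    refine ⟨deriv (Rt α) s0 - deriv Λ s0 / Λ s0, ?_⟩
    have h4 : Tendsto (fun z => deriv (Rt α) z - deriv Λ z / Λ z) (𝓝[{s : ℂ | 1 < s.re}] s0)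
        (𝓝 (deriv (Rt α) s0 - deriv Λ s0 / Λ s0)) :=
      (hR.deriv.continuousAt.sub (h1.deriv.continuousAt.div h1.continuousAt h2)).mono_left
        nhdsWithin_le_nhds
    refine h4.congr' ?_
    filter_upwards [h3.eventually_nhds.filter_mono nhdsWithin_le_nhds, self_mem_nhdsWithin]
      with z hz hre
    have h5 : Λ =ᶠ[𝓝 z] L := by
      filter_upwards [hz, isOpen_re.mem_nhds hre] with w hw hw1
      exact hw hw1
    rw [(S_eq hα hL hre).2, h5.deriv_eq, h5.eq_of_nhds]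
  · exact ⟨_, (an_S (sum_le hα) h).continuousAt.tendsto.mono_left nhdsWithin_le_nhds⟩

end

end Pool.Agent.TH553.ST
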