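import Pool.Agent.TH553.ST.Taub

set_option autoImplicit false
set_option linter.unusedSectionVars false

/-!
# The Tauberian theorem for Euler products of unitary matrices over a number field, second part
-/

namespace Pool.Agent.TH553.ST

open Complex Filter Topology ComplexConjugate NumberField IsDedekindDomain
  Pool.Agent.W540.BE Pool.Agent.TH553.RS H332.PIT

/-- conjugation of Dirichlet series -/
theorem LS_conj (f : ℕ → ℂ) (s : ℂ) : LSeries (fun n => conj (f n)) s =
    conj (LSeries f (conj s)) := by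
  unfold LSeries
  rw [Complex.conj_tsum]
  refine tsum_congr fun n => ?_
  rcases eq_or_ne n 0 with rfl | hn
  · simp
  · rw [LSeries.term_of_ne_zero hn, LSeries.term_of_ne_zero hn, map_div₀]
    congr 1
    have h2 : ((n : ℂ)).arg ≠ Real.pi := by
      rw [Complex.natCast_arg]
      exact Real.pi_ne_zero.symm
    rw [Complex.cpow_conj _ _ h2, Complex.conj_natCast, Complex.conj_conj]

theorem summ_conj (f : ℕ → ℂ) (s : ℂ) (h : LSeriesSummable f s) :
    LSeriesSummable (fun n => conj (f n)) s := by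
  refine Summable.of_norm_bounded h.norm fun n => ?_
  rcases eq_or_ne n 0 with rfl | hn
  · simp
  · rw [LSeries.term_of_ne_zero hn, LSeries.term_of_ne_zero hn, norm_div, norm_div,
      Complex.norm_conj]

section

variable {K : Type} [Field K] [NumberField K]

theorem lc_zero (t : HeightOneSpectrum (𝓞 K) → ℂ) : lc t 0 = 0 := by
  unfold lc LSeries.logMul
  simp

theorem log_nf_le (n : ℕ) : Real.log n * ((fiber_finite (F := K) n).toFinset.card : ℝ) ≤
    LamK K n := by
  classical
  have h1 : Real.log n * ((fiber_finite (F := K) n).toFinset.card : ℝ) =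
      ∑ v ∈ (fiber_finite (F := K) n).toFinset, Real.log n := by
    rw [Finset.sum_const, nsmul_eq_mul, mul_comm]
  rw [h1]
  unfold LamK
  have h2 : (fiber_finite (F := K) n).toFinset ⊆ prLE K n := by
    intro v hv
    rw [Set.Finite.mem_toFinset, Set.mem_ofPred_eq] at hv
    rw [mem_prLE]
    exact le_of_eq hv
  refine le_trans ?_ (Finset.sum_le_sum_of_subset_of_nonneg h2 fun v _ _ =>
    Finset.sum_nonneg fun k _ => ?_)
  · refine Finset.sum_le_sum fun v hv => ?_
    rw [Set.Finite.mem_toFinset, Set.mem_ofPred_eq] at hv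
    have h3 : (1 : ℕ) ∈ Finset.Icc 1 n := by
      rw [Finset.mem_Icc]
      have := two_le_nm v
      omega
    have h4 := Finset.single_le_sum (f := fun k => if Pool.Agent.H921R2.TatePole.nm v ^ k = n
      then Real.log (Pool.Agent.H921R2.TatePole.nm v) else 0) (s := Finset.Icc 1 n)
      (fun k _ => by
        split_ifs
        · exact log_nm_nonneg v
        · exact le_rfl) h3
    refine le_trans ?_ h4
    have h5 : Pool.Agent.H921R2.TatePole.nm v = n := hv
    simp only [pow_one]
    rw [if_pos h5, h5]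
  · split_ifs
    · exact log_nm_nonneg v
    · exact le_rfl

theorem lc_eq (t : HeightOneSpectrum (𝓞 K) → ℂ) (n : ℕ) :
    lc t n = (Real.log n : ℂ) * nf t n := by
  unfold lc LSeries.logMul
  rw [Complex.natCast_log]

theorem norm_lc_le {t : HeightOneSpectrum (𝓞 K) → ℂ} {B : ℝ} (hB0 : 0 ≤ B) (ht : ∀ v, ‖t v‖ ≤ B)
    (n : ℕ) : ‖lc t n‖ ≤ B * LamK K n := by
  rw [lc_eq, norm_mul, Complex.norm_real, Real.norm_eq_abs, abs_of_nonneg (Real.log_natCast_nonneg n)]
  have h1 : ‖nf t n‖ ≤ ((fiber_finite (F := K) n).toFinset.card : ℝ) * B := by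
    unfold nf
    refine (norm_sum_le _ _).trans ?_
    refine (Finset.sum_le_card_nsmul _ _ B fun v _ => ht v).trans ?_
    rw [nsmul_eq_mul]
  calc Real.log n * ‖nf t n‖ ≤ Real.log n * (((fiber_finite (F := K) n).toFinset.card : ℝ) * B) :=
        mul_le_mul_of_nonneg_left h1 (Real.log_natCast_nonneg n)
    _ = B * (Real.log n * ((fiber_finite (F := K) n).toFinset.card : ℝ)) := by ring
    _ ≤ B * LamK K n := mul_le_mul_of_nonneg_left (log_nf_le n) hB0

/-- the weights -/
noncomputable def wt (ζ : ℂ) (t : HeightOneSpectrum (𝓞 K) → ℂ) (n : ℕ) : ℝ := (ζ * lc t n).re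

theorem wt_le {ζ : ℂ} (hζ : ‖ζ‖ ≤ 1) {t : HeightOneSpectrum (𝓞 K) → ℂ} {B : ℝ} (hB0 : 0 ≤ B)
    (ht : ∀ v, ‖t v‖ ≤ B) (n : ℕ) : |wt ζ t n| ≤ B * LamK K n := by
  unfold wt
  refine (Complex.abs_re_le_norm _).trans ?_
  rw [norm_mul]
  refine le_trans ?_ (norm_lc_le hB0 ht n)
  exact mul_le_of_le_one_left (norm_nonneg _) hζ

theorem wt_eq (ζ : ℂ) (t : HeightOneSpectrum (𝓞 K) → ℂ) (n : ℕ) :
    ((wt ζ t n : ℝ) : ℂ) = ζ / 2 * lc t n + conj ζ / 2 * conj (lc t n) := by
  unfold wt
  rw [Complex.re_eq_add_conj, map_mul]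
  ring

/-- **The weighted mean value.** -/
theorem sum_wt {t : HeightOneSpectrum (𝓞 K) → ℂ} {B : ℝ} (hB0 : 0 ≤ B) (ht : ∀ v, ‖t v‖ ≤ B)
    (hbd : ∀ s : ℂ, 1 ≤ s.re → ∃ y, Tendsto (S t) (𝓝[{s : ℂ | 1 < s.re}] s) (𝓝 y)) {ζ : ℂ}
    (hζ : ‖ζ‖ ≤ 1) :
    Tendsto (fun x : ℝ => (∑ k ∈ Finset.Icc 1 ⌊x⌋₊, (B * LamK K k + wt ζ t k)) / x) atTop
      (𝓝 B) := by
  set f : ℂ → ℂ := fun s => B * (LL K s - 1 / (s - 1)) + ζ / 2 * S t s +
    conj ζ / 2 * conj (S t (conj s)) with hf
  have hconj : ∀ s : ℂ, Tendsto (fun z : ℂ => conj z) (𝓝[{s : ℂ | 1 < s.re}] s)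
      (𝓝[{s : ℂ | 1 < s.re}] (conj s)) := by
    intro s
    rw [tendsto_nhdsWithin_iff]
    refine ⟨(Complex.continuous_conj.tendsto s).mono_left nhdsWithin_le_nhds, ?_⟩
    filter_upwards [self_mem_nhdsWithin] with z hz
    have : 1 < z.re := hz
    simpa using this
  have hbd' : ∀ s : ℂ, 1 ≤ s.re → ∃ y, Tendsto f (𝓝[{s : ℂ | 1 < s.re}] s) (𝓝 y) := by
    intro s hs
    obtain ⟨y0, h0⟩ := boundary (K := K) (Pool.Agent.H484R2.continuation K) hs
    obtain ⟨y1, h1⟩ := hbd s hs
    obtain ⟨y2, h2⟩ := hbd (conj s) (by simpa using hs)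
    have h3 := (Complex.continuous_conj.tendsto y2).comp (h2.comp (hconj s))
    exact ⟨_, ((h0.const_mul _).add (h1.const_mul _)).add (h3.const_mul _)⟩
  have hLam : ∀ n, 0 ≤ LamK K n := LamK_nonneg
  refine Pool.Agent.Helper923.PNT.wiener_ikehara (fun k => B * LamK K k + wt ζ t k) ?_
    (2 * B * ((Module.finrank ℚ K : ℝ) ^ 2 * (Real.log 4 + 4))) B ?_
    (extendFrom {s : ℂ | 1 < s.re} f) ?_ ?_
  · intro n
    have := (abs_le.1 (wt_le hζ hB0 ht n)).1
    linarith
  · intro n
    have h1 : ∑ k ∈ Finset.Icc 1 n, (B * LamK K k + wt ζ t k) ≤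
        ∑ k ∈ Finset.Icc 1 n, (2 * B) * LamK K k := by
      refine Finset.sum_le_sum fun k _ => ?_
      have := (abs_le.1 (wt_le hζ hB0 ht k)).2
      linarith
    have h2 : ∑ k ∈ Finset.Icc 1 n, LamK K k ≤
        (Module.finrank ℚ K : ℝ) ^ 2 * Chebyshev.psi n := by
      unfold Chebyshev.psi
      rw [Nat.floor_natCast, Finset.mul_sum]
      exact Finset.sum_le_sum fun k _ => LamK_le k
    have h3 : (Module.finrank ℚ K : ℝ) ^ 2 * Chebyshev.psi n ≤
        (Module.finrank ℚ K : ℝ) ^ 2 * ((Real.log 4 + 4) * n) :=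
      mul_le_mul_of_nonneg_left (Chebyshev.psi_le_const_mul_self (Nat.cast_nonneg n))
        (by positivity)
    rw [← Finset.mul_sum] at h1
    refine h1.trans ?_
    calc 2 * B * ∑ k ∈ Finset.Icc 1 n, LamK K k ≤
          2 * B * ((Module.finrank ℚ K : ℝ) ^ 2 * ((Real.log 4 + 4) * n)) :=
          mul_le_mul_of_nonneg_left (h2.trans h3) (by positivity)
      _ = _ := by ring
  · refine continuousOn_extendFrom ?_ fun s hs => hbd' s hs
    intro s hs
    rw [Metric.mem_closure_iff]
    intro ε hε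
    refine ⟨s + ((ε / 2 : ℝ) : ℂ), ?_, ?_⟩
    · have : (1 : ℝ) ≤ s.re := hs
      simp only [Set.mem_ofPred_eq, Complex.add_re, Complex.ofReal_re]
      linarith
    · rw [dist_eq_norm, sub_add_cancel_left, norm_neg, Complex.norm_real, Real.norm_eq_abs,
        abs_of_pos (by linarith)]
      linarith
  · intro s hs
    have h1 : ContinuousOn f {s : ℂ | 1 < s.re} := by
      intro z hz
      have hz' : 1 < z.re := hz
      have hz1 : z - 1 ≠ 0 := by
        intro h1
        have : z = 1 := sub_eq_zero.mp h1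
        rw [this] at hz'
        simp at hz'
      refine ContinuousAt.continuousWithinAt ?_
      have hcj : 1 < (conj z).re := by simpa using hz'
      have h2 : ContinuousAt (fun z : ℂ => conj (S t (conj z))) z :=
        Complex.continuous_conj.continuousAt.comp
          (ContinuousAt.comp (f := fun z : ℂ => conj z) (an_S ht hcj).continuousAt
            Complex.continuous_conj.continuousAt)
      exact ((continuousAt_const.mul ((LL_analyticAt hz).continuousAt.sub
        (continuousAt_const.div (continuous_id.sub continuous_const).continuousAt hz1))).add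
        (continuousAt_const.mul (an_S ht hz').continuousAt)).add (continuousAt_const.mul h2)
    rw [extendFrom_extends h1 s hs, hf]
    have h2 : LSeries (fun n => ((B * LamK K n + wt ζ t n : ℝ) : ℂ)) s =
        B * LL K s + ζ / 2 * S t s + conj ζ / 2 * conj (S t (conj s)) := by
      have e1 : (fun n : ℕ => ((B * LamK K n + wt ζ t n : ℝ) : ℂ)) =
          (B : ℂ) • (fun n : ℕ => (LamK K n : ℂ)) + (ζ / 2) • (lc t) +
            (conj ζ / 2) • (fun n => conj (lc t n)) := by
        funext n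
        simp only [Pi.add_apply, Pi.smul_apply, smul_eq_mul]
        rw [Complex.ofReal_add, wt_eq, Complex.ofReal_mul]
        ring
      have a0 : LSeriesSummable ((B : ℂ) • (fun n : ℕ => (LamK K n : ℂ))) s :=
        (LamK_summable (K := K) hs).smul _
      have a1 : LSeriesSummable ((ζ / 2) • (lc t)) s := (summ_lc ht hs).smul _
      have a2 : LSeriesSummable ((conj ζ / 2) • (fun n => conj (lc t n))) s :=
        (summ_conj _ _ (summ_lc ht hs)).smul _
      rw [e1, LSeries_add (a0.add a1) a2, LSeries_add a0 a1, LSeries_smul, LSeries_smul,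
        LSeries_smul, LS_conj]
      rfl
    rw [h2]
    simp only
    ring

end

end Pool.Agent.TH553.ST
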