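import Pool.Agent.TH553.RS.Artin

set_option autoImplicit false

/-!
# Euler products of unitary matrices
-/

namespace Pool.Agent.TH553.ST

open Complex Filter Topology ComplexConjugate Pool.Agent.H341R2 Polynomial Pool.Agent.W540.BE
  Pool.Agent.TH553.RS
open scoped Matrix ComplexOrder

/-- the eigenvalues of a unitary matrix have absolute value one -/
theorem unitary_norm {n : Type*} [Fintype n] [DecidableEq n] {A : Matrix n n ℂ}
    (hA : A ∈ Matrix.unitaryGroup n ℂ) {l : ℂ} (hl : A.charpoly.IsRoot l) : ‖l‖ = 1 := by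
  have h1 : (Matrix.scalar n l - A).det = 0 := by
    rw [← Matrix.eval_charpoly]
    exact hl
  obtain ⟨v, hv0, hv⟩ := Matrix.exists_mulVec_eq_zero_iff.2 h1
  have h2 : A *ᵥ v = l • v := by
    rw [Matrix.sub_mulVec] at hv
    have h3 : (Matrix.scalar n l) *ᵥ v = l • v := by
      rw [Matrix.scalar_apply, ← Matrix.smul_one_eq_diagonal, Matrix.smul_mulVec,
        Matrix.one_mulVec]
    rw [h3] at hv
    exact (sub_eq_zero.1 hv).symm
  have h3 : star (A *ᵥ v) ⬝ᵥ (A *ᵥ v) = star v ⬝ᵥ v := by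
    rw [Matrix.star_mulVec, ← Matrix.dotProduct_mulVec, Matrix.mulVec_mulVec]
    have h4 : Aᴴ * A = 1 := Matrix.mem_unitaryGroup_iff'.1 hA
    rw [h4, Matrix.one_mulVec]
  rw [h2, star_smul, smul_dotProduct, dotProduct_smul, smul_eq_mul, smul_eq_mul, ← mul_assoc]
    at h3
  have h5 : star v ⬝ᵥ v ≠ 0 := by
    rw [Ne, dotProduct_star_self_eq_zero]
    exact hv0
  have h6 : star l * l = 1 := mul_right_cancel₀ h5 (h3.trans (one_mul _).symm)
  have h7 : ((‖l‖ ^ 2 : ℝ) : ℂ) = 1 := by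
    rw [← h6, Complex.ofReal_pow]
    exact (Complex.conj_mul' l).symm
  have h8 : ‖l‖ ^ 2 = 1 := by exact_mod_cast h7
  exact (pow_eq_one_iff_of_nonneg (norm_nonneg _) two_ne_zero).1 h8

/-- the eigenvalues of a unitary matrix -/
theorem exists_eig {n : Type*} [Fintype n] [DecidableEq n] {A : Matrix n n ℂ}
    (hA : A ∈ Matrix.unitaryGroup n ℂ) :
    ∃ α : Fin (Fintype.card n) → ℂ, (∀ j, ‖α j‖ = 1) ∧ ∑ j, α j = A.trace ∧
      ∀ c : ℂ, (1 - c • A).det = ∏ j, (1 - α j * c) := by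
  have hsp : A.charpoly.Splits := IsAlgClosed.splits _
  have hcard : A.charpoly.roots.card = Fintype.card n := by
    rw [← hsp.natDegree_eq_card_roots, Matrix.charpoly_natDegree_eq_dim]
  have hdet : ∀ c : ℂ, (1 - c • A).det = (A.charpoly.roots.map fun l => 1 - l * c).prod := by
    intro c
    by_cases hc : c = 0
    · subst hc
      simp
    · have h1 : (1 - c • A).det = c ^ (Fintype.card n) * A.charpoly.eval c⁻¹ := by
        rw [Matrix.eval_charpoly, ← Matrix.det_smul]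
        congr 1
        rw [smul_sub, Matrix.scalar_apply, ← Matrix.smul_one_eq_diagonal, smul_smul,
          mul_inv_cancel₀ hc, one_smul]
      rw [h1, hsp.eval_eq_prod_roots_of_monic (Matrix.charpoly_monic A)]
      have h3 : (A.charpoly.roots.map fun l => 1 - l * c).prod =
          (A.charpoly.roots.map fun l => c * (c⁻¹ - l)).prod := by
        refine congrArg _ (Multiset.map_congr rfl fun l _ => ?_)
        rw [mul_sub, mul_inv_cancel₀ hc, mul_comm l c]
      rw [h3, Multiset.prod_map_mul, Multiset.map_const', Multiset.prod_replicate, hcard]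
  obtain ⟨L, hL⟩ := Quot.exists_rep A.charpoly.roots
  have hL' : A.charpoly.roots = (L : Multiset ℂ) := hL.symm
  have hlen : L.length = Fintype.card n := by
    rw [← hcard, hL', Multiset.coe_card]
  refine ⟨fun j => L.get (Fin.cast hlen.symm j), fun j => ?_, ?_, fun c => ?_⟩
  · refine unitary_norm hA (Polynomial.mem_roots'.1 ?_).2
    rw [hL', Multiset.mem_coe]
    exact List.get_mem _ _
  · rw [Matrix.trace_eq_sum_roots_charpoly, hL', Multiset.sum_coe]
    have h1 := Fin.sum_univ_getElem L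
    rw [← h1]
    exact Fintype.sum_equiv (finCongr hlen.symm) _ _ fun j => rfl
  · rw [hdet, hL', Multiset.map_coe, Multiset.prod_coe]
    have h1 := Fin.prod_univ_fun_getElem L (fun l => 1 - l * c)
    rw [← h1]
    exact (Fintype.prod_equiv (finCongr hlen.symm) _ _ fun j => rfl).symm

/-- the logarithm of a local factor -/
noncomputable def lg {b : ℕ} (α : Fin b → ℂ) (z : ℂ) : ℂ := ∑ j, -Complex.log (1 - α j * z)

theorem exp_lg {b : ℕ} {α : Fin b → ℂ} (hα : ∀ j, ‖α j‖ = 1) {z : ℂ} (hz : ‖z‖ < 1) :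
    cexp (lg α z) = (∏ j, (1 - α j * z))⁻¹ := by
  unfold lg
  rw [Complex.exp_sum, ← Finset.prod_inv_distrib]
  refine Finset.prod_congr rfl fun j _ => ?_
  have h1 : 1 - α j * z ≠ 0 := by
    intro h
    have h2 : ‖α j * z‖ = 1 := by
      have : α j * z = 1 := by linear_combination -h
      rw [this, norm_one]
    rw [norm_mul, hα, one_mul] at h2
    linarith
  rw [Complex.exp_neg, Complex.exp_log h1]

theorem lg_sub {b : ℕ} {α : Fin b → ℂ} (hα : ∀ j, ‖α j‖ = 1) {z : ℂ} (hz : ‖z‖ ≤ 1 / 2) :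
    ‖lg α z - (∑ j, α j) * z‖ ≤ b * ‖z‖ ^ 2 := by
  unfold lg
  rw [Finset.sum_mul, ← Finset.sum_sub_distrib]
  refine (norm_sum_le _ _).trans ?_
  refine (Finset.sum_le_sum (g := fun _ => ‖z‖ ^ 2) fun j _ => ?_).trans (le_of_eq ?_)
  · have h1 : ‖α j * z‖ = ‖z‖ := by rw [norm_mul, hα, one_mul]
    have h2 := norm_neg_log_sub_le (z := α j * z) (by rw [h1]; exact hz)
    rw [h1] at h2
    exact h2
  · rw [Finset.sum_const, Finset.card_univ, Fintype.card_fin, nsmul_eq_mul]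

section

variable {P : Type*} {N : P → ℕ}

theorem norm_cpow_neg (hN : NormSys N) (p : P) (s : ℂ) :
    ‖((N p : ℕ) : ℂ) ^ (-s)‖ = (N p : ℝ) ^ (-s.re) := by
  rw [Complex.norm_natCast_cpow_of_pos (by have := hN.two_le p; omega)]
  simp

theorem cpow_le_half (hN : NormSys N) (p : P) {s : ℂ} (hs : 1 ≤ s.re) :
    ‖((N p : ℕ) : ℂ) ^ (-s)‖ ≤ 1 / 2 := by
  rw [norm_cpow_neg hN]
  have h2 : (2 : ℝ) ≤ N p := by exact_mod_cast hN.two_le p
  calc (N p : ℝ) ^ (-s.re) ≤ (N p : ℝ) ^ (-1 : ℝ) :=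
        Real.rpow_le_rpow_of_exponent_le (by linarith) (by linarith)
    _ = (N p : ℝ)⁻¹ := Real.rpow_neg_one _
    _ ≤ 1 / 2 := by
        rw [one_div]
        exact inv_anti₀ (by norm_num) h2

/-- **The size of an Euler product of unitary matrices and the correlation.** -/
theorem size_unit (hN : Sys N) {b : ℕ} (α : P → Fin b → ℂ)
    (hα : ∀ᶠ p in cofinite, ∀ j, ‖α p j‖ = 1) {t : P → ℂ} {C : ℝ} (hC : ∀ p, ‖t p‖ ≤ C)
    (ht : ∀ᶠ p in cofinite, ∑ j, α p j = t p) (τ : ℝ) (B : P → ℂ[X])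
    (hB : ∀ᶠ p in cofinite, ∀ z : ℂ, (B p).eval z = ∏ j, (1 - α p j * z))
    (hB0 : ∀ p, (B p).eval (((N p : ℕ) : ℂ) ^ (-(1 + τ * I : ℂ))) ≠ 0) (L : ℂ → ℂ)
    (hL : ∀ s : ℂ, 1 < s.re → L s = ∏' p, ((B p).eval (((N p : ℕ) : ℂ) ^ (-s)))⁻¹) :
    (∀ᶠ ε : ℝ in 𝓝[>] 0, L (1 + τ * I + ε) ≠ 0) ∧
    Tendsto (fun ε : ℝ => qt N (fun p => (t p * ((N p : ℕ) : ℂ) ^ (-(τ * I : ℂ))).re) ε -
      Real.log ‖L (1 + τ * I + ε)‖ / Real.log (1 / ε)) (𝓝[>] 0) (𝓝 0) := by
  classical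
  have hNs := hN.sys
  set Good : P → Prop := fun p => ((∀ j, ‖α p j‖ = 1) ∧ ∑ j, α p j = t p) ∧
    ∀ z : ℂ, (B p).eval z = ∏ j, (1 - α p j * z) with hGood
  have hfin : {p | ¬ Good p}.Finite := by
    have := (hα.and ht).and hB
    rwa [Filter.eventually_cofinite] at this
  set a : P → ℂ := fun p => if Good p then t p * ((N p : ℕ) : ℂ) ^ (-(τ * I : ℂ)) else 0 with ha
  have hnI : ∀ p : P, ‖((N p : ℕ) : ℂ) ^ (-(τ * I : ℂ))‖ = 1 := fun p =>
    norm_cpow_I (by have := hNs.two_le p; omega) τ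
  have hprod : ∀ p, ‖t p * ((N p : ℕ) : ℂ) ^ (-(τ * I : ℂ))‖ ≤ |C| := by
    intro p
    rw [norm_mul, hnI, mul_one]
    exact (hC p).trans (le_abs_self C)
  have hab : ∀ p, ‖a p‖ ≤ |C| := by
    intro p
    rw [ha]
    simp only
    split_ifs
    · exact hprod p
    · rw [norm_zero]; positivity
  have ha0 : ∀ p, ¬ Good p → a p = 0 := by
    intro p hp
    rw [ha]
    simp only
    rw [if_neg hp]
  set G : ℝ → P → ℂ := fun ε p => lg (α p) (((N p : ℕ) : ℂ) ^ (-(1 + τ * I + ε : ℂ))) with hG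
  have hre : ∀ ε : ℝ, (1 + τ * I + ε : ℂ).re = 1 + ε := by intro ε; simp
  obtain ⟨C', hC'⟩ := sizeP hNs (Good := Good) hfin B (1 + τ * I)
    (fun p _ => hB0 p) a hab ha0 G (C := (b : ℝ))
    (by
      intro ε hε p hp
      have h1 : a p = t p * ((N p : ℕ) : ℂ) ^ (-(τ * I : ℂ)) := by
        rw [ha]
        simp only
        rw [if_pos hp]
      have hN0 : (0 : ℝ) ≤ N p := by positivity
      have hNc : ((N p : ℕ) : ℂ) ≠ 0 := by
        have := hNs.two_le p
        exact_mod_cast (by omega : N p ≠ 0)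
      have h2 : a p * (((N p : ℝ) ^ (-(1 + ε)) : ℝ) : ℂ) =
          (∑ j, α p j) * ((N p : ℕ) : ℂ) ^ (-(1 + τ * I + ε : ℂ)) := by
        rw [h1, hp.1.2, Complex.ofReal_cpow hN0, mul_assoc]
        push_cast
        rw [← Complex.cpow_add _ _ hNc]
        congr 2
        ring
      rw [h2, hG]
      simp only
      refine (lg_sub hp.1.1 (cpow_le_half hNs p (by rw [hre]; linarith))).trans ?_
      refine mul_le_mul_of_nonneg_left ?_ (Nat.cast_nonneg _)
      rw [norm_cpow_neg hNs, hre]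
      have hN1 : (1 : ℝ) ≤ N p := by
        have := hNs.two_le p
        exact_mod_cast (by omega : 1 ≤ N p)
      calc ((N p : ℝ) ^ (-(1 + ε))) ^ 2 ≤ ((N p : ℝ) ^ (-1 : ℝ)) ^ 2 := by
            refine pow_le_pow_left₀ (by positivity) ?_ 2
            exact Real.rpow_le_rpow_of_exponent_le hN1 (by linarith)
        _ = (N p : ℝ) ^ (-2 : ℝ) := by
            rw [← Real.rpow_natCast, ← Real.rpow_mul hN0]
            norm_num)
    (L := fun ε => L (1 + τ * I + ε))
    (by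
      intro ε hε
      rw [hL _ (by rw [hre]; linarith)]
      refine tprod_congr fun p => ?_
      split_ifs with hp
      · rw [hG]
        simp only
        rw [exp_lg hp.1.1 (lt_of_le_of_lt (cpow_le_half hNs p (by rw [hre]; linarith))
          (by norm_num)), hp.2]
      · rfl)
  -- the mean value of the coefficients
  set f : P → ℝ := fun p => (t p * ((N p : ℕ) : ℂ) ^ (-(τ * I : ℂ))).re with hf
  have hfb : ∀ p, |f p| ≤ |C| := fun p => (Complex.abs_re_le_norm _).trans (hprod p)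
  set r : P → ℝ := fun p => f p - (a p).re with hr
  have hr0 : ∀ p, p ∉ hfin.toFinset → r p = 0 := by
    intro p hp
    rw [Set.Finite.mem_toFinset, Set.mem_ofPred_eq, not_not] at hp
    rw [hr, ha]
    simp only
    rw [if_pos hp, sub_self]
  have hrb : ∀ p, |r p| ≤ 2 * |C| := by
    intro p
    rw [hr]
    simp only
    have h1 := hfb p
    have h2 : |(a p).re| ≤ |C| := (Complex.abs_re_le_norm _).trans (hab p)
    rw [abs_le] at *
    constructor <;> linarith [h1.1, h1.2, h2.1, h2.2]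
  have hsplit : ∀ ε : ℝ, 0 < ε → EP N ε f = (EP N ε fun p => (a p).re) + EP N ε r := by
    intro ε hε
    rw [← EP_add hNs hε (B := |C|) (B' := 2 * |C|)
      (fun p => (Complex.abs_re_le_norm _).trans (hab p)) hrb]
    congr 1
    funext p
    rw [hr]
    ring
  have hk : ∀ᶠ ε : ℝ in 𝓝[>] 0, L (1 + τ * I + ε) ≠ 0 ∧
      |EP N ε f - Real.log ‖L (1 + τ * I + ε)‖| ≤
        C' + hfin.toFinset.card * (2 * |C|) := by
    filter_upwards [hC', self_mem_nhdsWithin] with ε h1 h2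
    have hε : (0 : ℝ) < ε := h2
    refine ⟨h1.1, ?_⟩
    rw [hsplit ε hε]
    have h4 := EP_finsupp hNs hfin.toFinset r hr0 _ hrb hε
    have h5 : (EP N ε fun p => (a p).re) + EP N ε r - Real.log ‖L (1 + τ * I + ε)‖ =
        ((EP N ε fun p => (a p).re) - Real.log ‖L (1 + τ * I + ε)‖) + EP N ε r := by ring
    rw [h5]
    exact (abs_add_le _ _).trans (add_le_add h1.2 h4)
  have hEP1 : ∀ᶠ ε : ℝ in 𝓝[>] 0, (EP N ε fun _ => 1) ≤ 2 * lam ε := by
    filter_upwards [hN.one.eventually_lt_const (by norm_num : (1 : ℝ) < 2),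
      lam_tendsto.eventually_gt_atTop 0] with ε h1 h2
    unfold qt at h1
    rw [div_lt_iff₀ h2] at h1
    exact h1.le
  have hylam : ∀ᶠ ε : ℝ in 𝓝[>] 0, |EP N ε f| ≤ (2 * |C| : ℝ) * lam ε := by
    filter_upwards [hEP1, self_mem_nhdsWithin] with ε h1 h2
    have h3 := abs_EP_le hNs hfb (show 0 < ε from h2)
    refine h3.trans ?_
    calc |C| * EP N ε (fun _ => 1) ≤ |C| * (2 * lam ε) :=
          mul_le_mul_of_nonneg_left h1 (by positivity)
      _ = _ := by ring
  refine ⟨hk.mono fun _ h => h.1, ?_⟩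
  exact size_compare hylam (hk.mono fun _ h => h.2)

end

/-- the order of a continuation -/
theorem order_unit {L : ℂ → ℂ} {τ : ℝ} (hL : ∀ᶠ ε : ℝ in 𝓝[>] 0, L (1 + τ * I + ε) ≠ 0)
    {Λ : ℂ → ℂ} (h1 : MeromorphicAt Λ (1 + τ * I))
    (h2 : ∀ᶠ s in 𝓝 ((1 : ℂ) + τ * I), (1 : ℝ) < s.re → Λ s = L s) :
    ∃ m : ℤ, meromorphicOrderAt Λ (1 + τ * I) = m ∧
      Tendsto (fun ε : ℝ => Real.log ‖L (1 + τ * I + ε)‖ / Real.log (1 / ε)) (𝓝[>] 0)
      (𝓝 (-(m : ℝ))) := by
  have h3 : ∀ᶠ ε : ℝ in 𝓝[>] 0, Λ (1 + τ * I + ε) = L (1 + τ * I + ε) := by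
    filter_upwards [(path_tendsto' (1 + τ * I)).eventually h2, self_mem_nhdsWithin] with ε h1 h2
    have hε : (0 : ℝ) < ε := h2
    exact h1 (by simp; linarith)
  obtain ⟨m, h4, h5⟩ := order_of_size h1 (by
    filter_upwards [hL, h3] with ε h6 h7
    rw [h7]
    exact h6)
  refine ⟨m, h4, h5.congr' ?_⟩
  filter_upwards [h3] with ε h6
  rw [h6]

end Pool.Agent.TH553.ST
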